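import Mathlib

open Finset

namespace Pool.Agent.BAPp

/-- the test functions on the points `(l, h)`, `h < 2^(l+2)` -/
noncomputable def ee (sg tt : ℕ → ℕ → ℕ → ℝ) (l i : ℕ) (x : ℕ × ℕ) : ℝ :=
  if x.2 < 2 ^ (x.1 + 2) then
    (if x.1 = l then sg l i x.2 else if x.1 + 1 = l then tt x.1 i x.2 else 0) else 0

/-- the kernel -/
noncomputable def phi (sg tt : ℕ → ℕ → ℕ → ℝ) (g x : ℕ × ℕ) : ℝ :=
  if g.2 < 2 ^ (g.1 + 2) then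
    (1 / 2 ^ (g.1 + 2)) * ((1 / 2 ^ (g.1 + 1)) *
        (∑ j ∈ range (2 ^ (g.1 + 1)), tt g.1 j g.2 * ee sg tt (g.1 + 1) j x)
      - (1 / 2 ^ g.1) * (∑ j ∈ range (2 ^ g.1), sg g.1 j g.2 * ee sg tt g.1 j x))
  else 0

/-- the weights -/
noncomputable def rho (r : ℝ) (g : ℕ × ℕ) : ℝ :=
  if g.2 < 2 ^ (g.1 + 2) then (r / 2) ^ g.1 else 0

end Pool.Agent.BAPp
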