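import Mathlib
import Pool.Agent.BAPp.SysDefs

open Finset
open scoped ENNReal NNReal

set_option maxSynthPendingDepth 3

namespace Pool.Agent.BAPp.Alpha




/-- evaluation at a point -/
noncomputable def evx (q : ℝ) (hq : 1 ≤ q) [Fact (1 ≤ ENNReal.ofReal q)] (x : ℕ × ℕ) :
    lp (fun _ : ℕ × ℕ => ℝ) (ENNReal.ofReal q) →L[ℝ] ℝ :=
  LinearMap.mkContinuous
    { toFun := fun y => (y : ℕ × ℕ → ℝ) x
      map_add' := fun y z => by simp
      map_smul' := fun c y => by simp } 1 (fun y => by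
        rw [one_mul]
        have hp : ENNReal.ofReal q ≠ 0 := by
          intro h
          have := (Fact.out : 1 ≤ ENNReal.ofReal q)
          rw [h] at this
          simp at this
        exact lp.norm_apply_le_norm hp y x)

theorem evx_apply (q : ℝ) (hq : 1 ≤ q) [Fact (1 ≤ ENNReal.ofReal q)] (x : ℕ × ℕ)
    (y : lp (fun _ : ℕ × ℕ => ℝ) (ENNReal.ofReal q)) : evx q hq x y = (y : ℕ × ℕ → ℝ) x := rfl

/-- the functionals `α^K_j` on `ℓ_q` -/
theorem exists_alpha (q : ℝ) (hq : 1 ≤ q) [Fact (1 ≤ ENNReal.ofReal q)] (r : ℝ) (hr0 : 0 < r)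
    (sg : ℕ → ℕ → ℕ → ℝ) (K j : ℕ) :
    ∃ al : lp (fun _ : ℕ × ℕ => ℝ) (ENNReal.ofReal q) →L[ℝ] ℝ,
      ∀ (y : lp (fun _ : ℕ × ℕ => ℝ) (ENNReal.ofReal q)) (f : ℕ × ℕ → ℝ),
        (∀ x, (y : ℕ × ℕ → ℝ) x = (rho r x) ^ (1 / q) * f x) →
        al y = (1 / 2 ^ (K + 2)) * ∑ g ∈ range (2 ^ (K + 2)), sg K j g * f (K, g) := by
  refine ⟨(1 / 2 ^ (K + 2) : ℝ) • ∑ g ∈ range (2 ^ (K + 2)),
    (sg K j g * ((rho r (K, g)) ^ (1 / q))⁻¹) • evx q hq (K, g), ?_⟩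
  intro y f hy
  rw [ContinuousLinearMap.smul_apply, ContinuousLinearMap.sum_apply, smul_eq_mul]
  congr 1
  apply Finset.sum_congr rfl
  intro g hg
  rw [Finset.mem_range] at hg
  rw [ContinuousLinearMap.smul_apply, smul_eq_mul, evx_apply, hy]
  have hrho : 0 < rho r (K, g) := by
    simp only [rho]
    rw [if_pos hg]
    positivity
  have h2 : (rho r (K, g)) ^ (1 / q) ≠ 0 := (Real.rpow_pos_of_pos hrho _).ne'
  rw [mul_assoc, ← mul_assoc ((rho r (K, g)) ^ (1 / q))⁻¹, inv_mul_cancel₀ h2, one_mul]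

end Pool.Agent.BAPp.Alpha
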