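import Mathlib

open MeasureTheory
open scoped ENNReal NNReal

set_option maxSynthPendingDepth 3

namespace Pool.Agent.BAPp

/-- The weak `ℓ_q` norm `sup_{‖f‖ ≤ 1} (∑ |f(x_k)|^q)^{1/q}` of a finite family in `X`. -/
noncomputable def weakNorm (q : ℝ) {X : Type} [NormedAddCommGroup X] [NormedSpace ℝ X]
    {n : ℕ} (x : Fin n → X) : ℝ≥0∞ :=
  ⨆ (f : X →L[ℝ] ℝ) (_ : ‖f‖ ≤ 1), ENNReal.ofReal ((∑ k, |f (x k)| ^ q) ^ (1 / q))

/-- The Chevet–Saphar norm `g_p` of a finite rank operator `T : Y → X`: the infimum of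
`(∑ ‖y_k*‖^p)^{1/p} · ‖(x_k)‖^w_{p*}` over all representations `T = ∑ y_k* ⊗ x_k`. Here
`p* = p / (p - 1)` and `1 < p < ∞`. -/
noncomputable def gNorm (p : ℝ) {Y X : Type} [NormedAddCommGroup Y] [NormedSpace ℝ Y]
    [NormedAddCommGroup X] [NormedSpace ℝ X] (T : Y →L[ℝ] X) : ℝ≥0∞ :=
  ⨅ (n : ℕ) (ys : Fin n → (Y →L[ℝ] ℝ)) (xs : Fin n → X) (_ : ∀ y, T y = ∑ k, ys k y • xs k),
    ENNReal.ofReal ((∑ k, ‖ys k‖ ^ p) ^ (1 / p)) * weakNorm (p / (p - 1)) xs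

/-- The formal inclusion of `L_∞(μ)` in `L_p(μ)` for a finite measure `μ`. -/
noncomputable def incl {Ω : Type} [MeasurableSpace Ω] (μ : Measure Ω) [IsFiniteMeasure μ]
    (p : ℝ≥0∞) (f : Lp ℝ ∞ μ) : Lp ℝ p μ :=
  MemLp.toLp f ((Lp.memLp f).mono_exponent le_top)

/-- The `p`-integral norm of `T : Y → X` for `1 < p < ∞`: the infimum of `‖A‖ ‖B‖` over all
factorisations of `j_X T` as `Y → L_∞(μ) → L_p(μ) → X**` with `A : Y → L_∞(μ)`, the formal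
inclusion, and `B : L_p(μ) → X**`, where `μ` is a probability measure. -/
noncomputable def iNorm (p : ℝ) [Fact (1 ≤ ENNReal.ofReal p)] {Y X : Type}
    [NormedAddCommGroup Y] [NormedSpace ℝ Y]
    [NormedAddCommGroup X] [NormedSpace ℝ X] (T : Y →L[ℝ] X) : ℝ≥0∞ :=
  ⨅ (Ω : Type) (_ : MeasurableSpace Ω) (μ : Measure Ω) (_ : IsProbabilityMeasure μ)
    (A : Y →L[ℝ] Lp ℝ ∞ μ) (B : Lp ℝ (ENNReal.ofReal p) μ →L[ℝ] ((X →L[ℝ] ℝ) →L[ℝ] ℝ))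
    (_ : ∀ (y : Y) (f : X →L[ℝ] ℝ), f (T y) = B (incl μ (ENNReal.ofReal p) (A y)) f),
    ENNReal.ofReal (‖A‖ * ‖B‖)

/-- `T` has finite rank. -/
def FiniteRank {Y X : Type} [NormedAddCommGroup Y] [NormedSpace ℝ Y]
    [NormedAddCommGroup X] [NormedSpace ℝ X] (T : Y →L[ℝ] X) : Prop :=
  FiniteDimensional ℝ (LinearMap.range (T : Y →ₗ[ℝ] X))

end Pool.Agent.BAPp
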