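import Mathlib

open MeasureTheory
open scoped ENNReal NNReal

set_option maxSynthPendingDepth 3

namespace Pool.Agent.BAPp.Stmt

/-- The weak `ℓ_q` norm `sup_{‖f‖ ≤ 1} (∑ |f(x_k)|^q)^{1/q}` of a finite family in `X`. -/
noncomputable def weakNorm (q : ℝ) {X : Type} [NormedAddCommGroup X] [NormedSpace ℝ X]
    {n : ℕ} (x : Fin n → X) : ℝ≥0∞ :=
  ⨆ (f : X →L[ℝ] ℝ) (_ : ‖f‖ ≤ 1), ENNReal.ofReal ((∑ k, |f (x k)| ^ q) ^ (1 / q))

/-- The Chevet–Saphar norm `g_p` of a finite rank operator `T : Y → X`: the infimum of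
`(∑ ‖y_k*‖^p)^{1/p} · ‖(x_k)‖^w_{p*}` over all representations `T = ∑ y_k* ⊗ x_k`. Here
`p* = p / (p - 1)` and `1 < p < ∞`. -/
noncomputable def gNorm (p : ℝ) {Y X : Type} [NormedAddCommGroup Y] [NormedSpace ℝ Y]
    [NormedAddCommGroup X] [NormedSpace ℝ X] (T : Y →L[ℝ] X) : ℝ≥0∞ :=
  ⨅ (n : ℕ) (ys : Fin n → (Y →L[ℝ] ℝ)) (xs : Fin n → X) (_ : ∀ y, T y = ∑ k, ys k y • xs k),
    ENNReal.ofReal ((∑ k, ‖ys k‖ ^ p) ^ (1 / p)) * weakNorm (p / (p - 1)) xs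

/-- The real Banach space `L_p(μ)`. -/
def LpR {Ω : Type} [MeasurableSpace Ω] (μ : Measure Ω) (p : ℝ≥0∞) : Type := Lp ℝ p μ

noncomputable instance instLpRGroup {Ω : Type} [MeasurableSpace Ω] (μ : Measure Ω) (p : ℝ≥0∞)
    [Fact (1 ≤ p)] : NormedAddCommGroup (LpR μ p) :=
  (Lp.instNormedAddCommGroup : NormedAddCommGroup (Lp ℝ p μ))

noncomputable instance instLpRSpace {Ω : Type} [MeasurableSpace Ω] (μ : Measure Ω) (p : ℝ≥0∞)
    [Fact (1 ≤ p)] : NormedSpace ℝ (LpR μ p) :=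
  (Lp.instNormedSpace : NormedSpace ℝ (Lp ℝ p μ))

/-- The formal inclusion of `L_∞(μ)` in `L_p(μ)` for a finite measure `μ`. -/
noncomputable def inclR {Ω : Type} [MeasurableSpace Ω] (μ : Measure Ω) [IsFiniteMeasure μ]
    (p : ℝ≥0∞) (f : LpR μ ∞) : LpR μ p :=
  let g : Lp ℝ ∞ μ := f
  (MemLp.toLp g ((Lp.memLp g).mono_exponent le_top) : Lp ℝ p μ)

/-- Bounded linear operators `E → F` between real normed spaces. -/
def Op (E F : Type) [NormedAddCommGroup E] [NormedSpace ℝ E] [NormedAddCommGroup F]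
    [NormedSpace ℝ F] : Type := E →L[ℝ] F

noncomputable instance instOpGroup (E F : Type) [NormedAddCommGroup E] [NormedSpace ℝ E]
    [NormedAddCommGroup F] [NormedSpace ℝ F] : NormedAddCommGroup (Op E F) :=
  (ContinuousLinearMap.toNormedAddCommGroup : NormedAddCommGroup (E →L[ℝ] F))

noncomputable instance instOpSpace (E F : Type) [NormedAddCommGroup E] [NormedSpace ℝ E]
    [NormedAddCommGroup F] [NormedSpace ℝ F] : NormedSpace ℝ (Op E F) :=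
  (ContinuousLinearMap.toNormedSpace : NormedSpace ℝ (E →L[ℝ] F))

/-- The value of a bounded operator at a vector. -/
def ev {E F : Type} [NormedAddCommGroup E] [NormedSpace ℝ E] [NormedAddCommGroup F]
    [NormedSpace ℝ F] (A : Op E F) (x : E) : F :=
  let g : E →L[ℝ] F := A
  g x

/-- `A : Y → L_∞(μ)` and `B : L_p(μ) → X**` factor `j_X T` through the formal inclusion
`L_∞(μ) → L_p(μ)`, where `j_X : X → X**` is the canonical map: `φ (T y) = (B (A y)) φ` for all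
`y ∈ Y` and `φ ∈ X*`. -/
def Factors (p : ℝ≥0∞) [Fact (1 ≤ p)] {Y X Ω : Type} [NormedAddCommGroup Y] [NormedSpace ℝ Y]
    [NormedAddCommGroup X] [NormedSpace ℝ X] [MeasurableSpace Ω] (μ : Measure Ω)
    [IsFiniteMeasure μ] (T : Op Y X) (A : Op Y (LpR μ ∞)) (B : Op (LpR μ p) (Op (Op X ℝ) ℝ)) :
    Prop :=
  ∀ (y : Y) (φ : Op X ℝ), ev φ (ev T y) = ev (ev B (inclR μ p (ev A y))) φ

/-- The `p`-integral norm of `T : Y → X` for `1 < p < ∞`: the infimum of `‖A‖ ‖B‖` over all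
factorisations of `j_X T` as `Y → L_∞(μ) → L_p(μ) → X**` with `A : Y → L_∞(μ)`, the formal
inclusion, and `B : L_p(μ) → X**`, where `μ` is a probability measure. -/
noncomputable def iNorm (p : ℝ≥0∞) [Fact (1 ≤ p)] {Y X : Type} [NormedAddCommGroup Y]
    [NormedSpace ℝ Y] [NormedAddCommGroup X] [NormedSpace ℝ X] (T : Y →L[ℝ] X) : ℝ≥0∞ :=
  sInf {c | ∃ (Ω : Type) (_ : MeasurableSpace Ω) (μ : Measure Ω) (_ : IsProbabilityMeasure μ)
    (A : Op Y (LpR μ ∞)) (B : Op (LpR μ p) (Op (Op X ℝ) ℝ)),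
    Factors p μ T A B ∧ c = ENNReal.ofReal (‖A‖ * ‖B‖)}

/-- `T` has finite rank. -/
def FiniteRank {Y X : Type} [NormedAddCommGroup Y] [NormedSpace ℝ Y]
    [NormedAddCommGroup X] [NormedSpace ℝ X] (T : Y →L[ℝ] X) : Prop :=
  FiniteDimensional ℝ (LinearMap.range (T : Y →ₗ[ℝ] X))

end Pool.Agent.BAPp.Stmt
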