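import Mathlib
import Pool.Agent.BAPp.Defs
import Pool.Agent.BAPp.Stmt

open MeasureTheory
open scoped ENNReal NNReal

set_option maxSynthPendingDepth 3

namespace Pool.Agent.BAPp.Bridge

theorem gNorm_eq (p : ℝ) {Y X : Type} [NormedAddCommGroup Y] [NormedSpace ℝ Y]
    [NormedAddCommGroup X] [NormedSpace ℝ X] (T : Y →L[ℝ] X) :
    Stmt.gNorm p T = gNorm p T := rfl

theorem finiteRank_iff {Y X : Type} [NormedAddCommGroup Y] [NormedSpace ℝ Y]
    [NormedAddCommGroup X] [NormedSpace ℝ X] (T : Y →L[ℝ] X) :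
    Stmt.FiniteRank T ↔ FiniteRank T := Iff.rfl

theorem iNorm_eq (p : ℝ) [Fact (1 ≤ ENNReal.ofReal p)] {Y X : Type} [NormedAddCommGroup Y]
    [NormedSpace ℝ Y] [NormedAddCommGroup X] [NormedSpace ℝ X] (T : Y →L[ℝ] X) :
    Stmt.iNorm (ENNReal.ofReal p) T = iNorm p T := by
  apply le_antisymm
  · unfold iNorm
    refine le_iInf fun Ω => le_iInf fun mΩ => le_iInf fun μ => le_iInf fun hμ => le_iInf fun A =>
      le_iInf fun B => le_iInf fun h => ?_
    exact sInf_le ⟨Ω, mΩ, μ, hμ, A, B, h, rfl⟩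
  · unfold Stmt.iNorm
    refine le_sInf ?_
    rintro c ⟨Ω, mΩ, μ, hμ, A, B, h, rfl⟩
    unfold iNorm
    exact iInf_le_of_le Ω (iInf_le_of_le mΩ (iInf_le_of_le μ (iInf_le_of_le hμ
      (iInf_le_of_le A (iInf_le_of_le B (iInf_le_of_le h le_rfl))))))

end Pool.Agent.BAPp.Bridge
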