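import Mathlib


open scoped ENNReal NNReal

set_option maxSynthPendingDepth 3

namespace Pool.Agent.BAPp.Diag

/-- diagonal operators `ℓ_q → ℓ_p` with diagonal in `ℓ_p` -/
theorem exists_diag {Γ : Type} (p q : ℝ) (hpq : p.HolderConjugate q)
    [Fact (1 ≤ ENNReal.ofReal p)] [Fact (1 ≤ ENNReal.ofReal q)]
    (d : Γ → ℝ) (hd : Summable (fun g => |d g| ^ p)) :
    ∃ D : lp (fun _ : Γ => ℝ) (ENNReal.ofReal q) →L[ℝ] lp (fun _ : Γ => ℝ) (ENNReal.ofReal p),
      ∀ y g, (D y : Γ → ℝ) g = d g * (y : Γ → ℝ) g := by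
  have hp0 : 0 < p := hpq.pos
  have hq0 : 0 < q := hpq.symm.pos
  have hpr : (ENNReal.ofReal p).toReal = p := ENNReal.toReal_ofReal hp0.le
  have hqn : ENNReal.ofReal q ≠ 0 := (ENNReal.ofReal_pos.2 hq0).ne'
  have hterm : ∀ (y : lp (fun _ : Γ => ℝ) (ENNReal.ofReal q)) (g : Γ),
      ‖d g * (y : Γ → ℝ) g‖ ^ p ≤ |d g| ^ p * ‖y‖ ^ p := by
    intro y g
    rw [norm_mul, Real.mul_rpow (norm_nonneg _) (norm_nonneg _), Real.norm_eq_abs]
    have h1 : ‖(y : Γ → ℝ) g‖ ≤ ‖y‖ := lp.norm_apply_le_norm hqn y g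
    have h2 : ‖(y : Γ → ℝ) g‖ ^ p ≤ ‖y‖ ^ p := Real.rpow_le_rpow (norm_nonneg _) h1 hp0.le
    exact mul_le_mul_of_nonneg_left h2 (Real.rpow_nonneg (abs_nonneg _) _)
  have hsum : ∀ y : lp (fun _ : Γ => ℝ) (ENNReal.ofReal q),
      Summable fun g => ‖d g * (y : Γ → ℝ) g‖ ^ p := fun y =>
    Summable.of_nonneg_of_le (fun g => Real.rpow_nonneg (norm_nonneg _) _) (hterm y)
      (hd.mul_right _)
  have hmem : ∀ y : lp (fun _ : Γ => ℝ) (ENNReal.ofReal q),
      Memℓp (fun g => d g * (y : Γ → ℝ) g) (ENNReal.ofReal p) := by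
    intro y
    refine memℓp_gen ?_
    rw [hpr]
    exact hsum y
  let L : lp (fun _ : Γ => ℝ) (ENNReal.ofReal q) →ₗ[ℝ] lp (fun _ : Γ => ℝ) (ENNReal.ofReal p) :=
    { toFun := fun y => ⟨fun g => d g * (y : Γ → ℝ) g, hmem y⟩
      map_add' := by
        intro x y
        apply Subtype.ext
        funext g
        show d g * ((x + y : lp (fun _ : Γ => ℝ) (ENNReal.ofReal q)) : Γ → ℝ) g =
          d g * (x : Γ → ℝ) g + d g * (y : Γ → ℝ) g
        rw [lp.coeFn_add, Pi.add_apply, mul_add]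
      map_smul' := by
        intro c y
        apply Subtype.ext
        funext g
        show d g * ((c • y : lp (fun _ : Γ => ℝ) (ENNReal.ofReal q)) : Γ → ℝ) g =
          c * (d g * (y : Γ → ℝ) g)
        rw [lp.coeFn_smul, Pi.smul_apply, smul_eq_mul]
        ring }
  have hL : ∀ y, ‖L y‖ ≤ (∑' g, |d g| ^ p) ^ (1 / p) * ‖y‖ := by
    intro y
    have hC : 0 ≤ ∑' g, |d g| ^ p := tsum_nonneg fun g => Real.rpow_nonneg (abs_nonneg _) _
    rw [← Real.rpow_le_rpow_iff (norm_nonneg _)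
      (mul_nonneg (Real.rpow_nonneg hC _) (norm_nonneg _)) hp0,
      Real.mul_rpow (Real.rpow_nonneg hC _) (norm_nonneg _), ← Real.rpow_mul hC,
      one_div_mul_cancel hp0.ne', Real.rpow_one]
    have h1 := lp.norm_rpow_eq_tsum (p := ENNReal.ofReal p) (by rw [hpr]; exact hp0) (L y)
    rw [hpr] at h1
    rw [h1, ← tsum_mul_right]
    exact Summable.tsum_le_tsum (hterm y) (hsum y) (hd.mul_right _)
  exact ⟨L.mkContinuous _ hL, fun y g => rfl⟩

end Pool.Agent.BAPp.Diag
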