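import Mathlib

namespace Pool.Agent.BAPp

/-- the sign attached to a boolean -/
def sgn (b : Bool) : ℝ := if b then 1 else -1

end Pool.Agent.BAPp
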