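import Mathlib
import Pool.Agent.BAPp.Sgn

open Finset

namespace Pool.Agent.BAPp.ExSigns

lemma sgn_sq (b : Bool) : sgn b * sgn b = 1 := by
  cases b <;> simp [sgn]

lemma abs_sgn (b : Bool) : |sgn b| = 1 := by
  cases b <;> simp [sgn]

/-- exponential moment of a sign sum -/
lemma sum_exp_le {ι : Type*} [Fintype ι] [DecidableEq ι] (a : ι → ℝ) :
    ∑ e : ι → Bool, Real.exp (∑ i, sgn (e i) * a i)
      ≤ 2 ^ (Fintype.card ι) * Real.exp ((∑ i, a i ^ 2) / 2) := by
  have h1 : ∑ e : ι → Bool, Real.exp (∑ i, sgn (e i) * a i)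
      = ∏ i, ∑ b : Bool, Real.exp (sgn b * a i) := by
    rw [Finset.prod_univ_sum]
    simp only [Fintype.piFinset_univ]
    refine Finset.sum_congr rfl fun e _ => ?_
    rw [Real.exp_sum]
  rw [h1]
  have h2 : ∀ i, ∑ b : Bool, Real.exp (sgn b * a i) ≤ 2 * Real.exp (a i ^ 2 / 2) := by
    intro i
    have h := Real.cosh_le_exp_half_sq (a i)
    rw [Real.cosh_eq] at h
    simp only [Fintype.sum_bool, sgn]
    simp
    linarith
  calc ∏ i, ∑ b : Bool, Real.exp (sgn b * a i) ≤ ∏ i, (2 * Real.exp (a i ^ 2 / 2)) :=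
        Finset.prod_le_prod (fun i _ => Finset.sum_nonneg fun b _ => (Real.exp_pos _).le)
          (fun i _ => h2 i)
    _ = 2 ^ (Fintype.card ι) * Real.exp ((∑ i, a i ^ 2) / 2) := by
        rw [Finset.prod_mul_distrib, ← Real.exp_sum, Finset.sum_div]
        simp

/-- existence of signs making finitely many sign sums small -/
lemma exists_signs {ι H : Type*} [Fintype ι] [Nonempty ι] [DecidableEq ι] [Fintype H]
    (c : H → ι → ℝ) (M : ℝ) (hM : ∀ h i, |c h i| ≤ M) :
    ∃ e : ι → Bool, ∀ h, |∑ i, sgn (e i) * c h i|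
      ≤ Real.sqrt (Fintype.card ι) * (Real.log (2 * Fintype.card H) + M ^ 2 / 2) := by
  rcases isEmpty_or_nonempty H with hH | hH
  · exact ⟨fun _ => true, fun h => hH.elim h⟩
  set n : ℝ := (Fintype.card ι : ℝ) with hn
  have hn0 : 0 < n := by rw [hn]; exact_mod_cast Fintype.card_pos
  have hs0 : 0 < Real.sqrt n := Real.sqrt_pos.2 hn0
  set t : ℝ := 1 / Real.sqrt n with ht
  have ht0 : 0 < t := by positivity
  have ht2 : t ^ 2 * n = 1 := by
    rw [ht, div_pow, one_pow, Real.sq_sqrt hn0.le]; field_simp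
  have hcard : (0 : ℝ) < Fintype.card H := by exact_mod_cast Fintype.card_pos
  have hsq : ∀ h, ∑ i, (c h i) ^ 2 ≤ n * M ^ 2 := by
    intro h
    calc ∑ i, (c h i) ^ 2 ≤ ∑ i : ι, M ^ 2 := by
          refine Finset.sum_le_sum fun i _ => ?_
          rw [← sq_abs]
          exact pow_le_pow_left₀ (abs_nonneg _) (hM h i) 2
      _ = n * M ^ 2 := by simp [hn]
  have hmom : ∀ h, ∀ r : ℝ, r ^ 2 = t ^ 2 →
      ∑ e : ι → Bool, Real.exp (r * ∑ i, sgn (e i) * c h i) ≤
        2 ^ (Fintype.card ι) * Real.exp (M ^ 2 / 2) := by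
    intro h r hr
    have h1 := sum_exp_le (fun i => r * c h i)
    have h2 : ∀ e : ι → Bool, ∑ i, sgn (e i) * (r * c h i) = r * ∑ i, sgn (e i) * c h i := by
      intro e
      rw [Finset.mul_sum]
      exact Finset.sum_congr rfl fun i _ => by ring
    simp only [h2] at h1
    refine h1.trans ?_
    have h3 : ∑ i, (r * c h i) ^ 2 ≤ M ^ 2 := by
      have : ∑ i, (r * c h i) ^ 2 = t ^ 2 * ∑ i, (c h i) ^ 2 := by
        rw [Finset.mul_sum]
        exact Finset.sum_congr rfl fun i _ => by rw [mul_pow, hr]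
      rw [this]
      calc t ^ 2 * ∑ i, (c h i) ^ 2 ≤ t ^ 2 * (n * M ^ 2) := by
            gcongr; exact hsq h
        _ = (t ^ 2 * n) * M ^ 2 := by ring
        _ = M ^ 2 := by rw [ht2, one_mul]
    gcongr
  have htot : ∑ e : ι → Bool, ∑ h, (Real.exp (t * ∑ i, sgn (e i) * c h i) +
      Real.exp (-t * ∑ i, sgn (e i) * c h i)) ≤
      ∑ e : ι → Bool, (2 * Fintype.card H * Real.exp (M ^ 2 / 2)) := by
    rw [Finset.sum_comm]
    calc ∑ h, ∑ e : ι → Bool, (Real.exp (t * ∑ i, sgn (e i) * c h i) +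
          Real.exp (-t * ∑ i, sgn (e i) * c h i))
        ≤ ∑ h : H, (2 ^ (Fintype.card ι) * Real.exp (M ^ 2 / 2) +
            2 ^ (Fintype.card ι) * Real.exp (M ^ 2 / 2)) := by
          refine Finset.sum_le_sum fun h _ => ?_
          rw [Finset.sum_add_distrib]
          exact add_le_add (hmom h t rfl) (hmom h (-t) (by ring))
      _ = ∑ e : ι → Bool, (2 * Fintype.card H * Real.exp (M ^ 2 / 2)) := by
          rw [Finset.sum_const, Finset.sum_const, Finset.card_univ, Finset.card_univ]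
          simp only [nsmul_eq_mul, Fintype.card_fun, Fintype.card_bool]
          push_cast
          ring
  obtain ⟨e, -, he⟩ := Finset.exists_le_of_sum_le Finset.univ_nonempty htot
  refine ⟨e, fun h => ?_⟩
  set Sh : ℝ := ∑ i, sgn (e i) * c h i with hSh
  have h1 : Real.exp (t * Sh) + Real.exp (-t * Sh) ≤
      2 * Fintype.card H * Real.exp (M ^ 2 / 2) := by
    refine le_trans ?_ he
    exact Finset.single_le_sum (f := fun h => Real.exp (t * ∑ i, sgn (e i) * c h i) +
      Real.exp (-t * ∑ i, sgn (e i) * c h i)) (fun h _ => by positivity) (Finset.mem_univ h)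
  have h2 : Real.exp (t * |Sh|) ≤ 2 * Fintype.card H * Real.exp (M ^ 2 / 2) := by
    rcases abs_cases Sh with ⟨h3, _⟩ | ⟨h3, _⟩
    · rw [h3]
      have := Real.exp_pos (-t * Sh)
      linarith
    · rw [h3]
      have := Real.exp_pos (t * Sh)
      have e1 : t * -Sh = -t * Sh := by ring
      rw [e1]
      linarith
  have h3 : t * |Sh| ≤ Real.log (2 * Fintype.card H) + M ^ 2 / 2 := by
    have h4 := Real.log_le_log (Real.exp_pos _) h2
    rw [Real.log_exp, Real.log_mul (by positivity) (Real.exp_pos _).ne', Real.log_exp] at h4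
    exact h4
  calc |Sh| = Real.sqrt n * (t * |Sh|) := by rw [ht]; field_simp
    _ ≤ Real.sqrt n * (Real.log (2 * Fintype.card H) + M ^ 2 / 2) := by gcongr

end Pool.Agent.BAPp.ExSigns
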