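import Mathlib


open scoped ENNReal NNReal

set_option maxSynthPendingDepth 3

namespace Pool.Agent.BAPp.ExU

theorem liftQ_bound {A E : Type*} [NormedAddCommGroup A] [NormedSpace ℝ A] [NormedAddCommGroup E]
    [NormedSpace ℝ E] (T : A →ₗ[ℝ] E) (N : Submodule ℝ A) (hle : N ≤ LinearMap.ker T) (C : ℝ)
    (hC : 0 ≤ C) (hT : ∀ a, ‖T a‖ ≤ C * ‖a‖) (x : A ⧸ N) : ‖N.liftQ T hle x‖ ≤ C * ‖x‖ := by
  apply le_of_forall_pos_le_add
  intro ε hε
  have hpos : 0 < ε / (C + 1) := by positivity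
  obtain ⟨a, ha, hlt⟩ := Submodule.Quotient.norm_mk_lt x hpos
  rw [← ha, Submodule.liftQ_apply, ha]
  have h1 : C * ‖a‖ ≤ C * (‖x‖ + ε / (C + 1)) := mul_le_mul_of_nonneg_left hlt.le hC
  have h2 : C * (ε / (C + 1)) ≤ ε := by
    rw [mul_div_assoc', div_le_iff₀ (by positivity)]
    nlinarith
  have h3 := hT a
  nlinarith

/-- the weighted coordinate functional -/
noncomputable def coord {Γ A : Type} [NormedAddCommGroup A] [NormedSpace ℝ A] {q : ℝ≥0∞}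
    (W : A →ₗ[ℝ] lp (fun _ : Γ => ℝ) q) (c : ℝ) (h : Γ) : A →ₗ[ℝ] ℝ where
  toFun a := c * (W a : Γ → ℝ) h
  map_add' a b := by
    rw [map_add, lp.coeFn_add, Pi.add_apply, mul_add]
  map_smul' r a := by
    rw [map_smul, lp.coeFn_smul, Pi.smul_apply, smul_eq_mul, smul_eq_mul, RingHom.id_apply]
    ring

/-- The operator induced on the quotient by the kernel, with its coordinate functionals. -/
theorem exists_u {Γ : Type} (p q : ℝ) (hpq : p.HolderConjugate q)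
    [Fact (1 ≤ ENNReal.ofReal p)] [Fact (1 ≤ ENNReal.ofReal q)]
    (ρ : Γ → ℝ) (hρ0 : ∀ g, 0 ≤ ρ g) (M : ℝ) (hM : 0 < M)
    (W : lp (fun _ : Γ => ℝ) (ENNReal.ofReal p) →L[ℝ] lp (fun _ : Γ => ℝ) (ENNReal.ofReal q))
    (hW : ∀ a h, |(W a : Γ → ℝ) h| ≤ (ρ h) ^ (1 / q) * (M * ‖a‖))
    (Y0 : Submodule ℝ (lp (fun _ : Γ => ℝ) (ENNReal.ofReal q))) (hY : ∀ a, W a ∈ Y0)
    (N : Submodule ℝ (lp (fun _ : Γ => ℝ) (ENNReal.ofReal p)))
    (hNW : N = LinearMap.ker (W : lp (fun _ : Γ => ℝ) (ENNReal.ofReal p) →ₗ[ℝ]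
      lp (fun _ : Γ => ℝ) (ENNReal.ofReal q)))
    [hN : IsClosed (N : Set (lp (fun _ : Γ => ℝ) (ENNReal.ofReal p)))] :
    ∃ (u : (lp (fun _ : Γ => ℝ) (ENNReal.ofReal p) ⧸ N) →L[ℝ] Y0)
      (fh : Γ → ((lp (fun _ : Γ => ℝ) (ENNReal.ofReal p) ⧸ N) →L[ℝ] ℝ)),
      (∀ a, (u (N.mkQ a) : lp (fun _ : Γ => ℝ) (ENNReal.ofReal q)) = W a) ∧
      Function.Injective u ∧ (∀ h, ‖fh h‖ ≤ M) ∧
      ∀ x, ‖u x‖ ^ q ≤ ∑' h, ρ h * |fh h x| ^ q := by
  have hq : 0 < q := hpq.symm.pos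
  -- weights
  set c : Γ → ℝ := fun h => (ρ h) ^ (-(1 / q)) with hc
  have hbound : ∀ a h, ‖coord (W : lp (fun _ : Γ => ℝ) (ENNReal.ofReal p) →ₗ[ℝ]
      lp (fun _ : Γ => ℝ) (ENNReal.ofReal q)) (c h) h a‖ ≤ M * ‖a‖ := by
    intro a h
    show ‖c h * (W a : Γ → ℝ) h‖ ≤ M * ‖a‖
    rcases (hρ0 h).lt_or_eq with h0 | h0
    · rw [Real.norm_eq_abs, abs_mul, abs_of_nonneg (Real.rpow_nonneg (hρ0 h) _)]
      calc c h * |(W a : Γ → ℝ) h| ≤ c h * ((ρ h) ^ (1 / q) * (M * ‖a‖)) :=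
            mul_le_mul_of_nonneg_left (hW a h) (Real.rpow_nonneg (hρ0 h) _)
        _ = (c h * (ρ h) ^ (1 / q)) * (M * ‖a‖) := by ring
        _ = M * ‖a‖ := by
          rw [hc]
          simp only
          rw [← Real.rpow_add h0, neg_add_cancel, Real.rpow_zero, one_mul]
    · have h1 : c h = 0 := by
        rw [hc]
        simp only
        rw [← h0, Real.zero_rpow]
        exact neg_ne_zero.mpr (one_div_ne_zero hq.ne')
      rw [h1, zero_mul, norm_zero]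
      positivity
  have hker : N ≤ LinearMap.ker (LinearMap.codRestrict Y0 (W : lp (fun _ : Γ => ℝ)
      (ENNReal.ofReal p) →ₗ[ℝ] lp (fun _ : Γ => ℝ) (ENNReal.ofReal q)) hY) := by
    intro a ha
    rw [hNW, LinearMap.mem_ker] at ha
    rw [LinearMap.mem_ker]
    exact Subtype.ext ha
  have hkerc : ∀ h, N ≤ LinearMap.ker (coord (W : lp (fun _ : Γ => ℝ)
      (ENNReal.ofReal p) →ₗ[ℝ] lp (fun _ : Γ => ℝ) (ENNReal.ofReal q)) (c h) h) := by
    intro h a ha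
    rw [hNW, LinearMap.mem_ker] at ha
    rw [LinearMap.mem_ker]
    show c h * (W a : Γ → ℝ) h = 0
    have ha' : W a = 0 := ha
    rw [ha']
    simp
  let u : (lp (fun _ : Γ => ℝ) (ENNReal.ofReal p) ⧸ N) →L[ℝ] Y0 :=
    LinearMap.mkContinuous (N.liftQ _ hker) ‖W‖
      (liftQ_bound _ N hker ‖W‖ (norm_nonneg _) (fun a => W.le_opNorm a))
  let fh : Γ → ((lp (fun _ : Γ => ℝ) (ENNReal.ofReal p) ⧸ N) →L[ℝ] ℝ) := fun h =>
    LinearMap.mkContinuous (N.liftQ _ (hkerc h)) M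
      (liftQ_bound _ N (hkerc h) M hM.le (fun a => hbound a h))
  have hu : ∀ a, (u (N.mkQ a) : lp (fun _ : Γ => ℝ) (ENNReal.ofReal q)) = W a := fun a => rfl
  have hfh : ∀ h a, fh h (N.mkQ a) = c h * (W a : Γ → ℝ) h := fun h a => rfl
  refine ⟨u, fh, hu, ?_, ?_, ?_⟩
  · intro x y hxy
    obtain ⟨a, rfl⟩ := N.mkQ_surjective x
    obtain ⟨b, rfl⟩ := N.mkQ_surjective y
    have h1 : W a = W b := by rw [← hu, ← hu, hxy]
    rw [← sub_eq_zero, ← map_sub, Submodule.mkQ_apply, Submodule.Quotient.mk_eq_zero, hNW,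
      LinearMap.mem_ker, map_sub]
    exact sub_eq_zero.mpr h1
  · intro h
    exact LinearMap.mkContinuous_norm_le _ hM.le _
  · intro x
    obtain ⟨a, rfl⟩ := N.mkQ_surjective x
    have h1 : ‖u (N.mkQ a)‖ = ‖W a‖ := by
      rw [← hu a]
      rfl
    have hqr : (ENNReal.ofReal q).toReal = q := ENNReal.toReal_ofReal hq.le
    have h2 := lp.norm_rpow_eq_tsum (p := ENNReal.ofReal q) (by rw [hqr]; exact hq) (W a)
    rw [hqr] at h2
    rw [h1, h2]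
    apply le_of_eq
    apply tsum_congr
    intro h
    rw [hfh, Real.norm_eq_abs]
    rcases (hρ0 h).lt_or_eq with h0 | h0
    · rw [abs_mul, abs_of_nonneg (Real.rpow_nonneg (hρ0 h) _),
        Real.mul_rpow (Real.rpow_nonneg (hρ0 h) _) (abs_nonneg _), ← mul_assoc]
      have h3 : ρ h * c h ^ q = 1 := by
        rw [hc]
        simp only
        rw [← Real.rpow_mul (hρ0 h)]
        have : -(1 / q) * q = -1 := by field_simp
        rw [this, Real.rpow_neg_one, mul_inv_cancel₀ h0.ne']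
      rw [h3, one_mul]
    · have h4 := hW a h
      rw [← h0, Real.zero_rpow (one_div_ne_zero hq.ne'), zero_mul] at h4
      have h5 : (W a : Γ → ℝ) h = 0 := abs_nonpos_iff.mp h4
      rw [h5, ← h0, abs_zero, Real.zero_rpow hq.ne', zero_mul]

end Pool.Agent.BAPp.ExU
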