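import Mathlib


open scoped ENNReal NNReal

set_option maxSynthPendingDepth 3

namespace Pool.Agent.BAPp.ExW

theorem partial_aux {Γ : Type} (p q : ℝ) (hpq : p.HolderConjugate q)
    [Fact (1 ≤ ENNReal.ofReal p)]
    (w : Γ → ℝ) (M : ℝ) (hM : 0 ≤ M) (hw : ∀ (F : Finset Γ), ∑ g ∈ F, |w g| ^ q ≤ M ^ q)
    (a : lp (fun _ : Γ => ℝ) (ENNReal.ofReal p)) (F : Finset Γ) :
    ∑ g ∈ F, |a g * w g| ≤ ‖a‖ * M := by
  have hp0 : 0 < p := hpq.pos
  have hq0 : 0 < q := hpq.symm.pos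
  have hp1 : (ENNReal.ofReal p).toReal = p := ENNReal.toReal_ofReal hp0.le
  have h1 : ∑ g ∈ F, |a g * w g| = ∑ g ∈ F, |a g| * |w g| :=
    Finset.sum_congr rfl fun g _ => abs_mul _ _
  rw [h1]
  refine (Real.inner_le_Lp_mul_Lq F (fun g => |a g|) (fun g => |w g|) hpq).trans ?_
  have h2 : ∑ g ∈ F, |(|a g|)| ^ p ≤ ‖a‖ ^ p := by
    have := lp.sum_rpow_le_norm_rpow (p := ENNReal.ofReal p) (by rw [hp1]; exact hp0) a F
    rw [hp1] at this
    refine le_trans (le_of_eq ?_) this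
    apply Finset.sum_congr rfl
    intro g _
    rw [abs_abs, Real.norm_eq_abs]
  have h3 : ∑ g ∈ F, |(|w g|)| ^ q ≤ M ^ q := by
    refine le_trans (le_of_eq ?_) (hw F)
    apply Finset.sum_congr rfl
    intro g _
    rw [abs_abs]
  have h4 : (∑ g ∈ F, |(|a g|)| ^ p) ^ (1 / p) ≤ ‖a‖ := by
    refine (Real.rpow_le_rpow (Finset.sum_nonneg fun g _ => by positivity) h2
      (by positivity)).trans (le_of_eq ?_)
    rw [← Real.rpow_mul (norm_nonneg _), mul_one_div_cancel hp0.ne', Real.rpow_one]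
  have h5 : (∑ g ∈ F, |(|w g|)| ^ q) ^ (1 / q) ≤ M := by
    refine (Real.rpow_le_rpow (Finset.sum_nonneg fun g _ => by positivity) h3
      (by positivity)).trans (le_of_eq ?_)
    rw [← Real.rpow_mul hM, mul_one_div_cancel hq0.ne', Real.rpow_one]
  exact mul_le_mul h4 h5 (by positivity) (norm_nonneg _)

/-- The operator `W : ℓ_p → ℓ_q`, `(W a)(h) = ρ_h^{1/q} ∑_g a_g w_g(h)`. -/
theorem exists_W {Γ : Type} [DecidableEq Γ] (p q : ℝ) (hpq : p.HolderConjugate q)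
    [Fact (1 ≤ ENNReal.ofReal p)] [Fact (1 ≤ ENNReal.ofReal q)]
    (ρ : Γ → ℝ) (hρ0 : ∀ g, 0 ≤ ρ g) (hρ : Summable ρ) (w : Γ → Γ → ℝ) (M : ℝ) (hM : 0 ≤ M)
    (hw : ∀ (h : Γ) (F : Finset Γ), ∑ g ∈ F, |w g h| ^ q ≤ M ^ q) :
    ∃ W : lp (fun _ : Γ => ℝ) (ENNReal.ofReal p) →L[ℝ] lp (fun _ : Γ => ℝ) (ENNReal.ofReal q),
      (∀ g h, (W (lp.single (ENNReal.ofReal p) g (1:ℝ)) : Γ → ℝ) h = (ρ h) ^ (1 / q) * w g h) ∧
      ∀ a h, |(W a : Γ → ℝ) h| ≤ (ρ h) ^ (1 / q) * (M * ‖a‖) := by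
  have hp0 : 0 < p := hpq.pos
  have hq0 : 0 < q := hpq.symm.pos
  have hq1 : (ENNReal.ofReal q).toReal = q := ENNReal.toReal_ofReal hq0.le
  have hpart := fun (a : lp (fun _ : Γ => ℝ) (ENNReal.ofReal p)) (h : Γ) (F : Finset Γ) =>
    partial_aux p q hpq (fun g => w g h) M hM (hw h) a F
  have hsabs : ∀ (a : lp (fun _ : Γ => ℝ) (ENNReal.ofReal p)) (h : Γ),
      Summable fun g => |a g * w g h| := fun a h =>
    summable_of_sum_le (fun g => abs_nonneg _) (hpart a h)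
  have hs : ∀ (a : lp (fun _ : Γ => ℝ) (ENNReal.ofReal p)) (h : Γ),
      Summable fun g => a g * w g h := fun a h => (hsabs a h).of_abs
  have hbound : ∀ (a : lp (fun _ : Γ => ℝ) (ENNReal.ofReal p)) (h : Γ),
      |∑' g, a g * w g h| ≤ M * ‖a‖ := by
    intro a h
    have h1 : |∑' g, a g * w g h| ≤ ∑' g, |a g * w g h| := by
      have := norm_tsum_le_tsum_norm (f := fun g => a g * w g h) (hsabs a h)
      simpa [Real.norm_eq_abs] using this
    refine h1.trans ?_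
    rw [mul_comm]
    exact (hsabs a h).tsum_le_of_sum_le (hpart a h)
  set b : lp (fun _ : Γ => ℝ) (ENNReal.ofReal p) → Γ → ℝ :=
    fun a h => (ρ h) ^ (1 / q) * ∑' g, a g * w g h with hb
  have hbb : ∀ a h, |b a h| ≤ (ρ h) ^ (1 / q) * (M * ‖a‖) := by
    intro a h
    rw [hb]
    show |(ρ h) ^ (1 / q) * ∑' g, a g * w g h| ≤ _
    rw [abs_mul, abs_of_nonneg (Real.rpow_nonneg (hρ0 h) _)]
    exact mul_le_mul_of_nonneg_left (hbound a h) (Real.rpow_nonneg (hρ0 h) _)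
  have hbq : ∀ a h, ‖b a h‖ ^ q ≤ ρ h * (M * ‖a‖) ^ q := by
    intro a h
    have h0 : 0 ≤ M * ‖a‖ := mul_nonneg hM (norm_nonneg _)
    rw [Real.norm_eq_abs]
    refine (Real.rpow_le_rpow (abs_nonneg _) (hbb a h) hq0.le).trans (le_of_eq ?_)
    rw [Real.mul_rpow (Real.rpow_nonneg (hρ0 h) _) h0, ← Real.rpow_mul (hρ0 h),
      one_div_mul_cancel hq0.ne', Real.rpow_one]
  have hsum : ∀ a, Summable fun h => ‖b a h‖ ^ q := fun a =>
    Summable.of_nonneg_of_le (fun h => by positivity) (hbq a) (hρ.mul_right _)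
  have hmem : ∀ a, Memℓp (b a) (ENNReal.ofReal q) := by
    intro a
    apply memℓp_gen
    rw [hq1]
    exact hsum a
  let L : lp (fun _ : Γ => ℝ) (ENNReal.ofReal p) →ₗ[ℝ] lp (fun _ : Γ => ℝ) (ENNReal.ofReal q) :=
    { toFun := fun a => ⟨b a, hmem a⟩
      map_add' := by
        intro a a'
        apply lp.ext
        funext h
        show (ρ h) ^ (1 / q) * ∑' g, (a + a') g * w g h = (ρ h) ^ (1 / q) * ∑' g, a g * w g h
          + (ρ h) ^ (1 / q) * ∑' g, a' g * w g h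
        rw [← mul_add, ← (hs a h).tsum_add (hs a' h)]
        congr 1
        apply tsum_congr
        intro g
        rw [lp.coeFn_add, Pi.add_apply, add_mul]
      map_smul' := by
        intro c a
        apply lp.ext
        funext h
        show (ρ h) ^ (1 / q) * ∑' g, (c • a) g * w g h = c * ((ρ h) ^ (1 / q) * ∑' g, a g * w g h)
        have e1 : ∑' g, (c • a) g * w g h = c * ∑' g, a g * w g h := by
          rw [← tsum_mul_left]
          apply tsum_congr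
          intro g
          rw [lp.coeFn_smul, Pi.smul_apply, smul_eq_mul, mul_assoc]
        rw [e1, mul_left_comm] }
  have hnorm : ∀ a, ‖L a‖ ≤ ((∑' h, ρ h) ^ (1 / q) * M) * ‖a‖ := by
    intro a
    have hS : 0 ≤ ∑' h, ρ h := tsum_nonneg hρ0
    have h0 : 0 ≤ M * ‖a‖ := mul_nonneg hM (norm_nonneg _)
    apply lp.norm_le_of_tsum_le (by rw [hq1]; exact hq0)
      (mul_nonneg (mul_nonneg (Real.rpow_nonneg hS _) hM) (norm_nonneg _))
    rw [hq1]
    have h1 : ∑' h, ‖(L a : Γ → ℝ) h‖ ^ q ≤ ∑' h, ρ h * (M * ‖a‖) ^ q :=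
      (hsum a).tsum_le_tsum (hbq a) (hρ.mul_right _)
    refine h1.trans (le_of_eq ?_)
    rw [tsum_mul_right, mul_assoc ((∑' h, ρ h) ^ (1 / q)), Real.mul_rpow (Real.rpow_nonneg hS _) h0,
      ← Real.rpow_mul hS, one_div_mul_cancel hq0.ne', Real.rpow_one]
  refine ⟨L.mkContinuous _ hnorm, ?_, ?_⟩
  · intro g h
    show (ρ h) ^ (1 / q) * ∑' g', (lp.single (ENNReal.ofReal p) g (1:ℝ) :
      lp (fun _ : Γ => ℝ) (ENNReal.ofReal p)) g' * w g' h = _
    congr 1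
    rw [tsum_eq_single g]
    · rw [lp.single_apply_self, one_mul]
    · intro g' hg'
      rw [lp.single_apply_ne _ _ _ hg', zero_mul]
  · intro a h
    exact hbb a h

end Pool.Agent.BAPp.ExW
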