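import Mathlib
import Pool.Agent.BAPp.Defs

open MeasureTheory
open scoped ENNReal NNReal

set_option maxSynthPendingDepth 3

namespace Pool.Agent.BAPp.GLow




/-- Lower bound for the norm `g_p` by trace duality with a `q`-summing operator `u`. -/
theorem gNorm_lower (p q : ℝ) (hpq : p.HolderConjugate q) {Y X Γ : Type} [NormedAddCommGroup Y]
    [NormedSpace ℝ Y] [NormedAddCommGroup X] [NormedSpace ℝ X]
    (trace_indep : ∀ {n m : ℕ} (ys : Fin n → (Y →ₗ[ℝ] ℝ)) (z : Fin n → Y)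
      (al : Fin m → (Y →ₗ[ℝ] ℝ)) (v : Fin m → Y),
      (∀ y, ∑ i, ys i y • z i = ∑ j, al j y • v j) → ∑ i, ys i (z i) = ∑ j, al j (v j))
    (ρ : Γ → ℝ) (hρ0 : ∀ g, 0 ≤ ρ g) (hρ : Summable ρ) (hR : 0 < ∑' g, ρ g)
    (M : ℝ) (hM : 0 < M) (u : X →L[ℝ] Y) (fh : Γ → (X →L[ℝ] ℝ)) (hf : ∀ h, ‖fh h‖ ≤ M)
    (hu : ∀ x, ‖u x‖ ^ q ≤ ∑' h, ρ h * |fh h x| ^ q)
    (T : Y →L[ℝ] X) {m : ℕ} (al : Fin m → (Y →L[ℝ] ℝ)) (v : Fin m → Y)
    (hT : ∀ y, u (T y) = ∑ j, al j y • v j) (htr : ∑ j, al j (v j) = 1) :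
    ENNReal.ofReal (1 / ((∑' g, ρ g) ^ (1 / q) * M)) ≤ gNorm p T := by
  classical
  have hq1 : 1 < q := hpq.symm.lt
  have hq0 : 0 < q := by linarith
  have hqe : p / (p - 1) = q := hpq.conjExponent_eq
  unfold gNorm
  refine le_iInf fun n => le_iInf fun ys => le_iInf fun xs => le_iInf fun hrep => ?_
  rw [hqe]
  set R : ℝ := ∑' g, ρ g with hRdef
  -- the weak norm is finite
  have hWtop : weakNorm q xs ≠ ⊤ := by
    have h1 : weakNorm q xs ≤ ENNReal.ofReal ((∑ k, ‖xs k‖ ^ q) ^ (1 / q)) := by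
      refine iSup₂_le fun f hf1 => ENNReal.ofReal_le_ofReal ?_
      apply Real.rpow_le_rpow
      · exact Finset.sum_nonneg fun k _ => Real.rpow_nonneg (abs_nonneg _) _
      · apply Finset.sum_le_sum
        intro k _
        apply Real.rpow_le_rpow (abs_nonneg _) _ hq0.le
        have h2 := f.le_opNorm (xs k)
        rw [Real.norm_eq_abs] at h2
        exact h2.trans (mul_le_of_le_one_left (norm_nonneg _) hf1)
      · positivity
    exact (lt_of_le_of_lt h1 ENNReal.ofReal_lt_top).ne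
  set Wr : ℝ := (weakNorm q xs).toReal with hWr
  have hWr0 : 0 ≤ Wr := ENNReal.toReal_nonneg
  have hWeq : weakNorm q xs = ENNReal.ofReal Wr := (ENNReal.ofReal_toReal hWtop).symm
  -- each functional
  have hfh : ∀ h, ∑ k, |fh h (xs k)| ^ q ≤ (M * Wr) ^ q := by
    intro h
    have h1 : ‖(M⁻¹ • fh h : X →L[ℝ] ℝ)‖ ≤ 1 := by
      rw [norm_smul, Real.norm_of_nonneg (by positivity), inv_mul_le_iff₀ hM, mul_one]
      exact hf h
    have h2 : ENNReal.ofReal ((∑ k, |(M⁻¹ • fh h : X →L[ℝ] ℝ) (xs k)| ^ q) ^ (1 / q)) ≤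
        weakNorm q xs :=
      le_iSup₂ (f := fun (f : X →L[ℝ] ℝ) (_ : ‖f‖ ≤ 1) =>
        ENNReal.ofReal ((∑ k, |f (xs k)| ^ q) ^ (1 / q))) _ h1
    rw [hWeq, ENNReal.ofReal_le_ofReal_iff hWr0] at h2
    have hS0 : 0 ≤ ∑ k, |(M⁻¹ • fh h : X →L[ℝ] ℝ) (xs k)| ^ q :=
      Finset.sum_nonneg fun k _ => Real.rpow_nonneg (abs_nonneg _) _
    have h3 := Real.rpow_le_rpow (Real.rpow_nonneg hS0 _) h2 hq0.le
    rw [← Real.rpow_mul hS0, one_div, inv_mul_cancel₀ hq0.ne', Real.rpow_one] at h3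
    have h4 : ∑ k, |fh h (xs k)| ^ q =
        M ^ q * ∑ k, |(M⁻¹ • fh h : X →L[ℝ] ℝ) (xs k)| ^ q := by
      rw [Finset.mul_sum]
      apply Finset.sum_congr rfl
      intro k _
      rw [← Real.mul_rpow hM.le (abs_nonneg _)]
      congr 1
      rw [ContinuousLinearMap.smul_apply, smul_eq_mul, abs_mul, abs_of_pos (inv_pos.2 hM),
        mul_inv_cancel_left₀ hM.ne']
    rw [h4, Real.mul_rpow hM.le hWr0]
    exact mul_le_mul_of_nonneg_left h3 (Real.rpow_nonneg hM.le _)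
  -- summability
  have hsum : ∀ x : X, Summable fun h => ρ h * |fh h x| ^ q := by
    intro x
    refine Summable.of_nonneg_of_le (fun h => mul_nonneg (hρ0 h) (Real.rpow_nonneg (abs_nonneg _) _))
      (fun h => ?_) (hρ.mul_right ((M * ‖x‖) ^ q))
    apply mul_le_mul_of_nonneg_left _ (hρ0 h)
    apply Real.rpow_le_rpow (abs_nonneg _) _ hq0.le
    have h2 := (fh h).le_opNorm x
    rw [Real.norm_eq_abs] at h2
    exact h2.trans (mul_le_mul_of_nonneg_right (hf h) (norm_nonneg _))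
  have hz : ∑ k, ‖u (xs k)‖ ^ q ≤ R * (M * Wr) ^ q := by
    calc ∑ k, ‖u (xs k)‖ ^ q ≤ ∑ k, ∑' h, ρ h * |fh h (xs k)| ^ q :=
          Finset.sum_le_sum fun k _ => hu (xs k)
      _ = ∑' h, ∑ k, ρ h * |fh h (xs k)| ^ q :=
          (Summable.tsum_finsetSum fun k _ => hsum (xs k)).symm
      _ ≤ ∑' h, ρ h * (M * Wr) ^ q := by
          refine Summable.tsum_le_tsum (fun h => ?_) (summable_sum fun k _ => hsum (xs k))
            (hρ.mul_right _)
          rw [← Finset.mul_sum]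
          exact mul_le_mul_of_nonneg_left (hfh h) (hρ0 h)
      _ = R * (M * Wr) ^ q := by rw [tsum_mul_right]
  have htrace : ∑ k, ys k (u (xs k)) = 1 := by
    have h1 := trace_indep (fun k => (ys k : Y →ₗ[ℝ] ℝ)) (fun k => u (xs k))
      (fun j => (al j : Y →ₗ[ℝ] ℝ)) v (by
        intro y
        have h2 : ∑ i, ys i y • u (xs i) = u (T y) := by
          rw [hrep y, map_sum]
          simp
        simp only [ContinuousLinearMap.coe_coe]
        rw [h2, hT y])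
    simp only [ContinuousLinearMap.coe_coe] at h1
    rw [h1, htr]
  set a : ℝ := (∑ k, ‖ys k‖ ^ p) ^ (1 / p) with ha
  have ha0 : 0 ≤ a := Real.rpow_nonneg (Finset.sum_nonneg fun k _ =>
    Real.rpow_nonneg (norm_nonneg _) _) _
  have h1 : 1 ≤ a * (R ^ (1 / q) * (M * Wr)) := by
    calc (1 : ℝ) = ∑ k, ys k (u (xs k)) := htrace.symm
      _ ≤ ∑ k, ‖ys k‖ * ‖u (xs k)‖ := by
          apply Finset.sum_le_sum
          intro k _
          exact (le_abs_self _).trans ((ys k).le_opNorm (u (xs k)))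
      _ ≤ (∑ k, |‖ys k‖| ^ p) ^ (1 / p) * (∑ k, |‖u (xs k)‖| ^ q) ^ (1 / q) :=
          Real.inner_le_Lp_mul_Lq _ _ _ hpq
      _ = a * (∑ k, ‖u (xs k)‖ ^ q) ^ (1 / q) := by
          simp only [abs_norm]
          rfl
      _ ≤ a * (R * (M * Wr) ^ q) ^ (1 / q) := by
          apply mul_le_mul_of_nonneg_left _ ha0
          apply Real.rpow_le_rpow _ hz (by positivity)
          exact Finset.sum_nonneg fun k _ => Real.rpow_nonneg (norm_nonneg _) _
      _ = a * (R ^ (1 / q) * (M * Wr)) := by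
          rw [Real.mul_rpow hR.le (Real.rpow_nonneg (by positivity) _),
            ← Real.rpow_mul (by positivity), mul_one_div_cancel hq0.ne', Real.rpow_one]
  rw [hWeq, ← ENNReal.ofReal_mul ha0]
  apply ENNReal.ofReal_le_ofReal
  have hRq : 0 < R ^ (1 / q) := Real.rpow_pos_of_pos hR _
  rw [div_le_iff₀ (by positivity)]
  calc (1 : ℝ) ≤ a * (R ^ (1 / q) * (M * Wr)) := h1
    _ = a * Wr * (R ^ (1 / q) * M) := by ring

end Pool.Agent.BAPp.GLow
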