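import Mathlib


open Finset

namespace Pool.Agent.BAPp.Had

/-- the Sylvester matrices -/
noncomputable def syl : ℕ → ℕ → ℕ → ℝ
  | 0, _, _ => 1
  | n + 1, i, j => (if 2 ^ n ≤ i ∧ 2 ^ n ≤ j then -1 else 1) * syl n (i % 2 ^ n) (j % 2 ^ n)

lemma syl_abs (n i j : ℕ) : |syl n i j| = 1 := by
  induction n generalizing i j with
  | zero => simp [syl]
  | succ n ih =>
    rw [syl, abs_mul, ih, mul_one]
    split_ifs <;> simp

lemma syl_symm (n i j : ℕ) : syl n i j = syl n j i := by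
  induction n generalizing i j with
  | zero => simp [syl]
  | succ n ih =>
    rw [syl, syl, ih]
    simp only [and_comm]

lemma syl_low (n i : ℕ) {g : ℕ} (hg : g < 2 ^ n) : syl (n + 1) i g = syl n (i % 2 ^ n) g := by
  rw [syl, if_neg (by omega), one_mul, Nat.mod_eq_of_lt hg]

lemma syl_high (n i : ℕ) {g : ℕ} (hg : g < 2 ^ n) :
    syl (n + 1) i (2 ^ n + g) = (if 2 ^ n ≤ i then -1 else 1) * syl n (i % 2 ^ n) g := by
  rw [syl, Nat.add_mod_left, Nat.mod_eq_of_lt hg]
  congr 1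
  by_cases h : 2 ^ n ≤ i
  · rw [if_pos ⟨h, by omega⟩, if_pos h]
  · rw [if_neg (fun h' => h h'.1), if_neg h]

lemma syl_orth (n : ℕ) : ∀ i < 2 ^ n, ∀ j < 2 ^ n,
    ∑ g ∈ range (2 ^ n), syl n i g * syl n j g = if i = j then (2:ℝ) ^ n else 0 := by
  induction n with
  | zero =>
    intro i hi j hj
    have h1 : i = 0 := by simpa using hi
    have h2 : j = 0 := by simpa using hj
    subst h1 h2
    simp [syl]
  | succ n ih =>
    intro i hi j hj
    have hpos : 0 < 2 ^ n := by positivity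
    have e1 : 2 ^ (n + 1) = 2 ^ n + 2 ^ n := by ring
    rw [e1] at hi hj
    rw [e1, Finset.sum_range_add]
    have e2 : ∑ g ∈ range (2 ^ n), syl (n + 1) i g * syl (n + 1) j g =
        ∑ g ∈ range (2 ^ n), syl n (i % 2 ^ n) g * syl n (j % 2 ^ n) g := by
      refine Finset.sum_congr rfl fun g hg => ?_
      rw [mem_range] at hg
      rw [syl_low n i hg, syl_low n j hg]
    have e3 : ∑ g ∈ range (2 ^ n), syl (n + 1) i (2 ^ n + g) * syl (n + 1) j (2 ^ n + g) =
        ((if 2 ^ n ≤ i then -1 else 1) * (if 2 ^ n ≤ j then -1 else 1)) *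
        ∑ g ∈ range (2 ^ n), syl n (i % 2 ^ n) g * syl n (j % 2 ^ n) g := by
      rw [Finset.mul_sum]
      refine Finset.sum_congr rfl fun g hg => ?_
      rw [mem_range] at hg
      rw [syl_high n i hg, syl_high n j hg]
      ring
    rw [e2, e3, ih _ (Nat.mod_lt _ hpos) _ (Nat.mod_lt _ hpos)]
    have hmod : ∀ k, k < 2 ^ n + 2 ^ n → k % 2 ^ n = if 2 ^ n ≤ k then k - 2 ^ n else k := by
      intro k hk
      split_ifs with h
      · rw [Nat.mod_eq_sub_mod h, Nat.mod_eq_of_lt (by omega)]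
      · exact Nat.mod_eq_of_lt (by omega)
    rw [hmod i hi, hmod j hj]
    by_cases hij : i = j
    · subst hij
      rw [if_pos rfl, if_pos rfl]
      split_ifs <;> ring
    · rw [if_neg hij]
      by_cases h1 : 2 ^ n ≤ i <;> by_cases h2 : 2 ^ n ≤ j
      · rw [if_pos h1, if_pos h2, if_pos h1, if_pos h2, if_neg (by omega)]; ring
      · rw [if_pos h1, if_neg h2, if_pos h1, if_neg h2]; ring
      · rw [if_neg h1, if_pos h2, if_neg h1, if_pos h2]; ring
      · rw [if_neg h1, if_neg h2, if_neg h1, if_neg h2, if_neg hij]; ring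

/-- Sylvester Hadamard matrices of order `2^n`, indexed by natural numbers. -/
theorem exists_hadamard (n : ℕ) : ∃ H : ℕ → ℕ → ℝ, (∀ i j, |H i j| = 1) ∧
    (∀ i < 2 ^ n, ∀ j < 2 ^ n, ∑ g ∈ range (2 ^ n), H i g * H j g = if i = j then (2:ℝ) ^ n else 0) ∧
    (∀ g < 2 ^ n, ∀ h < 2 ^ n, ∑ j ∈ range (2 ^ n), H j g * H j h = if g = h then (2:ℝ) ^ n else 0) := by
  refine ⟨syl n, syl_abs n, syl_orth n, ?_⟩
  intro g hg h hh
  rw [← syl_orth n g hg h hh]
  refine Finset.sum_congr rfl fun j _ => ?_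
  rw [syl_symm n j g, syl_symm n j h]

end Pool.Agent.BAPp.Had
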