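import Mathlib
import Pool.Agent.BAPp.SysDefs

open Finset

namespace Pool.Agent.BAPp.Ident




theorem ee_at (sg tt : ℕ → ℕ → ℕ → ℝ) (l i k g : ℕ) (hg : g ∈ range (2 ^ (k + 2))) :
    ee sg tt l i (k, g) = if k = l then sg l i g else if k + 1 = l then tt k i g else 0 := by
  have h : g < 2 ^ (k + 2) := mem_range.1 hg
  show (if g < 2 ^ (k + 2) then
    (if k = l then sg l i g else if k + 1 = l then tt k i g else 0) else 0) = _
  rw [if_pos h]

theorem phi_at (sg tt : ℕ → ℕ → ℕ → ℝ) (k g : ℕ) (x : ℕ × ℕ) (hg : g ∈ range (2 ^ (k + 2))) :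
    phi sg tt (k, g) x = (1 / 2 ^ (k + 2)) * ((1 / 2 ^ (k + 1)) *
        (∑ j ∈ range (2 ^ (k + 1)), tt k j g * ee sg tt (k + 1) j x)
      - (1 / 2 ^ k) * (∑ j ∈ range (2 ^ k), sg k j g * ee sg tt k j x)) := by
  have h : g < 2 ^ (k + 2) := mem_range.1 hg
  show (if g < 2 ^ (k + 2) then _ else _) = _
  rw [if_pos h]

theorem sum_phi (sg tt : ℕ → ℕ → ℕ → ℝ) (c : ℕ → ℝ) (k : ℕ) (x : ℕ × ℕ) :
    ∑ g ∈ range (2 ^ (k + 2)), c g * phi sg tt (k, g) x =
      (1 / 2 ^ (k + 2)) * ((1 / 2 ^ (k + 1)) *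
        (∑ j ∈ range (2 ^ (k + 1)), (∑ g ∈ range (2 ^ (k + 2)), c g * tt k j g) *
          ee sg tt (k + 1) j x)
      - (1 / 2 ^ k) * (∑ j ∈ range (2 ^ k), (∑ g ∈ range (2 ^ (k + 2)), c g * sg k j g) *
          ee sg tt k j x)) := by
  have h1 : ∀ (N : ℕ) (f : ℕ → ℕ → ℝ) (e : ℕ → ℝ),
      ∑ j ∈ range N, (∑ g ∈ range (2 ^ (k + 2)), c g * f j g) * e j =
        ∑ g ∈ range (2 ^ (k + 2)), c g * ∑ j ∈ range N, f j g * e j := by
    intro N f e
    simp_rw [Finset.sum_mul, Finset.mul_sum]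
    rw [Finset.sum_comm]
    refine sum_congr rfl fun g _ => sum_congr rfl fun j _ => ?_
    ring
  rw [h1, h1, Finset.mul_sum, Finset.mul_sum, ← Finset.sum_sub_distrib, Finset.mul_sum]
  refine sum_congr rfl fun g hg => ?_
  rw [phi_at sg tt k g x hg]
  ring

theorem sum_delta (N i : ℕ) (hi : i < N) (c : ℝ) (e : ℕ → ℝ) :
    ∑ j ∈ range N, (if i = j then c else 0) * e j = c * e i := by
  rw [Finset.sum_eq_single i]
  · rw [if_pos rfl]
  · intro j _ hj
    rw [if_neg (Ne.symm hj), zero_mul]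
  · intro h
    exact absurd (mem_range.2 hi) h

/-- the telescoping identity on one level, and biorthogonality -/
theorem level_ident (sg tt : ℕ → ℕ → ℕ → ℝ)
    (o1 : ∀ k, ∀ i < 2 ^ k, ∀ j < 2 ^ k,
        ∑ g ∈ range (2 ^ (k + 2)), sg k i g * sg k j g = if i = j then (2:ℝ) ^ (k + 2) else 0)
    (o2 : ∀ k, ∀ i < 2 ^ (k + 1), ∀ j < 2 ^ (k + 1),
        ∑ g ∈ range (2 ^ (k + 2)), tt k i g * tt k j g = if i = j then (2:ℝ) ^ (k + 2) else 0)
    (o3 : ∀ k, ∀ i < 2 ^ k, ∀ j < 2 ^ (k + 1),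
        ∑ g ∈ range (2 ^ (k + 2)), sg k i g * tt k j g = 0)
    (l i : ℕ) (hi : i < 2 ^ l) :
    (∀ k x, ∑ g ∈ range (2 ^ (k + 2)), ee sg tt l i (k, g) * phi sg tt (k, g) x
      = (if l = k + 1 then (1 / 2 ^ l) * ee sg tt l i x else 0)
        - (if l = k then (1 / 2 ^ l) * ee sg tt l i x else 0)) ∧
    (∀ K, ∀ j < 2 ^ K, (1 / 2 ^ (K + 2)) * ∑ g ∈ range (2 ^ (K + 2)),
        sg K j g * ee sg tt l i (K, g) = if l = K ∧ i = j then 1 else 0) := by
  constructor
  · intro k x
    have h0 : ∑ g ∈ range (2 ^ (k + 2)), ee sg tt l i (k, g) * phi sg tt (k, g) x =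
        ∑ g ∈ range (2 ^ (k + 2)), (if k = l then sg l i g else if k + 1 = l then tt k i g else 0) *
          phi sg tt (k, g) x :=
      sum_congr rfl fun g hg => by rw [ee_at sg tt l i k g hg]
    rw [h0]
    by_cases hl : k = l
    · subst hl
      simp only [if_true]
      rw [sum_phi, if_neg (by omega : ¬ k = k + 1)]
      have h1 : ∑ j ∈ range (2 ^ (k + 1)), (∑ g ∈ range (2 ^ (k + 2)), sg k i g * tt k j g) *
          ee sg tt (k + 1) j x = 0 :=
        sum_eq_zero fun j hj => by rw [o3 k i hi j (mem_range.1 hj), zero_mul]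
      have h2 : ∑ j ∈ range (2 ^ k), (∑ g ∈ range (2 ^ (k + 2)), sg k i g * sg k j g) *
          ee sg tt k j x = 2 ^ (k + 2) * ee sg tt k i x := by
        rw [← sum_delta (2 ^ k) i hi (2 ^ (k + 2)) (fun j => ee sg tt k j x)]
        exact sum_congr rfl fun j hj => by rw [o1 k i hi j (mem_range.1 hj)]
      rw [h1, h2]
      have h3 : (2 : ℝ) ^ (k + 2) ≠ 0 := by positivity
      have h4 : (2 : ℝ) ^ k ≠ 0 := by positivity
      field_simp
      ring
    · by_cases hl2 : k + 1 = l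
      · subst hl2
        simp only [if_neg hl, if_true]
        rw [sum_phi, if_neg (by omega : ¬ k + 1 = k)]
        have h1 : ∑ j ∈ range (2 ^ k), (∑ g ∈ range (2 ^ (k + 2)), tt k i g * sg k j g) *
            ee sg tt k j x = 0 :=
          sum_eq_zero fun j hj => by
            have h5 := o3 k j (mem_range.1 hj) i hi
            simp_rw [mul_comm (tt k i _)]
            rw [h5, zero_mul]
        have h2 : ∑ j ∈ range (2 ^ (k + 1)), (∑ g ∈ range (2 ^ (k + 2)), tt k i g * tt k j g) *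
            ee sg tt (k + 1) j x = 2 ^ (k + 2) * ee sg tt (k + 1) i x := by
          rw [← sum_delta (2 ^ (k + 1)) i hi (2 ^ (k + 2)) (fun j => ee sg tt (k + 1) j x)]
          exact sum_congr rfl fun j hj => by rw [o2 k i hi j (mem_range.1 hj)]
        rw [h1, h2]
        have h3 : (2 : ℝ) ^ (k + 2) ≠ 0 := by positivity
        have h4 : (2 : ℝ) ^ (k + 1) ≠ 0 := by positivity
        field_simp
        ring
      · rw [if_neg (fun h => hl2 h.symm), if_neg (fun h => hl h.symm), sub_zero]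
        refine sum_eq_zero fun g _ => ?_
        rw [if_neg hl, if_neg hl2, zero_mul]
  · intro K j hj
    have h0 : ∑ g ∈ range (2 ^ (K + 2)), sg K j g * ee sg tt l i (K, g) =
        ∑ g ∈ range (2 ^ (K + 2)), sg K j g *
          (if K = l then sg l i g else if K + 1 = l then tt K i g else 0) :=
      sum_congr rfl fun g hg => by rw [ee_at sg tt l i K g hg]
    rw [h0]
    by_cases hl : K = l
    · subst hl
      simp only [if_true, true_and]
      rw [o1 K j hj i hi]
      have h3 : (2 : ℝ) ^ (K + 2) ≠ 0 := by positivity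
      by_cases hij : i = j
      · rw [if_pos hij, if_pos hij.symm]
        field_simp
      · rw [if_neg hij, if_neg (Ne.symm hij), mul_zero]
    · rw [if_neg (fun h => hl h.1.symm)]
      by_cases hl2 : K + 1 = l
      · subst hl2
        simp only [if_neg hl, if_true]
        rw [o3 K j hj i hi, mul_zero]
      · simp only [if_neg hl, if_neg hl2, mul_zero, sum_const_zero]

end Pool.Agent.BAPp.Ident
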