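import Mathlib
import Pool.Agent.BAPp.Defs

open MeasureTheory
open scoped ENNReal NNReal

set_option maxSynthPendingDepth 3

namespace Pool.Agent.BAPp.GLe




theorem gNorm_le_of (p q : ℝ) (hpq : p.HolderConjugate q) {Y X : Type} [NormedAddCommGroup Y]
    [NormedSpace ℝ Y] [NormedAddCommGroup X] [NormedSpace ℝ X] (T : Y →L[ℝ] X)
    {ι : Type} [Fintype ι] (ys : ι → (Y →L[ℝ] ℝ)) (xs : ι → X)
    (hT : ∀ y, T y = ∑ i, ys i y • xs i) (a b : ℝ) (ha0 : 0 ≤ a) (hb0 : 0 ≤ b)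
    (ha : ∑ i, ‖ys i‖ ^ p ≤ a ^ p)
    (hb : ∀ f : X →L[ℝ] ℝ, ‖f‖ ≤ 1 → ∑ i, |f (xs i)| ^ q ≤ b ^ q) :
    gNorm p T ≤ ENNReal.ofReal (a * b) := by
  have hp0 : 0 < p := hpq.pos
  have hq0 : 0 < q := hpq.symm.pos
  have hq : p / (p - 1) = q := hpq.conjugate_eq.symm
  set e := Fintype.equivFin ι with he
  unfold gNorm
  refine iInf_le_of_le (Fintype.card ι) (iInf_le_of_le (fun k => ys (e.symm k))
    (iInf_le_of_le (fun k => xs (e.symm k)) (iInf_le_of_le ?_ ?_)))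
  · intro y
    rw [hT y]
    exact (Equiv.sum_comp e.symm (fun i => ys i y • xs i)).symm
  · rw [ENNReal.ofReal_mul ha0]
    refine mul_le_mul' ?_ ?_
    · refine ENNReal.ofReal_le_ofReal ?_
      have h1 : ∑ k, ‖ys (e.symm k)‖ ^ p = ∑ i, ‖ys i‖ ^ p :=
        Equiv.sum_comp e.symm (fun i => ‖ys i‖ ^ p)
      rw [h1]
      calc (∑ i, ‖ys i‖ ^ p) ^ (1 / p) ≤ (a ^ p) ^ (1 / p) := by
            refine Real.rpow_le_rpow ?_ ha (by positivity)
            exact Finset.sum_nonneg fun i _ => Real.rpow_nonneg (norm_nonneg _) _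
        _ = a := by rw [one_div, Real.rpow_rpow_inv ha0 hp0.ne']
    · rw [hq]
      unfold weakNorm
      refine iSup₂_le fun f hf => ENNReal.ofReal_le_ofReal ?_
      have h1 : ∑ k, |f (xs (e.symm k))| ^ q = ∑ i, |f (xs i)| ^ q :=
        Equiv.sum_comp e.symm (fun i => |f (xs i)| ^ q)
      rw [h1]
      calc (∑ i, |f (xs i)| ^ q) ^ (1 / q) ≤ (b ^ q) ^ (1 / q) := by
            refine Real.rpow_le_rpow ?_ (hb f hf) (by positivity)
            exact Finset.sum_nonneg fun i _ => Real.rpow_nonneg (abs_nonneg _) _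
        _ = b := by rw [one_div, Real.rpow_rpow_inv hb0 hq0.ne']

end Pool.Agent.BAPp.GLe
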