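import Mathlib
import Pool.Agent.BAPp.Defs
import Pool.Agent.BAPp.Sgn

open MeasureTheory
open scoped ENNReal NNReal

set_option maxSynthPendingDepth 3

namespace Pool.Agent.BAPp.GSigns




open Finset

theorem sgn_sq (b : Bool) : sgn b * sgn b = 1 := by cases b <;> norm_num [sgn]

theorem sgn_not (b : Bool) : sgn (!b) = - sgn b := by cases b <;> norm_num [sgn]

theorem sgn_orth {m : ℕ} (k l : Fin m) :
    ∑ e : Fin m → Bool, sgn (e k) * sgn (e l) = if k = l then (2 : ℝ) ^ m else 0 := by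
  split_ifs with h
  · subst h
    simp [sgn_sq]
  · have hinv : Function.Involutive (fun e : Fin m → Bool => Function.update e k (!(e k))) := by
      intro e
      funext i
      by_cases hi : i = k
      · subst hi; simp
      · simp [hi]
    have h1 := Equiv.sum_comp (Function.Involutive.toPerm _ hinv)
      (fun e : Fin m → Bool => sgn (e k) * sgn (e l))
    have h2 : ∀ e : Fin m → Bool, sgn (Function.Involutive.toPerm _ hinv e k) *
        sgn (Function.Involutive.toPerm _ hinv e l) = -(sgn (e k) * sgn (e l)) := by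
      intro e
      have e1 : Function.Involutive.toPerm _ hinv e k = !(e k) := by
        simp [Function.Involutive.toPerm]
      have e2 : Function.Involutive.toPerm _ hinv e l = e l := by
        simp [Function.Involutive.toPerm, Ne.symm h]
      rw [e1, e2, sgn_not, neg_mul]
    simp only [h2, Finset.sum_neg_distrib] at h1
    linarith

theorem gNorm_le_signs (p q : ℝ) (hpq : p.HolderConjugate q) (hp2 : p < 2) {Y X : Type}
    [NormedAddCommGroup Y] [NormedSpace ℝ Y] [NormedAddCommGroup X] [NormedSpace ℝ X]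
    (T : Y →L[ℝ] X)
    (gle : ∀ {ι : Type} [Fintype ι] (ys : ι → (Y →L[ℝ] ℝ)) (xs : ι → X),
      (∀ y, T y = ∑ i, ys i y • xs i) → ∀ (a b : ℝ), 0 ≤ a → 0 ≤ b →
      (∑ i, ‖ys i‖ ^ p ≤ a ^ p) →
      (∀ f : X →L[ℝ] ℝ, ‖f‖ ≤ 1 → ∑ i, |f (xs i)| ^ q ≤ b ^ q) →
      gNorm p T ≤ ENNReal.ofReal (a * b))
    (khin : ∀ {m : ℕ} (a : Fin m → ℝ), ∑ e : Fin m → Bool, |∑ i, sgn (e i) * a i| ^ q
      ≤ 2 ^ m * (4 * q ^ q * (∑ i, a i ^ 2) ^ (q / 2)))
    {m : ℕ} (xs : Fin m → (Y →L[ℝ] ℝ)) (z : Fin m → X) (hT : ∀ y, T y = ∑ k, xs k y • z k)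
    (a b : ℝ) (ha0 : 0 ≤ a) (hb0 : 0 ≤ b)
    (ha : ∑ e : Fin m → Bool, ‖∑ k, sgn (e k) • xs k‖ ^ q ≤ 2 ^ m * a ^ q)
    (hb : ∀ f : X →L[ℝ] ℝ, ‖f‖ ≤ 1 → ∑ k, (f (z k)) ^ 2 ≤ b ^ 2) :
    gNorm p T ≤ ENNReal.ofReal (a * ((4 * q ^ q) ^ (1 / q) * b)) := by
  have hp1 : 1 < p := hpq.lt
  have hq1 : 1 < q := hpq.symm.lt
  have hp0 : 0 < p := by linarith
  have hq0 : 0 < q := by linarith
  have hsum : p⁻¹ + q⁻¹ = 1 := hpq.inv_add_inv_eq_one
  have hqp : p ≤ q := by
    have h1 : (1 : ℝ) / 2 < p⁻¹ := by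
      rw [one_div]; exact inv_strictAnti₀ hp0 hp2
    have h2 : q⁻¹ ≤ p⁻¹ := by linarith
    exact (inv_le_inv₀ hq0 hp0).1 h2
  set M : ℝ := (2 : ℝ) ^ m with hM
  have hM0 : 0 < M := by positivity
  set c : ℝ := M ^ (-(1 / p)) with hc
  set d : ℝ := M ^ (-(1 / q)) with hd
  have hc0 : 0 < c := Real.rpow_pos_of_pos hM0 _
  have hd0 : 0 < d := Real.rpow_pos_of_pos hM0 _
  have hcd : c * d = M⁻¹ := by
    rw [hc, hd, ← Real.rpow_add hM0, ← Real.rpow_neg_one M]
    congr 1
    rw [one_div, one_div]; linarith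
  have hcp : c ^ p = M⁻¹ := by
    rw [hc, ← Real.rpow_mul hM0.le, ← Real.rpow_neg_one M]
    congr 1
    field_simp
  have hdq : d ^ q = M⁻¹ := by
    rw [hd, ← Real.rpow_mul hM0.le, ← Real.rpow_neg_one M]
    congr 1
    field_simp
  have hcard : (Fintype.card (Fin m → Bool) : ℝ) = M := by simp [hM]
  set K : ℝ := (4 * q ^ q) ^ (1 / q) with hK
  have hqq : 0 < q ^ q := Real.rpow_pos_of_pos hq0 _
  have hK0 : 0 ≤ K := Real.rpow_nonneg (by positivity) _
  have hKq : K ^ q = 4 * q ^ q := by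
    rw [hK, ← Real.rpow_mul (by positivity), one_div, inv_mul_cancel₀ hq0.ne', Real.rpow_one]
  apply gle (ι := Fin m → Bool) (fun e => c • ∑ k, sgn (e k) • xs k)
    (fun e => d • ∑ l, sgn (e l) • z l) ?_ a (K * b) ha0 (by positivity) ?_ ?_
  · intro y
    have e1 : ∀ e : Fin m → Bool, (c • ∑ k, sgn (e k) • xs k) y • (d • ∑ l, sgn (e l) • z l) =
        ∑ k, ∑ l, (c * d * (sgn (e k) * sgn (e l))) • (xs k y • z l) := by
      intro e
      simp only [_root_.smul_apply, _root_.sum_apply, smul_eq_mul]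
      rw [smul_smul, Finset.mul_sum, Finset.sum_mul, Finset.sum_smul]
      apply Finset.sum_congr rfl
      intro k _
      rw [Finset.smul_sum]
      apply Finset.sum_congr rfl
      intro l _
      rw [smul_smul, smul_smul]
      congr 1
      ring
    simp only [e1]
    rw [Finset.sum_comm]
    have e2 : ∀ k : Fin m, ∑ e : Fin m → Bool, ∑ l, (c * d * (sgn (e k) * sgn (e l))) • (xs k y • z l) =
        xs k y • z k := by
      intro k
      rw [Finset.sum_comm]
      have e3 : ∀ l : Fin m, ∑ e : Fin m → Bool, (c * d * (sgn (e k) * sgn (e l))) • (xs k y • z l) =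
          (if k = l then (1 : ℝ) else 0) • (xs k y • z l) := by
        intro l
        rw [← Finset.sum_smul, ← Finset.mul_sum, sgn_orth]
        congr 1
        split_ifs
        · rw [hcd]; exact inv_mul_cancel₀ hM0.ne'
        · simp
      simp only [e3]
      simp
    simp only [e2]
    exact hT y
  · have e1 : ∀ e : Fin m → Bool, ‖c • ∑ k, sgn (e k) • xs k‖ ^ p =
        M⁻¹ * ‖∑ k, sgn (e k) • xs k‖ ^ p := by
      intro e
      rw [norm_smul, Real.norm_of_nonneg hc0.le, Real.mul_rpow hc0.le (norm_nonneg _), hcp]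
    simp only [e1]
    have h1 := Real.arith_mean_le_rpow_mean (Finset.univ : Finset (Fin m → Bool))
      (fun _ => M⁻¹) (fun e => ‖∑ k, sgn (e k) • xs k‖ ^ p) (fun _ _ => by positivity)
      (by
        rw [Finset.sum_const, Finset.card_univ, nsmul_eq_mul, hcard]
        exact mul_inv_cancel₀ hM0.ne')
      (fun _ _ => by positivity) (p := q / p) (by rw [le_div_iff₀ hp0]; linarith)
    refine h1.trans ?_
    have e2 : ∀ e : Fin m → Bool, (‖∑ k, sgn (e k) • xs k‖ ^ p) ^ (q / p) =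
        ‖∑ k, sgn (e k) • xs k‖ ^ q := by
      intro e
      rw [← Real.rpow_mul (norm_nonneg _)]
      congr 1
      field_simp
    simp only [e2]
    rw [← Finset.mul_sum]
    have h2 : M⁻¹ * ∑ e : Fin m → Bool, ‖∑ k, sgn (e k) • xs k‖ ^ q ≤ a ^ q := by
      rw [inv_mul_le_iff₀ hM0]
      exact ha
    calc (M⁻¹ * ∑ e : Fin m → Bool, ‖∑ k, sgn (e k) • xs k‖ ^ q) ^ (1 / (q / p))
        ≤ (a ^ q) ^ (1 / (q / p)) := by
          apply Real.rpow_le_rpow _ h2 (by positivity)
          positivity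
      _ = a ^ p := by
          rw [← Real.rpow_mul ha0]
          congr 1
          field_simp
  · intro f hf
    have e1 : ∀ e : Fin m → Bool, |f (d • ∑ l, sgn (e l) • z l)| ^ q =
        M⁻¹ * |∑ l, sgn (e l) * f (z l)| ^ q := by
      intro e
      rw [map_smul, map_sum, smul_eq_mul, abs_mul, abs_of_pos hd0,
        Real.mul_rpow hd0.le (abs_nonneg _), hdq]
      simp only [map_smul, smul_eq_mul]
    simp only [e1]
    rw [← Finset.mul_sum, inv_mul_le_iff₀ hM0]
    refine (khin (fun l => f (z l))).trans ?_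
    apply mul_le_mul_of_nonneg_left _ hM0.le
    rw [Real.mul_rpow hK0 hb0, hKq]
    apply mul_le_mul_of_nonneg_left _ (by positivity)
    calc (∑ i, f (z i) ^ 2) ^ (q / 2) ≤ (b ^ 2) ^ (q / 2) :=
          Real.rpow_le_rpow (by positivity) (hb f hf) (by positivity)
      _ = b ^ q := by
          rw [← Real.rpow_natCast b 2, ← Real.rpow_mul hb0]
          congr 1
          push_cast; ring

end Pool.Agent.BAPp.GSigns
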