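import Mathlib


open Finset
open scoped InnerProductSpace

set_option maxSynthPendingDepth 3

namespace Pool.Agent.BAPp.Hilb

/-- A finite rank operator that factors (up to the canonical embedding in the bidual) through a
Hilbert space has a representation by an orthonormal system. -/
theorem hilbert_repr {X H : Type} [NormedAddCommGroup X] [NormedSpace ℝ X]
    [NormedAddCommGroup H] [InnerProductSpace ℝ H] [CompleteSpace H]
    (V : X →L[ℝ] H) (B : H →L[ℝ] ((X →L[ℝ] ℝ) →L[ℝ] ℝ)) (S : X →L[ℝ] X)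
    (hS : FiniteDimensional ℝ (LinearMap.range (S : X →ₗ[ℝ] X)))
    (hfac : ∀ (x : X) (f : X →L[ℝ] ℝ), f (S x) = B (V x) f) :
    ∃ (m : ℕ) (e : Fin m → H) (z : Fin m → X), Orthonormal ℝ e ∧
      (∀ k (f : X →L[ℝ] ℝ), f (z k) = B (e k) f) ∧
      ∀ x, S x = ∑ k, ⟪e k, V x⟫_ℝ • z k := by
  classical
  let j : X →L[ℝ] ((X →L[ℝ] ℝ) →L[ℝ] ℝ) := NormedSpace.inclusionInDoubleDual ℝ X
  have hj : ∀ x f, j x f = f x := fun x f => rfl
  set R : Submodule ℝ ((X →L[ℝ] ℝ) →L[ℝ] ℝ) :=
    (LinearMap.range (S : X →ₗ[ℝ] X)).map (j : X →ₗ[ℝ] ((X →L[ℝ] ℝ) →L[ℝ] ℝ)) with hR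
  have hRf : FiniteDimensional ℝ R := by
    rw [hR]
    infer_instance
  have hRc : IsClosed (R : Set ((X →L[ℝ] ℝ) →L[ℝ] ℝ)) := Submodule.closed_of_finiteDimensional R
  set H0 : Submodule ℝ H := (LinearMap.range (V : X →ₗ[ℝ] H)).topologicalClosure with hH0
  have hBR : ∀ h ∈ H0, B h ∈ R := by
    have h1 : H0 ≤ R.comap (B : H →ₗ[ℝ] ((X →L[ℝ] ℝ) →L[ℝ] ℝ)) := by
      refine Submodule.topologicalClosure_minimal _ ?_ ?_
      · rintro _ ⟨x, rfl⟩
        refine ⟨S x, ⟨x, rfl⟩, ?_⟩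
        ext f
        exact hfac x f
      · exact hRc.preimage B.continuous
    exact fun h hh => h1 hh
  set N : Submodule ℝ H := H0 ⊓ LinearMap.ker (B : H →ₗ[ℝ] ((X →L[ℝ] ℝ) →L[ℝ] ℝ)) with hN
  have hNc : IsClosed (N : Set H) := by
    refine IsClosed.inter (Submodule.isClosed_topologicalClosure _) ?_
    exact B.isClosed_ker
  have : CompleteSpace N := hNc.completeSpace_coe
  set H1 : Submodule ℝ H := H0 ⊓ Nᗮ with hH1
  have hinj : ∀ h ∈ H1, B h = 0 → h = 0 := by
    intro h hh hB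
    have h1 : h ∈ N := ⟨hh.1, hB⟩
    have h2 := (Submodule.mem_orthogonal _ _).1 hh.2 h h1
    exact inner_self_eq_zero.1 h2
  have hfin : FiniteDimensional ℝ H1 := by
    let L : H1 →ₗ[ℝ] R := LinearMap.codRestrict R
      ((B : H →ₗ[ℝ] ((X →L[ℝ] ℝ) →L[ℝ] ℝ)).comp H1.subtype) (fun h => hBR _ h.2.1)
    have hL : Function.Injective L := by
      rw [← LinearMap.ker_eq_bot, LinearMap.ker_eq_bot']
      intro h hh
      have h1 : B (h : H) = 0 := congrArg Subtype.val hh
      exact Subtype.ext (hinj _ h.2 h1)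
    exact FiniteDimensional.of_injective L hL
  let e := stdOrthonormalBasis ℝ H1
  have hez : ∀ k, ∃ z : X, j z = B (e k : H) := by
    intro k
    obtain ⟨y, -, hy⟩ := hBR _ (e k).2.1
    exact ⟨y, hy⟩
  choose z hz using hez
  refine ⟨Module.finrank ℝ H1, fun k => (e k : H), z, ?_, ?_, ?_⟩
  · exact e.orthonormal.comp_linearIsometry H1.subtypeₗᵢ
  · intro k f
    rw [← hz k]
    rfl
  · intro x
    have hVx : V x ∈ H0 := Submodule.le_topologicalClosure _ ⟨x, rfl⟩
    have hp : N.starProjection (V x) ∈ N := Submodule.starProjection_apply_mem N (V x)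
    have h1 : V x - N.starProjection (V x) ∈ H1 :=
      ⟨H0.sub_mem hVx hp.1, Submodule.sub_starProjection_mem_orthogonal (V x)⟩
    have h2 : B (V x) = B (V x - N.starProjection (V x)) := by
      rw [map_sub]
      have : B (N.starProjection (V x)) = 0 := hp.2
      rw [this, sub_zero]
    have h3 := e.sum_repr' ⟨_, h1⟩
    have h4 : V x - N.starProjection (V x) = ∑ k, ⟪(e k : H), V x⟫_ℝ • (e k : H) := by
      have h5 := congrArg Subtype.val h3
      simp only [Submodule.coe_sum, Submodule.coe_smul, Submodule.coe_inner] at h5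
      rw [← h5]
      refine Finset.sum_congr rfl (fun k _ => ?_)
      congr 1
      rw [inner_sub_right]
      have h6 : ⟪(e k : H), N.starProjection (V x)⟫_ℝ = 0 :=
        Submodule.inner_left_of_mem_orthogonal hp (e k).2.2
      rw [h6, sub_zero]
    rw [NormedSpace.eq_iff_forall_dual_eq ℝ]
    intro f
    rw [hfac x f, h2, h4, map_sum, map_sum, ContinuousLinearMap.sum_apply]
    refine Finset.sum_congr rfl (fun k _ => ?_)
    rw [map_smul, map_smul, ← hz k]
    rfl

end Pool.Agent.BAPp.Hilb
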