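import Mathlib


open MeasureTheory
open scoped ENNReal NNReal

namespace Pool.Agent.BAPp.Inclu

/-- the inclusion of `L_r(μ)` in `L_s(μ)`, `s ≤ r`, for a probability measure -/
theorem exists_inclusion {Ω : Type} [MeasurableSpace Ω] (μ : Measure Ω) [IsProbabilityMeasure μ]
    (r s : ℝ≥0∞) [Fact (1 ≤ r)] [Fact (1 ≤ s)] (hsr : s ≤ r) :
    ∃ J : Lp ℝ r μ →L[ℝ] Lp ℝ s μ, ‖J‖ ≤ 1 ∧ ∀ f : Lp ℝ r μ, (J f : Ω → ℝ) =ᵐ[μ] (f : Ω → ℝ) := by
  let L : Lp ℝ r μ →ₗ[ℝ] Lp ℝ s μ :=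
    { toFun := fun f => ((Lp.memLp f).mono_exponent hsr).toLp f
      map_add' := by
        intro f g
        apply Lp.ext
        refine (MemLp.coeFn_toLp _).trans ?_
        refine (Lp.coeFn_add f g).trans ?_
        refine Filter.EventuallyEq.trans ?_ (Lp.coeFn_add _ _).symm
        exact (MemLp.coeFn_toLp _).symm.add (MemLp.coeFn_toLp _).symm
      map_smul' := by
        intro c f
        apply Lp.ext
        refine (MemLp.coeFn_toLp _).trans ?_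
        refine (Lp.coeFn_smul c f).trans ?_
        refine Filter.EventuallyEq.trans ?_ (Lp.coeFn_smul _ _).symm
        exact (MemLp.coeFn_toLp _).symm.const_smul c }
  have hbd : ∀ f : Lp ℝ r μ, ‖L f‖ ≤ 1 * ‖f‖ := by
    intro f
    rw [one_mul]
    show ‖((Lp.memLp f).mono_exponent hsr).toLp f‖ ≤ ‖f‖
    rw [Lp.norm_toLp, Lp.norm_def]
    exact ENNReal.toReal_mono (Lp.eLpNorm_ne_top f)
      (eLpNorm_le_eLpNorm_of_exponent_le hsr (Lp.aestronglyMeasurable f))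
  refine ⟨L.mkContinuous 1 hbd, L.mkContinuous_norm_le zero_le_one hbd, ?_⟩
  intro f
  exact MemLp.coeFn_toLp ((Lp.memLp f).mono_exponent hsr)

/-- on a probability space, `‖f‖_2^q ≤ ∫ |f|^q` for bounded `f` and `q ≥ 2` -/
theorem norm_L2_rpow_le {Ω : Type} [MeasurableSpace Ω] (μ : Measure Ω) [IsProbabilityMeasure μ]
    (q : ℝ) (hq : 2 ≤ q) (f : Lp ℝ ∞ μ) (g : Lp ℝ 2 μ) (hfg : (g : Ω → ℝ) =ᵐ[μ] (f : Ω → ℝ)) :
    ‖g‖ ^ q ≤ ∫ ω, |(f : Ω → ℝ) ω| ^ q ∂μ := by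
  have hq0 : 0 < q := by linarith
  have hf : MemLp (f : Ω → ℝ) (ENNReal.ofReal q) μ := (Lp.memLp f).mono_exponent le_top
  have h2q : (2 : ℝ≥0∞) ≤ ENNReal.ofReal q := by
    have : (2 : ℝ≥0∞) = ENNReal.ofReal 2 := by norm_num
    rw [this]
    exact ENNReal.ofReal_le_ofReal hq
  have h1 : ‖g‖ ≤ (∫ ω, |(f : Ω → ℝ) ω| ^ q ∂μ) ^ q⁻¹ := by
    rw [Lp.norm_def, eLpNorm_congr_ae hfg]
    have h3 := eLpNorm_le_eLpNorm_of_exponent_le (μ := μ) h2q (Lp.aestronglyMeasurable f)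
    rw [hf.eLpNorm_eq_integral_rpow_norm (by simpa using hq0) ENNReal.ofReal_ne_top,
      ENNReal.toReal_ofReal hq0.le] at h3
    have h4 := ENNReal.toReal_mono ENNReal.ofReal_ne_top h3
    rw [ENNReal.toReal_ofReal (by positivity)] at h4
    exact h4
  have h0 : 0 ≤ ∫ ω, |(f : Ω → ℝ) ω| ^ q ∂μ := integral_nonneg (fun ω => by positivity)
  calc ‖g‖ ^ q ≤ ((∫ ω, |(f : Ω → ℝ) ω| ^ q ∂μ) ^ q⁻¹) ^ q :=
        Real.rpow_le_rpow (norm_nonneg _) h1 hq0.le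
    _ = ∫ ω, |(f : Ω → ℝ) ω| ^ q ∂μ := by
        rw [← Real.rpow_mul h0, inv_mul_cancel₀ hq0.ne', Real.rpow_one]

end Pool.Agent.BAPp.Inclu
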