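import Mathlib
import Pool.Agent.BAPp.Defs
import Pool.Agent.BAPp.Sgn

open MeasureTheory
open scoped ENNReal NNReal

set_option maxSynthPendingDepth 3

namespace Pool.Agent.BAPp.InnerA




open Finset
open scoped InnerProductSpace

theorem inner_inequality (p q : ℝ) (hpq : p.HolderConjugate q) (hp2 : p < 2)
    [Fact (1 ≤ ENNReal.ofReal p)] {X Γ : Type} [NormedAddCommGroup X] [NormedSpace ℝ X]
    (x : Γ → X)
    (signs : ∀ (T : X →L[ℝ] X) {m : ℕ} (xs : Fin m → (X →L[ℝ] ℝ)) (z : Fin m → X),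
      (∀ y, T y = ∑ k, xs k y • z k) → ∀ (a b : ℝ), 0 ≤ a → 0 ≤ b →
      (∑ e : Fin m → Bool, ‖∑ k, sgn (e k) • xs k‖ ^ q ≤ 2 ^ m * a ^ q) →
      (∀ f : X →L[ℝ] ℝ, ‖f‖ ≤ 1 → ∑ k, (f (z k)) ^ 2 ≤ b ^ 2) →
      gNorm p T ≤ ENNReal.ofReal (a * ((4 * q ^ q) ^ (1 / q) * b)))
    (hilb : ∀ (H : Type) [NormedAddCommGroup H] [InnerProductSpace ℝ H] [CompleteSpace H]
      (V : X →L[ℝ] H) (B : H →L[ℝ] ((X →L[ℝ] ℝ) →L[ℝ] ℝ)) (S : X →L[ℝ] X),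
      FiniteDimensional ℝ (LinearMap.range (S : X →ₗ[ℝ] X)) →
      (∀ (x : X) (f : X →L[ℝ] ℝ), f (S x) = B (V x) f) →
      ∃ (m : ℕ) (e : Fin m → H) (z : Fin m → X), Orthonormal ℝ e ∧
        (∀ k (f : X →L[ℝ] ℝ), f (z k) = B (e k) f) ∧
        ∀ x, S x = ∑ k, ⟪e k, V x⟫_ℝ • z k)
    (sumsigns : ∀ {m : ℕ} (xs : Fin m → (X →L[ℝ] ℝ)) (C : ℝ), 0 ≤ C →
      (∀ F : Finset Γ, ∑ g ∈ F, (∑ k, (xs k (x g)) ^ 2) ^ (q / 2) ≤ C ^ q) →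
      ∑ e : Fin m → Bool, ‖∑ k, sgn (e k) • xs k‖ ^ q ≤ 2 ^ m * (4 * q ^ q * C ^ q))
    (inclu : ∀ {Ω : Type} [MeasurableSpace Ω] (μ : Measure Ω) [IsProbabilityMeasure μ]
      (r s : ℝ≥0∞) [Fact (1 ≤ r)] [Fact (1 ≤ s)], s ≤ r →
      ∃ J : Lp ℝ r μ →L[ℝ] Lp ℝ s μ, ‖J‖ ≤ 1 ∧
        ∀ f : Lp ℝ r μ, (J f : Ω → ℝ) =ᵐ[μ] (f : Ω → ℝ))
    (l2le : ∀ {Ω : Type} [MeasurableSpace Ω] (μ : Measure Ω) [IsProbabilityMeasure μ]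
      (f : Lp ℝ ∞ μ) (g : Lp ℝ 2 μ), (g : Ω → ℝ) =ᵐ[μ] (f : Ω → ℝ) →
      ‖g‖ ^ q ≤ ∫ ω, |(f : Ω → ℝ) ω| ^ q ∂μ)
    (sumint : ∀ {Ω : Type} [MeasurableSpace Ω] (μ : Measure Ω) [IsProbabilityMeasure μ]
      (A : X →L[ℝ] Lp ℝ ∞ μ) (F : Finset Γ),
      ∑ g ∈ F, ∫ ω, |(A (x g) : Ω → ℝ) ω| ^ q ∂μ ≤ ‖A‖ ^ q)
    (S : X →L[ℝ] X) (hS : FiniteRank S) :
    gNorm p S ≤ ENNReal.ofReal (((4 * q ^ q) ^ (1 / q)) ^ 2) * iNorm p S := by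
  have hq0 : 0 < q := hpq.symm.pos
  have hp0 : 0 < p := hpq.pos
  set K : ℝ := (4 * q ^ q) ^ (1 / q) with hK
  have hqq : 0 < q ^ q := Real.rpow_pos_of_pos hq0 q
  have hKpos : 0 < K := Real.rpow_pos_of_pos (by positivity) _
  have hKq : K ^ q = 4 * q ^ q := by
    rw [hK, ← Real.rpow_mul (by positivity), one_div, inv_mul_cancel₀ hq0.ne', Real.rpow_one]
  have hc0 : ENNReal.ofReal (K ^ 2) ≠ 0 := by
    rw [Ne, ENNReal.ofReal_eq_zero, not_le]; positivity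
  have hct : ENNReal.ofReal (K ^ 2) ≠ ⊤ := ENNReal.ofReal_ne_top
  unfold iNorm
  simp_rw [ENNReal.mul_iInf_of_ne hc0 hct]
  refine le_iInf fun Ω => le_iInf fun mΩ => le_iInf fun μ => le_iInf fun hμ => le_iInf fun A =>
    le_iInf fun B => le_iInf fun hfac => ?_
  have hp2' : ENNReal.ofReal p ≤ 2 := by
    rw [show (2 : ℝ≥0∞) = ENNReal.ofReal 2 by simp]
    exact ENNReal.ofReal_le_ofReal hp2.le
  obtain ⟨J1, hJ1, hJ1'⟩ := inclu μ ∞ 2 le_top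
  obtain ⟨J2, hJ2, hJ2'⟩ := inclu μ 2 (ENNReal.ofReal p) hp2'
  set V : X →L[ℝ] Lp ℝ 2 μ := J1 ∘L A with hV
  set B2 : Lp ℝ 2 μ →L[ℝ] ((X →L[ℝ] ℝ) →L[ℝ] ℝ) := B ∘L J2 with hB2
  have hB2n : ‖B2‖ ≤ ‖B‖ := by
    refine (ContinuousLinearMap.opNorm_comp_le B J2).trans ?_
    calc ‖B‖ * ‖J2‖ ≤ ‖B‖ * 1 := mul_le_mul_of_nonneg_left hJ2 (norm_nonneg _)
      _ = ‖B‖ := mul_one _
  have hJJ : ∀ g : Lp ℝ ∞ μ, J2 (J1 g) = incl μ (ENNReal.ofReal p) g := by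
    intro g
    apply Lp.ext
    refine (hJ2' _).trans ((hJ1' g).trans ?_)
    exact (MemLp.coeFn_toLp _).symm
  obtain ⟨m, e, z, he, hz, hrep⟩ := hilb (Lp ℝ 2 μ) V B2 S hS (by
    intro y f
    rw [hfac y f, hB2, hV]
    simp only [ContinuousLinearMap.comp_apply]
    rw [hJJ])
  set xs : Fin m → (X →L[ℝ] ℝ) := fun k => (innerSL ℝ (e k)) ∘L V with hxs
  have hxs' : ∀ k y, xs k y = ⟪e k, V y⟫_ℝ := fun k y => rfl
  have hbes : ∀ y, ∑ k, (xs k y) ^ 2 ≤ ‖V y‖ ^ 2 := by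
    intro y
    have h := he.sum_inner_products_le (x := V y) (s := Finset.univ)
    refine le_trans (le_of_eq ?_) h
    refine Finset.sum_congr rfl fun k _ => ?_
    rw [hxs', Real.norm_eq_abs, sq_abs]
  have hsum : ∀ F : Finset Γ, ∑ g ∈ F, (∑ k, (xs k (x g)) ^ 2) ^ (q / 2) ≤ ‖A‖ ^ q := by
    intro F
    refine le_trans (Finset.sum_le_sum fun g _ => ?_) (sumint μ A F)
    refine le_trans ?_ (l2le μ (A (x g)) (V (x g)) (hJ1' _))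
    calc (∑ k, (xs k (x g)) ^ 2) ^ (q / 2) ≤ (‖V (x g)‖ ^ 2) ^ (q / 2) :=
          Real.rpow_le_rpow (Finset.sum_nonneg fun _ _ => sq_nonneg _) (hbes _) (by positivity)
      _ = ‖V (x g)‖ ^ q := by
          rw [← Real.rpow_natCast, ← Real.rpow_mul (norm_nonneg _)]
          congr 1
          push_cast
          ring
  have h1 := sumsigns xs ‖A‖ (norm_nonneg _) hsum
  have haq : (K * ‖A‖) ^ q = 4 * q ^ q * ‖A‖ ^ q := by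
    rw [Real.mul_rpow hKpos.le (norm_nonneg _), hKq]
  rw [← haq] at h1
  have h2 : ∀ f : X →L[ℝ] ℝ, ‖f‖ ≤ 1 → ∑ k, (f (z k)) ^ 2 ≤ ‖B‖ ^ 2 := by
    intro f hf
    set c : Fin m → ℝ := fun k => f (z k) with hc
    set w : Lp ℝ 2 μ := ∑ k, c k • e k with hw
    have hw2 : ‖w‖ ^ 2 = ∑ k, (c k) ^ 2 := by
      rw [← real_inner_self_eq_norm_sq, hw, he.inner_sum]
      refine Finset.sum_congr rfl fun k _ => ?_
      simp [pow_two]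
    have hs : ∑ k, (c k) ^ 2 = B2 w f := by
      rw [hw, map_sum, _root_.sum_apply]
      refine Finset.sum_congr rfl fun k _ => ?_
      rw [map_smul, _root_.smul_apply, smul_eq_mul, ← hz k f, pow_two]
    have hb : B2 w f ≤ ‖B‖ * ‖w‖ := by
      calc B2 w f ≤ ‖B2 w f‖ := le_abs_self _
        _ ≤ ‖B2 w‖ * ‖f‖ := ContinuousLinearMap.le_opNorm _ _
        _ ≤ ‖B2 w‖ * 1 := mul_le_mul_of_nonneg_left hf (norm_nonneg _)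
        _ = ‖B2 w‖ := mul_one _
        _ ≤ ‖B2‖ * ‖w‖ := ContinuousLinearMap.le_opNorm _ _
        _ ≤ ‖B‖ * ‖w‖ := mul_le_mul_of_nonneg_right hB2n (norm_nonneg _)
    change ∑ k, (c k) ^ 2 ≤ ‖B‖ ^ 2
    rw [← hw2]
    rw [← hs, ← hw2] at hb
    have h0 : ‖w‖ ≤ ‖B‖ := by
      by_contra hcon
      push Not at hcon
      have hwp : 0 < ‖w‖ := lt_of_le_of_lt (norm_nonneg _) hcon
      nlinarith
    exact pow_le_pow_left₀ (norm_nonneg _) h0 2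
  have h3 := signs S xs z (fun y => hrep y) (K * ‖A‖) ‖B‖ (by positivity) (norm_nonneg _)
    h1 h2
  refine h3.trans (le_of_eq ?_)
  rw [← ENNReal.ofReal_mul (by positivity)]
  congr 1
  ring

end Pool.Agent.BAPp.InnerA
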