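import Mathlib
import Pool.Agent.BAPp.Sgn

open Finset

namespace Pool.Agent.BAPp.Khin

lemma sgn_sq (b : Bool) : sgn b * sgn b = 1 := by
  cases b <;> simp [sgn]

lemma abs_sgn (b : Bool) : |sgn b| = 1 := by
  cases b <;> simp [sgn]

/-- exponential moment of a sign sum -/
lemma sum_exp_le {ι : Type*} [Fintype ι] [DecidableEq ι] (a : ι → ℝ) :
    ∑ e : ι → Bool, Real.exp (∑ i, sgn (e i) * a i)
      ≤ 2 ^ (Fintype.card ι) * Real.exp ((∑ i, a i ^ 2) / 2) := by
  have h1 : ∑ e : ι → Bool, Real.exp (∑ i, sgn (e i) * a i)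
      = ∏ i, ∑ b : Bool, Real.exp (sgn b * a i) := by
    rw [Finset.prod_univ_sum]
    simp only [Fintype.piFinset_univ]
    refine Finset.sum_congr rfl fun e _ => ?_
    rw [Real.exp_sum]
  rw [h1]
  have h2 : ∀ i, ∑ b : Bool, Real.exp (sgn b * a i) ≤ 2 * Real.exp (a i ^ 2 / 2) := by
    intro i
    have h := Real.cosh_le_exp_half_sq (a i)
    rw [Real.cosh_eq] at h
    simp only [Fintype.sum_bool, sgn]
    simp
    linarith
  calc ∏ i, ∑ b : Bool, Real.exp (sgn b * a i) ≤ ∏ i, (2 * Real.exp (a i ^ 2 / 2)) :=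
        Finset.prod_le_prod (fun i _ => Finset.sum_nonneg fun b _ => (Real.exp_pos _).le)
          (fun i _ => h2 i)
    _ = 2 ^ (Fintype.card ι) * Real.exp ((∑ i, a i ^ 2) / 2) := by
        rw [Finset.prod_mul_distrib, ← Real.exp_sum, Finset.sum_div]
        simp

/-- Khinchine's inequality (upper bound) with a crude constant, for sums over all signs. -/
lemma khinchine {ι : Type*} [Fintype ι] [DecidableEq ι] (a : ι → ℝ) (q : ℝ) (hq : 1 ≤ q) :
    ∑ e : ι → Bool, |∑ i, sgn (e i) * a i| ^ q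
      ≤ 2 ^ (Fintype.card ι) * (4 * q ^ q * (∑ i, a i ^ 2) ^ (q / 2)) := by
  have hq0 : 0 < q := lt_of_lt_of_le one_pos hq
  have hs0 : 0 ≤ ∑ i, a i ^ 2 := Finset.sum_nonneg fun i _ => sq_nonneg _
  rcases hs0.eq_or_lt with hs | hs
  · have ha : ∀ i, a i = 0 := by
      intro i
      have := (Finset.sum_eq_zero_iff_of_nonneg (fun i _ => sq_nonneg (a i))).1 hs.symm i
        (Finset.mem_univ i)
      exact pow_eq_zero_iff (two_ne_zero) |>.1 this
    have h0 : ∑ e : ι → Bool, |∑ i, sgn (e i) * a i| ^ q = 0 := by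
      refine Finset.sum_eq_zero fun e _ => ?_
      have : ∑ i, sgn (e i) * a i = 0 := Finset.sum_eq_zero fun i _ => by rw [ha i, mul_zero]
      rw [this, abs_zero, Real.zero_rpow hq0.ne']
    rw [h0]
    have : (0:ℝ) ≤ q ^ q := Real.rpow_nonneg hq0.le _
    have : (0:ℝ) ≤ (∑ i, a i ^ 2) ^ (q / 2) := Real.rpow_nonneg hs0 _
    positivity
  · set s := ∑ i, a i ^ 2 with hsdef
    have hr : 0 < Real.sqrt s := Real.sqrt_pos.2 hs
    have key : ∀ x : ℝ, |x| ^ q ≤ q ^ q * (Real.exp x + Real.exp (-x)) := by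
      intro x
      have h1 : |x| / q ≤ Real.exp (|x| / q) := by
        have := Real.add_one_le_exp (|x| / q)
        linarith
      have h2 : (|x| / q) ^ q ≤ Real.exp |x| := by
        calc (|x| / q) ^ q ≤ (Real.exp (|x| / q)) ^ q :=
              Real.rpow_le_rpow (by positivity) h1 hq0.le
          _ = Real.exp |x| := by
              rw [← Real.exp_mul]
              congr 1
              field_simp
      have h3 : Real.exp |x| ≤ Real.exp x + Real.exp (-x) := by
        rcases abs_cases x with ⟨h, _⟩ | ⟨h, _⟩ <;> rw [h]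
        · linarith [Real.exp_pos (-x)]
        · linarith [Real.exp_pos x]
      have h4 : |x| ^ q = q ^ q * (|x| / q) ^ q := by
        rw [← Real.mul_rpow hq0.le (by positivity)]
        congr 1
        field_simp
      rw [h4]
      exact mul_le_mul_of_nonneg_left (h2.trans h3) (Real.rpow_nonneg hq0.le _)
    have hbs : ∑ i, (a i / Real.sqrt s) ^ 2 = 1 := by
      simp only [div_pow]
      rw [← Finset.sum_div, Real.sq_sqrt hs0, ← hsdef, div_self hs.ne']
    have hbs' : ∑ i, (-(a i / Real.sqrt s)) ^ 2 = 1 := by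
      simp only [neg_sq]
      exact hbs
    have e1 := sum_exp_le (fun i => a i / Real.sqrt s)
    have e2 := sum_exp_le (fun i => -(a i / Real.sqrt s))
    rw [hbs] at e1
    rw [hbs'] at e2
    have hexp : Real.exp (1/2) ≤ 2 := by
      have h := Real.exp_one_lt_d9
      have h1 : Real.exp (1/2) ^ 2 = Real.exp 1 := by
        rw [← Real.exp_nat_mul]
        norm_num
      nlinarith [Real.exp_pos (1/2)]
    have hterm : ∀ e : ι → Bool, |∑ i, sgn (e i) * a i| ^ q
        ≤ s ^ (q / 2) * (q ^ q * (Real.exp (∑ i, sgn (e i) * (a i / Real.sqrt s))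
          + Real.exp (∑ i, sgn (e i) * (-(a i / Real.sqrt s))))) := by
      intro e
      have h1 : ∑ i, sgn (e i) * a i = Real.sqrt s * ∑ i, sgn (e i) * (a i / Real.sqrt s) := by
        rw [Finset.mul_sum]
        refine Finset.sum_congr rfl fun i _ => ?_
        field_simp
      have h2 : ∑ i, sgn (e i) * (-(a i / Real.sqrt s))
          = - ∑ i, sgn (e i) * (a i / Real.sqrt s) := by
        rw [← Finset.sum_neg_distrib]
        refine Finset.sum_congr rfl fun i _ => ?_
        ring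
      rw [h1, h2, abs_mul, abs_of_pos hr, Real.mul_rpow hr.le (abs_nonneg _)]
      have h3 : Real.sqrt s ^ q = s ^ (q / 2) := by
        rw [Real.sqrt_eq_rpow, ← Real.rpow_mul hs0]
        congr 1
        ring
      rw [h3]
      exact mul_le_mul_of_nonneg_left (key _) (Real.rpow_nonneg hs0 _)
    calc ∑ e : ι → Bool, |∑ i, sgn (e i) * a i| ^ q
        ≤ ∑ e : ι → Bool, s ^ (q / 2) * (q ^ q * (Real.exp (∑ i, sgn (e i) * (a i / Real.sqrt s))
          + Real.exp (∑ i, sgn (e i) * (-(a i / Real.sqrt s))))) :=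
          Finset.sum_le_sum fun e _ => hterm e
      _ = s ^ (q / 2) * (q ^ q * ((∑ e : ι → Bool, Real.exp (∑ i, sgn (e i) * (a i / Real.sqrt s)))
          + ∑ e : ι → Bool, Real.exp (∑ i, sgn (e i) * (-(a i / Real.sqrt s))))) := by
          rw [← Finset.mul_sum, ← Finset.mul_sum, Finset.sum_add_distrib]
      _ ≤ s ^ (q / 2) * (q ^ q * (2 ^ (Fintype.card ι) * 2 + 2 ^ (Fintype.card ι) * 2)) := by
          have hq' : (0:ℝ) ≤ q ^ q := Real.rpow_nonneg hq0.le _
          have hs' : (0:ℝ) ≤ s ^ (q / 2) := Real.rpow_nonneg hs0 _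
          have h2n : (0:ℝ) ≤ 2 ^ (Fintype.card ι) := by positivity
          refine mul_le_mul_of_nonneg_left (mul_le_mul_of_nonneg_left ?_ hq') hs'
          exact add_le_add (e1.trans (mul_le_mul_of_nonneg_left hexp h2n))
            (e2.trans (mul_le_mul_of_nonneg_left hexp h2n))
      _ = 2 ^ (Fintype.card ι) * (4 * q ^ q * s ^ (q / 2)) := by ring

end Pool.Agent.BAPp.Khin
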