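import Mathlib


open MeasureTheory Finset
open scoped ENNReal NNReal

namespace Pool.Agent.BAPp.SumInt

theorem ae_abs_le_norm {Ω : Type} [MeasurableSpace Ω] {μ : Measure Ω} (h : Lp ℝ ∞ μ) :
    ∀ᵐ ω ∂μ, |(h : Ω → ℝ) ω| ≤ ‖h‖ := by
  filter_upwards [ae_le_eLpNormEssSup (f := (h : Ω → ℝ)) (μ := μ)] with ω hω
  have h1 : eLpNorm (h : Ω → ℝ) ∞ μ ≠ ∞ := Lp.eLpNorm_ne_top h
  rw [eLpNorm_exponent_top] at h1
  have h2 := ENNReal.toReal_mono h1 hω
  rw [toReal_enorm] at h2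
  rw [Lp.norm_def, eLpNorm_exponent_top]
  exact h2

/-- If `x_g` satisfy an upper `p`-estimate with constant one, and `A : X → L_∞(μ)`, then
`∑_{g ∈ F} ∫ |A x_g|^q ≤ ‖A‖^q`. -/
theorem sum_integral_le {X Γ Ω : Type} [NormedAddCommGroup X] [NormedSpace ℝ X]
    [MeasurableSpace Ω] (μ : Measure Ω) [IsProbabilityMeasure μ] (p q : ℝ)
    (hpq : p.HolderConjugate q) (x : Γ → X)
    (h1 : ∀ (F : Finset Γ) (a : Γ → ℝ), ‖∑ g ∈ F, a g • x g‖ ≤ (∑ g ∈ F, |a g| ^ p) ^ (1 / p))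
    (A : X →L[ℝ] Lp ℝ ∞ μ) (F : Finset Γ) :
    ∑ g ∈ F, ∫ ω, |(A (x g) : Ω → ℝ) ω| ^ q ∂μ ≤ ‖A‖ ^ q := by
  have hp0 : 0 < p := hpq.pos
  have hq0 : 0 < q := hpq.symm.pos
  have hqp : (q - 1) * p = q := hpq.symm.sub_one_mul_conj
  have h1' : ∀ a : F → ℝ, ‖∑ g : F, a g • x g‖ ≤ (∑ g : F, |a g| ^ p) ^ (1 / p) := by
    intro a
    have := h1 F (Function.extend Subtype.val a 0)
    rw [← Finset.sum_coe_sort F (fun g => Function.extend Subtype.val a 0 g • x g),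
      ← Finset.sum_coe_sort F (fun g => |Function.extend Subtype.val a 0 g| ^ p)] at this
    simpa only [Subtype.val_injective.extend_apply] using this
  have key : ∀ a : F → ℝ, ∀ᵐ ω ∂μ, |∑ g : F, a g * (A (x g) : Ω → ℝ) ω| ≤
      ‖A‖ * (∑ g : F, |a g| ^ p) ^ (1 / p) := by
    intro a
    have e1 : A (∑ g : F, a g • x g) = ∑ g : F, a g • A (x g) := by
      rw [map_sum]; simp only [map_smul]
    have e2 := Lp.coeFn_fun_finsetSum (Finset.univ : Finset F) (fun g => a g • A (x g))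
    have e3 : ∀ᵐ ω ∂μ, ∀ g : F, ((a g • A (x g) : Lp ℝ ∞ μ) : Ω → ℝ) ω = a g * (A (x g) : Ω → ℝ) ω := by
      rw [ae_all_iff]
      intro g
      filter_upwards [Lp.coeFn_smul (a g) (A (x g))] with ω hω
      rw [hω, Pi.smul_apply, smul_eq_mul]
    filter_upwards [e2, e3, ae_abs_le_norm (A (∑ g : F, a g • x g))] with ω h2 h3 h4
    have h5 : (A (∑ g : F, a g • x g) : Ω → ℝ) ω = ∑ g : F, a g * (A (x g) : Ω → ℝ) ω := by
      rw [e1, h2]
      exact Finset.sum_congr rfl fun g _ => h3 g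
    rw [← h5]
    refine h4.trans ((A.le_opNorm _).trans ?_)
    exact mul_le_mul_of_nonneg_left (h1' a) (norm_nonneg _)
  have hall : ∀ᵐ ω ∂μ, ∀ a : F → ℝ, |∑ g : F, a g * (A (x g) : Ω → ℝ) ω| ≤
      ‖A‖ * (∑ g : F, |a g| ^ p) ^ (1 / p) := by
    have h2 : ∀ᵐ ω ∂μ, ∀ n : ℕ, |∑ g : F, (TopologicalSpace.denseSeq (F → ℝ) n) g *
        (A (x g) : Ω → ℝ) ω| ≤
        ‖A‖ * (∑ g : F, |(TopologicalSpace.denseSeq (F → ℝ) n) g| ^ p) ^ (1 / p) := by
      rw [ae_all_iff]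
      exact fun n => key _
    filter_upwards [h2] with ω hω a
    refine (TopologicalSpace.denseRange_denseSeq (F → ℝ)).induction_on
      (p := fun a : F → ℝ => |∑ g : F, a g * (A (x g) : Ω → ℝ) ω| ≤
        ‖A‖ * (∑ g : F, |a g| ^ p) ^ (1 / p)) a ?_ hω
    refine isClosed_le ?_ ?_
    · fun_prop
    · refine continuous_const.mul ?_
      refine Continuous.rpow_const ?_ (fun a => Or.inr (by positivity))
      refine continuous_finsetSum _ fun g _ => ?_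
      exact Continuous.rpow_const (by fun_prop) (fun a => Or.inr hp0.le)
  have hae : ∀ᵐ ω ∂μ, ∑ g ∈ F, |(A (x g) : Ω → ℝ) ω| ^ q ≤ ‖A‖ ^ q := by
    filter_upwards [hall] with ω hω
    rw [← Finset.sum_coe_sort F (fun g => |(A (x g) : Ω → ℝ) ω| ^ q)]
    obtain ⟨T, hT⟩ : ∃ T : ℝ, T = ∑ g : F, |(A (x g) : Ω → ℝ) ω| ^ q := ⟨_, rfl⟩
    have hT0 : 0 ≤ T := by rw [hT]; positivity
    have h3 := hω (fun g : F => |(A (x g) : Ω → ℝ) ω| ^ (q - 1) * SignType.sign ((A (x g) : Ω → ℝ) ω))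
    have e1 : ∀ g : F, |(A (x g) : Ω → ℝ) ω| ^ (q - 1) * SignType.sign ((A (x g) : Ω → ℝ) ω) *
        (A (x g) : Ω → ℝ) ω = |(A (x g) : Ω → ℝ) ω| ^ q := by
      intro g
      rw [mul_assoc, sign_mul_self]
      by_cases h0 : (A (x g) : Ω → ℝ) ω = 0
      · rw [h0, abs_zero, mul_zero, Real.zero_rpow hq0.ne']
      · have hpos : 0 < |(A (x g) : Ω → ℝ) ω| := abs_pos.2 h0
        rw [Real.rpow_sub_one hpos.ne']
        field_simp
    have e2 : ∀ g : F, |(|(A (x g) : Ω → ℝ) ω| ^ (q - 1) * SignType.sign ((A (x g) : Ω → ℝ) ω))| ^ p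
        = |(A (x g) : Ω → ℝ) ω| ^ q := by
      intro g
      by_cases h0 : (A (x g) : Ω → ℝ) ω = 0
      · rw [h0, sign_zero]
        simp [Real.zero_rpow hq0.ne', Real.zero_rpow hp0.ne']
      · have hpos : 0 < |(A (x g) : Ω → ℝ) ω| := abs_pos.2 h0
        have hs : |((SignType.sign ((A (x g) : Ω → ℝ) ω) : SignType) : ℝ)| = 1 := by
          rcases lt_or_gt_of_ne h0 with h | h
          · rw [sign_neg h]; simp
          · rw [sign_pos h]; simp
        rw [abs_mul, hs, mul_one, abs_of_nonneg (Real.rpow_nonneg (abs_nonneg _) _),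
          ← Real.rpow_mul (abs_nonneg _), hqp]
    simp only [e1, e2] at h3
    rw [← hT, abs_of_nonneg hT0] at h3
    rw [← hT]
    rcases hT0.eq_or_lt with h | h
    · rw [← h]; positivity
    · have h4 : T ^ (1 / q) ≤ ‖A‖ := by
        have e3 : T ^ (1 / q) * T ^ (1 / p) = T := by
          rw [← Real.rpow_add h, one_div, one_div, add_comm, hpq.inv_add_inv_eq_one, Real.rpow_one]
        have h5 : 0 < T ^ (1 / p) := Real.rpow_pos_of_pos h _
        nlinarith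
      calc T = (T ^ (1 / q)) ^ q := by
            rw [← Real.rpow_mul hT0, one_div, inv_mul_cancel₀ hq0.ne', Real.rpow_one]
        _ ≤ ‖A‖ ^ q := Real.rpow_le_rpow (Real.rpow_nonneg hT0 _) h4 hq0.le
  have hint : ∀ g ∈ F, Integrable (fun ω => |(A (x g) : Ω → ℝ) ω| ^ q) μ := by
    intro g _
    refine Integrable.of_bound ?_ (‖A (x g)‖ ^ q) ?_
    · exact ((Lp.aestronglyMeasurable (A (x g))).norm.aemeasurable.pow_const q).aestronglyMeasurable
    · filter_upwards [ae_abs_le_norm (A (x g))] with ω hω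
      rw [Real.norm_of_nonneg (by positivity)]
      exact Real.rpow_le_rpow (abs_nonneg _) hω hq0.le
  rw [← integral_finsetSum _ hint]
  calc ∫ ω, ∑ g ∈ F, |(A (x g) : Ω → ℝ) ω| ^ q ∂μ ≤ ∫ _ω, ‖A‖ ^ q ∂μ :=
        integral_mono_ae (integrable_finsetSum _ hint) (integrable_const _) hae
    _ = ‖A‖ ^ q := by simp

end Pool.Agent.BAPp.SumInt
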