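import Mathlib
import Pool.Agent.BAPp.Sgn

open Finset

namespace Pool.Agent.BAPp.SumSigns

/-- Averages over signs of `q`-th powers of dual norms. -/
theorem sum_norm_signs_le {X Γ : Type} [NormedAddCommGroup X] [NormedSpace ℝ X] (q : ℝ)
    (hq : 1 ≤ q) (x : Γ → X)
    (h2 : ∀ (f : X →L[ℝ] ℝ) (C : ℝ), 0 ≤ C → (∀ F : Finset Γ, ∑ g ∈ F, |f (x g)| ^ q ≤ C ^ q) →
      ‖f‖ ≤ C)
    (khin : ∀ {m : ℕ} (a : Fin m → ℝ), ∑ e : Fin m → Bool, |∑ i, sgn (e i) * a i| ^ q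
      ≤ 2 ^ m * (4 * q ^ q * (∑ i, a i ^ 2) ^ (q / 2)))
    {m : ℕ} (xs : Fin m → (X →L[ℝ] ℝ)) (C : ℝ) (hC : 0 ≤ C)
    (hF : ∀ F : Finset Γ, ∑ g ∈ F, (∑ k, (xs k (x g)) ^ 2) ^ (q / 2) ≤ C ^ q) :
    ∑ e : Fin m → Bool, ‖∑ k, sgn (e k) • xs k‖ ^ q ≤ 2 ^ m * (4 * q ^ q * C ^ q) := by
  have hq0 : 0 < q := by linarith
  set f : (Fin m → Bool) → (X →L[ℝ] ℝ) := fun e => ∑ k, sgn (e k) • xs k with hf
  set G : (Fin m → Bool) → Γ → ℝ := fun e g => |f e (x g)| ^ q with hG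
  have hG0 : ∀ e g, 0 ≤ G e g := fun e g => Real.rpow_nonneg (abs_nonneg _) _
  have hfe : ∀ e g, f e (x g) = ∑ k, sgn (e k) * xs k (x g) := by
    intro e g
    simp [hf]
  have hk : ∀ g, ∑ e, G e g ≤ 2 ^ m * (4 * q ^ q * (∑ k, (xs k (x g)) ^ 2) ^ (q / 2)) := by
    intro g
    have h := khin (fun k => xs k (x g))
    simp only [hG, hfe]
    exact h
  have hD : ∀ F : Finset Γ, ∑ g ∈ F, ∑ e, G e g ≤ 2 ^ m * (4 * q ^ q * C ^ q) := by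
    intro F
    calc ∑ g ∈ F, ∑ e, G e g
        ≤ ∑ g ∈ F, 2 ^ m * (4 * q ^ q * (∑ k, (xs k (x g)) ^ 2) ^ (q / 2)) :=
          Finset.sum_le_sum fun g _ => hk g
      _ = 2 ^ m * (4 * q ^ q * ∑ g ∈ F, (∑ k, (xs k (x g)) ^ 2) ^ (q / 2)) := by
          rw [Finset.mul_sum, Finset.mul_sum]
      _ ≤ 2 ^ m * (4 * q ^ q * C ^ q) := by
          have := hF F
          gcongr
  have hsum : ∀ e, Summable (G e) := by
    intro e
    refine summable_of_sum_le (c := 2 ^ m * (4 * q ^ q * C ^ q)) (hG0 e) fun F => ?_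
    refine le_trans ?_ (hD F)
    refine Finset.sum_le_sum fun g _ => ?_
    exact Finset.single_le_sum (f := fun e => G e g) (fun e _ => hG0 e g) (Finset.mem_univ e)
  have hs : ∀ e, ‖f e‖ ^ q ≤ ∑' g, G e g := by
    intro e
    have hs0 : 0 ≤ ∑' g, G e g := tsum_nonneg (hG0 e)
    have h3 : ‖f e‖ ≤ (∑' g, G e g) ^ q⁻¹ := by
      refine h2 (f e) _ (Real.rpow_nonneg hs0 _) fun F => ?_
      rw [Real.rpow_inv_rpow hs0 hq0.ne']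
      exact (hsum e).sum_le_tsum F fun g _ => hG0 e g
    calc ‖f e‖ ^ q ≤ ((∑' g, G e g) ^ q⁻¹) ^ q :=
          Real.rpow_le_rpow (norm_nonneg _) h3 hq0.le
      _ = ∑' g, G e g := Real.rpow_inv_rpow hs0 hq0.ne'
  calc ∑ e, ‖f e‖ ^ q ≤ ∑ e, ∑' g, G e g := Finset.sum_le_sum fun e _ => hs e
    _ = ∑' g, ∑ e, G e g := (Summable.tsum_finsetSum fun e _ => hsum e).symm
    _ ≤ 2 ^ m * (4 * q ^ q * C ^ q) :=
        Real.tsum_le_of_sum_le (fun g => Finset.sum_nonneg fun e _ => hG0 e g) hD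

end Pool.Agent.BAPp.SumSigns
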