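import Mathlib
import Pool.Agent.BAPp.Defs
import Pool.Agent.BAPp.Sgn
import Pool.Agent.BAPp.Khin
import Pool.Agent.BAPp.SumInt
import Pool.Agent.BAPp.Hilb
import Pool.Agent.BAPp.SumSigns
import Pool.Agent.BAPp.Inclu
import Pool.Agent.BAPp.GLe
import Pool.Agent.BAPp.GSigns
import Pool.Agent.BAPp.InnerA

open MeasureTheory Finset
open scoped ENNReal NNReal InnerProductSpace

set_option maxSynthPendingDepth 3

namespace Pool.Agent.BAPp

theorem khin_fin (q : ℝ) (hq : 1 ≤ q) {m : ℕ} (a : Fin m → ℝ) :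
    ∑ e : Fin m → Bool, |∑ i, sgn (e i) * a i| ^ q
      ≤ 2 ^ m * (4 * q ^ q * (∑ i, a i ^ 2) ^ (q / 2)) := by
  have := Khin.khinchine a q hq
  simpa using this

/-- The inner inequality in spaces generated by a sequence with `ℓ_p` upper estimates and
dual norm dominated by the `ℓ_q` norm. -/
theorem inner_ineq (p q : ℝ) (hpq : p.HolderConjugate q) (hp2 : p < 2)
    [Fact (1 ≤ ENNReal.ofReal p)] {X Γ : Type} [NormedAddCommGroup X] [NormedSpace ℝ X]
    (x : Γ → X)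
    (h1 : ∀ (F : Finset Γ) (a : Γ → ℝ), ‖∑ g ∈ F, a g • x g‖ ≤ (∑ g ∈ F, |a g| ^ p) ^ (1 / p))
    (h2 : ∀ (f : X →L[ℝ] ℝ) (C : ℝ), 0 ≤ C → (∀ F : Finset Γ, ∑ g ∈ F, |f (x g)| ^ q ≤ C ^ q) →
      ‖f‖ ≤ C)
    (S : X →L[ℝ] X) (hS : FiniteRank S) :
    gNorm p S ≤ ENNReal.ofReal (((4 * q ^ q) ^ (1 / q)) ^ 2) * iNorm p S := by
  have hq2 : 2 < q := by
    have h := hpq.symm.conjugate_eq
    have hp1 : 1 < p := hpq.lt
    have hq := hpq.conjugate_eq
    rw [hq, lt_div_iff₀ (by linarith)]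
    linarith
  have hq1 : 1 ≤ q := by linarith
  refine InnerA.inner_inequality p q hpq hp2 x ?_ ?_ ?_ ?_ ?_ ?_ S hS
  · intro T m xs z hT a b ha0 hb0 ha hb
    refine GSigns.gNorm_le_signs p q hpq hp2 T ?_ (fun {m} a => khin_fin q hq1 a) xs z hT a b ha0 hb0 ha hb
    intro ι _ ys xs hT a b ha0 hb0 ha hb
    exact GLe.gNorm_le_of p q hpq T ys xs hT a b ha0 hb0 ha hb
  · intro H _ _ _ V B S hS hfac
    exact Hilb.hilbert_repr V B S hS hfac
  · intro m xs C hC hF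
    exact SumSigns.sum_norm_signs_le q hq1 x h2 (fun {m} a => khin_fin q hq1 a) xs C hC hF
  · intro Ω _ μ _ r s _ _ hsr
    exact Inclu.exists_inclusion μ r s hsr
  · intro Ω _ μ _ f g hfg
    exact Inclu.norm_L2_rpow_le μ q hq2.le f g hfg
  · intro Ω _ μ _ A F
    exact SumInt.sum_integral_le μ p q hpq x h1 A F

end Pool.Agent.BAPp
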