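import Mathlib
import Pool.Agent.BAPp.SysDefs

open Finset
open scoped ENNReal NNReal

set_option maxSynthPendingDepth 3

namespace Pool.Agent.BAPp.KeyC




/-- the key identity on the closed span of the hat vectors -/
theorem key_closure (p q : ℝ) (hpq : p.HolderConjugate q)
    [Fact (1 ≤ ENNReal.ofReal p)] [Fact (1 ≤ ENNReal.ofReal q)] (r : ℝ) (hr0 : 0 < r)
    (sg tt : ℕ → ℕ → ℕ → ℝ)
    (hsum : Summable (rho r)) (hnn : ∀ g, 0 ≤ rho r g)
    (diag : ∀ (d : ℕ × ℕ → ℝ), Summable (fun g => |d g| ^ p) →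
      ∃ D : lp (fun _ : ℕ × ℕ => ℝ) (ENNReal.ofReal q) →L[ℝ]
        lp (fun _ : ℕ × ℕ => ℝ) (ENNReal.ofReal p),
        ∀ y g, (D y : ℕ × ℕ → ℝ) g = d g * (y : ℕ × ℕ → ℝ) g)
    (hat : ∀ (l i : ℕ), ∃ v : lp (fun _ : ℕ × ℕ => ℝ) (ENNReal.ofReal q),
      ∀ x, (v : ℕ × ℕ → ℝ) x = (rho r x) ^ (1 / q) * ee sg tt l i x)
    (alpha : ∀ (K j : ℕ), ∃ al : lp (fun _ : ℕ × ℕ => ℝ) (ENNReal.ofReal q) →L[ℝ] ℝ,
      ∀ (y : lp (fun _ : ℕ × ℕ => ℝ) (ENNReal.ofReal q)) (f : ℕ × ℕ → ℝ),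
        (∀ x, (y : ℕ × ℕ → ℝ) x = (rho r x) ^ (1 / q) * f x) →
        al y = (1 / 2 ^ (K + 2)) * ∑ g ∈ range (2 ^ (K + 2)), sg K j g * f (K, g))
    (biorth : ∀ (l i : ℕ), i < 2 ^ l → ∀ K, ∀ j < 2 ^ K,
      (1 / 2 ^ (K + 2)) * ∑ g ∈ range (2 ^ (K + 2)),
        sg K j g * ee sg tt l i (K, g) = if l = K ∧ i = j then (1:ℝ) else 0)
    (W : lp (fun _ : ℕ × ℕ => ℝ) (ENNReal.ofReal p) →L[ℝ]
      lp (fun _ : ℕ × ℕ => ℝ) (ENNReal.ofReal q))
    (onhat : ∀ (l i : ℕ), i < 2 ^ l → ∀ (K : ℕ) (a : lp (fun _ : ℕ × ℕ => ℝ) (ENNReal.ofReal p)),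
      (∀ g, (a : ℕ × ℕ → ℝ) g = (rho r g) ^ (1 / p) * (if K ≤ g.1 then 1 else 0) *
        (-((rho r g) ^ (1 / q) * ee sg tt l i g))) → ∀ (x : ℕ × ℕ),
      (W a : ℕ × ℕ → ℝ) x = (rho r x) ^ (1 / q) *
        (if l = K then (1 / 2 ^ K) * ee sg tt l i x else 0))
    (Y0 : Submodule ℝ (lp (fun _ : ℕ × ℕ => ℝ) (ENNReal.ofReal q)))
    (hY0 : Y0 = (Submodule.span ℝ {v : lp (fun _ : ℕ × ℕ => ℝ) (ENNReal.ofReal q) |
      ∃ l i : ℕ, i < 2 ^ l ∧ ∀ x, (v : ℕ × ℕ → ℝ) x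
        = (rho r x) ^ (1 / q) * ee sg tt l i x}).topologicalClosure) (K : ℕ) :
    ∃ (n : ℕ) (α : Fin n → (lp (fun _ : ℕ × ℕ => ℝ) (ENNReal.ofReal q) →L[ℝ] ℝ))
      (v : Fin n → lp (fun _ : ℕ × ℕ => ℝ) (ENNReal.ofReal q)),
      (∀ j, v j ∈ Y0) ∧ ∑ j, α j (v j) = 1 ∧
      ∀ y ∈ Y0, ∀ a : lp (fun _ : ℕ × ℕ => ℝ) (ENNReal.ofReal p),
        (∀ g, (a : ℕ × ℕ → ℝ) g = (rho r g) ^ (1 / p) * (if K ≤ g.1 then 1 else 0) *
          (-(y : ℕ × ℕ → ℝ) g)) →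
        W a = ∑ j, α j y • v j := by
  choose h hh using hat
  choose al hal using alpha
  have hp0 : 0 < p := hpq.pos
  have h2K : (2 : ℝ) ^ K ≠ 0 := by positivity
  -- the diagonal operator
  obtain ⟨D, hD⟩ := diag (fun g => -(rho r g) ^ (1 / p) * (if K ≤ g.1 then 1 else 0)) (by
    refine Summable.of_nonneg_of_le (fun g => Real.rpow_nonneg (abs_nonneg _) _) (fun g => ?_) hsum
    by_cases hK : K ≤ g.1
    · rw [if_pos hK, mul_one, abs_neg, abs_of_nonneg (Real.rpow_nonneg (hnn g) _),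
        ← Real.rpow_mul (hnn g), one_div, inv_mul_cancel₀ hp0.ne', Real.rpow_one]
    · rw [if_neg hK, mul_zero, abs_zero, Real.zero_rpow hp0.ne']
      exact hnn g)
  refine ⟨2 ^ K, fun j => al K j, fun j => (1 / 2 ^ K : ℝ) • h K j, ?_, ?_, ?_⟩
  · intro j
    refine Y0.smul_mem _ ?_
    rw [hY0]
    exact Submodule.le_topologicalClosure _ (Submodule.subset_span ⟨K, j, j.2, hh K j⟩)
  · have h1 : ∀ j : Fin (2 ^ K), al K j ((1 / 2 ^ K : ℝ) • h K j) = 1 / 2 ^ K := by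
      intro j
      rw [map_smul, hal K j (h K j) (ee sg tt K j) (hh K j), biorth K j j.2 K j j.2,
        if_pos ⟨rfl, rfl⟩, smul_eq_mul, mul_one]
    rw [Finset.sum_congr rfl (fun j _ => h1 j), Finset.sum_const, Finset.card_univ,
      Fintype.card_fin, nsmul_eq_mul]
    push_cast
    field_simp
  · intro y hy a ha
    have hDa : a = D y := by
      refine lp.ext ?_
      funext g
      rw [ha g, hD y g]
      ring
    subst hDa
    let L1 : lp (fun _ : ℕ × ℕ => ℝ) (ENNReal.ofReal q) →L[ℝ]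
      lp (fun _ : ℕ × ℕ => ℝ) (ENNReal.ofReal q) := W.comp D
    let L2 : lp (fun _ : ℕ × ℕ => ℝ) (ENNReal.ofReal q) →L[ℝ]
      lp (fun _ : ℕ × ℕ => ℝ) (ENNReal.ofReal q) :=
      ∑ j : Fin (2 ^ K), (al K j).smulRight ((1 / 2 ^ K : ℝ) • h K j)
    have hL2 : ∀ z, L2 z = ∑ j : Fin (2 ^ K), al K j z • ((1 / 2 ^ K : ℝ) • h K j) := by
      intro z
      simp only [L2, _root_.sum_apply, ContinuousLinearMap.smulRight_apply]
    have hle : Y0 ≤ LinearMap.ker ((L1 - L2 : lp (fun _ : ℕ × ℕ => ℝ) (ENNReal.ofReal q) →L[ℝ]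
      lp (fun _ : ℕ × ℕ => ℝ) (ENNReal.ofReal q)) : lp (fun _ : ℕ × ℕ => ℝ) (ENNReal.ofReal q) →ₗ[ℝ]
      lp (fun _ : ℕ × ℕ => ℝ) (ENNReal.ofReal q)) := by
      rw [hY0]
      refine Submodule.topologicalClosure_minimal _ ?_ (ContinuousLinearMap.isClosed_ker _)
      rw [Submodule.span_le]
      rintro z ⟨l, i, hi, hz⟩
      show L1 z - L2 z = 0
      rw [sub_eq_zero, hL2]
      refine lp.ext ?_
      funext x
      have e1 : (L1 z : ℕ × ℕ → ℝ) x = (rho r x) ^ (1 / q) *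
          (if l = K then (1 / 2 ^ K) * ee sg tt l i x else 0) := by
        refine onhat l i hi K (D z) ?_ x
        intro g
        rw [hD z g, hz g]
        ring
      rw [e1]
      have e2 : ∀ j : Fin (2 ^ K), al K j z = if l = K ∧ i = j then (1:ℝ) else 0 := by
        intro j
        rw [hal K j z (ee sg tt l i) hz, biorth l i hi K j j.2]
      simp only [e2]
      rw [lp.coeFn_sum, Finset.sum_apply]
      by_cases hl : l = K
      · subst hl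
        rw [if_pos rfl, Finset.sum_eq_single (⟨i, hi⟩ : Fin (2 ^ l))]
        · rw [if_pos ⟨rfl, rfl⟩, one_smul, lp.coeFn_smul, Pi.smul_apply, hh l i x, smul_eq_mul]
          ring
        · intro j _ hj
          rw [if_neg, zero_smul]
          · rfl
          · rintro ⟨-, hij⟩
            exact hj (Fin.ext hij.symm)
        · intro hn
          exact absurd (Finset.mem_univ _) hn
      · rw [if_neg hl, mul_zero]
        symm
        refine Finset.sum_eq_zero (fun j _ => ?_)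
        rw [if_neg (fun hc => hl hc.1), zero_smul]
        rfl
    have hfin : L1 y - L2 y = 0 := hle hy
    rw [sub_eq_zero, hL2] at hfin
    exact hfin

end Pool.Agent.BAPp.KeyC
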