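import Mathlib
import Pool.Agent.BAPp.SysDefs

open Finset
open scoped ENNReal NNReal

set_option maxSynthPendingDepth 3

namespace Pool.Agent.BAPp.OnHat




theorem koh_ee_zero (sg tt : ℕ → ℕ → ℕ → ℝ) (l i : ℕ) (g : ℕ × ℕ)
    (h : ¬ g.1 < l + 1 ∨ 2 ^ (g.1 + 2) ≤ g.2) : ee sg tt l i g = 0 := by
  unfold ee
  rcases h with h | h
  · have h1 : g.1 ≠ l := by omega
    have h2 : g.1 + 1 ≠ l := by omega
    simp [h1, h2]
  · simp [not_lt.mpr h]

theorem koh_rep {p : ℝ} [Fact (1 ≤ ENNReal.ofReal p)] (S : Finset (ℕ × ℕ))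
    (a : lp (fun _ : ℕ × ℕ => ℝ) (ENNReal.ofReal p))
    (ha : ∀ g, g ∉ S → (a : ℕ × ℕ → ℝ) g = 0) :
    a = ∑ g ∈ S, (a : ℕ × ℕ → ℝ) g • lp.single (ENNReal.ofReal p) g (1:ℝ) := by
  ext x
  rw [lp.coeFn_sum, Finset.sum_apply]
  by_cases hx : x ∈ S
  · rw [Finset.sum_eq_single x]
    · simp
    · intro g _ hg
      rw [lp.coeFn_smul, Pi.smul_apply, lp.single_apply_ne _ _ _ hg.symm, smul_zero]
    · intro h; exact absurd hx h
  · rw [ha x hx]
    symm
    apply Finset.sum_eq_zero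
    intro g hg
    have : x ≠ g := fun h => hx (h ▸ hg)
    rw [lp.coeFn_smul, Pi.smul_apply, lp.single_apply_ne _ _ _ this, smul_zero]

/-- the key identity on the vectors `ê^l_i` -/
theorem key_on_hat (p q : ℝ) (hpq : p.HolderConjugate q)
    [Fact (1 ≤ ENNReal.ofReal p)] [Fact (1 ≤ ENNReal.ofReal q)] (r : ℝ) (hr0 : 0 < r) (hr1 : r < 1)
    (sg tt : ℕ → ℕ → ℕ → ℝ)
    (W : lp (fun _ : ℕ × ℕ => ℝ) (ENNReal.ofReal p) →L[ℝ]
      lp (fun _ : ℕ × ℕ => ℝ) (ENNReal.ofReal q))
    (hW : ∀ g h, (W (lp.single (ENNReal.ofReal p) g (1:ℝ)) : ℕ × ℕ → ℝ) h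
      = (rho r h) ^ (1 / q) * (phi sg tt g h / rho r g))
    (l i : ℕ) (hi : i < 2 ^ l)
    (ident : ∀ k x, ∑ g ∈ range (2 ^ (k + 2)), ee sg tt l i (k, g) * phi sg tt (k, g) x
      = (if l = k + 1 then (1 / 2 ^ l) * ee sg tt l i x else 0)
        - (if l = k then (1 / 2 ^ l) * ee sg tt l i x else 0))
    (K : ℕ) (a : lp (fun _ : ℕ × ℕ => ℝ) (ENNReal.ofReal p))
    (ha : ∀ g, (a : ℕ × ℕ → ℝ) g = (rho r g) ^ (1 / p) * (if K ≤ g.1 then 1 else 0) *
      (-((rho r g) ^ (1 / q) * ee sg tt l i g))) (x : ℕ × ℕ) :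
    (W a : ℕ × ℕ → ℝ) x = (rho r x) ^ (1 / q) *
      (if l = K then (1 / 2 ^ K) * ee sg tt l i x else 0) := by
  have hsupp : ∀ g, g ∉ (range (l + 1) ×ˢ range (2 ^ (l + 2))) → (a : ℕ × ℕ → ℝ) g = 0 := by
    intro g hg
    rw [ha g, koh_ee_zero sg tt l i g, mul_zero, neg_zero, mul_zero]
    by_contra hc
    push_neg at hc
    apply hg
    rw [Finset.mem_product, Finset.mem_range, Finset.mem_range]
    refine ⟨hc.1, lt_of_lt_of_le hc.2 (Nat.pow_le_pow_right (by norm_num) (by omega))⟩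
  have hrep := koh_rep _ a hsupp
  have h1 : (W a : ℕ × ℕ → ℝ) x = ∑ g ∈ (range (l + 1) ×ˢ range (2 ^ (l + 2))),
      (a : ℕ × ℕ → ℝ) g * ((rho r x) ^ (1 / q) * (phi sg tt g x / rho r g)) := by
    conv_lhs => rw [hrep, map_sum]
    rw [lp.coeFn_sum, Finset.sum_apply]
    apply Finset.sum_congr rfl
    intro g _
    rw [map_smul, lp.coeFn_smul, Pi.smul_apply, hW, smul_eq_mul]
  have h2 : ∀ g, (a : ℕ × ℕ → ℝ) g * ((rho r x) ^ (1 / q) * (phi sg tt g x / rho r g)) =
      (rho r x) ^ (1 / q) * (-(if K ≤ g.1 then (1:ℝ) else 0) * (ee sg tt l i g * phi sg tt g x)) := by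
    intro g
    by_cases hg : g.2 < 2 ^ (g.1 + 2)
    · have hpos : 0 < rho r g := by
        unfold rho
        rw [if_pos hg]
        positivity
      have hsum : (rho r g) ^ (1 / p) * (rho r g) ^ (1 / q) = rho r g := by
        rw [← Real.rpow_add hpos]
        have : 1 / p + 1 / q = 1 := by
          have := hpq.inv_add_inv_eq_one
          simpa [one_div] using this
        rw [this, Real.rpow_one]
      rw [ha g]
      have hne := hpos.ne'
      calc (rho r g) ^ (1 / p) * (if K ≤ g.1 then 1 else 0) *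
            (-((rho r g) ^ (1 / q) * ee sg tt l i g)) *
            ((rho r x) ^ (1 / q) * (phi sg tt g x / rho r g))
          = -((rho r g) ^ (1 / p) * (rho r g) ^ (1 / q)) * (if K ≤ g.1 then 1 else 0) *
            (ee sg tt l i g) * ((rho r x) ^ (1 / q) * (phi sg tt g x / rho r g)) := by ring
        _ = _ := by
            rw [hsum]
            field_simp
    · have hz : ee sg tt l i g = 0 := koh_ee_zero sg tt l i g (Or.inr (not_lt.mp hg))
      rw [ha g, hz]
      ring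
  rw [h1, Finset.sum_congr rfl (fun g _ => h2 g), ← Finset.mul_sum]
  congr 1
  rw [Finset.sum_product]
  have h3 : ∀ k ∈ range (l + 1), ∑ g ∈ range (2 ^ (l + 2)),
      -(if K ≤ ((k, g) : ℕ × ℕ).1 then (1:ℝ) else 0) * (ee sg tt l i (k, g) * phi sg tt (k, g) x) =
      -(if K ≤ k then (1:ℝ) else 0) * ((if l = k + 1 then (1 / 2 ^ l) * ee sg tt l i x else 0)
        - (if l = k then (1 / 2 ^ l) * ee sg tt l i x else 0)) := by
    intro k hk
    rw [← ident k x, Finset.mul_sum]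
    symm
    apply Finset.sum_subset
    · intro g hg
      rw [Finset.mem_range] at hg hk ⊢
      exact lt_of_lt_of_le hg (Nat.pow_le_pow_right (by norm_num) (by omega))
    · intro g _ hg
      rw [Finset.mem_range, not_lt] at hg
      rw [koh_ee_zero sg tt l i (k, g) (Or.inr hg)]
      ring
  rw [Finset.sum_congr rfl h3]
  set c : ℝ := (1 / 2 ^ l) * ee sg tt l i x with hc
  rw [Finset.sum_range_succ]
  have h4 : (if l = K then (1 / 2 ^ K) * ee sg tt l i x else 0) = if l = K then c else 0 := by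
    by_cases h : l = K
    · rw [if_pos h, if_pos h, hc, h]
    · rw [if_neg h, if_neg h]
  rw [h4]
  have h5 : ∑ k ∈ range l, -(if K ≤ k then (1:ℝ) else 0) * ((if l = k + 1 then c else 0)
        - (if l = k then c else 0)) = -(if K + 1 ≤ l then c else 0) := by
    cases l with
    | zero => simp
    | succ m =>
      rw [Finset.sum_range_succ, Finset.sum_eq_zero]
      · by_cases h : K ≤ m
        · simp [h]
        · simp [h]
      · intro k hk
        rw [Finset.mem_range] at hk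
        rw [if_neg (by omega : ¬ m + 1 = k + 1), if_neg (by omega : ¬ m + 1 = k)]
        ring
  rw [h5]
  rw [if_neg (by omega : ¬ l = l + 1), if_pos rfl]
  rcases lt_trichotomy l K with h | h | h
  · rw [if_neg (by omega), if_neg (by omega), if_neg (by omega)]; ring
  · rw [if_neg (by omega), if_pos (by omega), if_pos h]; ring
  · rw [if_pos (by omega), if_pos (by omega), if_neg (by omega)]; ring

end Pool.Agent.BAPp.OnHat
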