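import Mathlib
import Pool.Agent.BAPp.Defs

open MeasureTheory
open scoped ENNReal NNReal

set_option maxSynthPendingDepth 3

namespace Pool.Agent.BAPp.OuterA




/-- Abstract form of the failure of the outer inequality. -/
theorem outer_fails {Γ : Type} [DecidableEq Γ] [Countable Γ] (p q : ℝ)
    (hpq : p.HolderConjugate q)
    [Fact (1 ≤ ENNReal.ofReal p)] [Fact (1 ≤ ENNReal.ofReal q)]
    (gNorm_lower : ∀ {Y X : Type} [NormedAddCommGroup Y]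
      [NormedSpace ℝ Y] [NormedAddCommGroup X] [NormedSpace ℝ X]
      (ρ : Γ → ℝ), (∀ g, 0 ≤ ρ g) → Summable ρ → 0 < ∑' g, ρ g →
      ∀ (M : ℝ), 0 < M → ∀ (u : X →L[ℝ] Y) (fh : Γ → (X →L[ℝ] ℝ)), (∀ h, ‖fh h‖ ≤ M) →
      (∀ x, ‖u x‖ ^ q ≤ ∑' h, ρ h * |fh h x| ^ q) →
      ∀ (T : Y →L[ℝ] X) {m : ℕ} (al : Fin m → (Y →L[ℝ] ℝ)) (v : Fin m → Y),
      (∀ y, u (T y) = ∑ j, al j y • v j) → ∑ j, al j (v j) = 1 →
      ENNReal.ofReal (1 / ((∑' g, ρ g) ^ (1 / q) * M)) ≤ gNorm p T)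
    (iNorm_le : ∀ {Y X : Type} [NormedAddCommGroup Y] [NormedSpace ℝ Y]
      [NormedAddCommGroup X] [NormedSpace ℝ X]
      (d : Γ → ℝ), (∀ g, 0 ≤ d g) → Summable (fun g => d g ^ p) → 0 < ∑' g, d g ^ p →
      ∀ (η : Γ → (Y →L[ℝ] ℝ)), (∀ g, ‖η g‖ ≤ 1) →
      ∀ (R : lp (fun _ : Γ => ℝ) (ENNReal.ofReal p) →L[ℝ] X), ‖R‖ ≤ 1 →
      ∀ (T : Y →L[ℝ] X),
      (∀ (y : Y) (a : lp (fun _ : Γ => ℝ) (ENNReal.ofReal p)),
        (∀ g, (a : Γ → ℝ) g = d g * η g y) → T y = R a) →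
      iNorm p T ≤ ENNReal.ofReal ((∑' g, d g ^ p) ^ (1 / p)))
    (diag : ∀ (d : Γ → ℝ), Summable (fun g => |d g| ^ p) →
      ∃ D : lp (fun _ : Γ => ℝ) (ENNReal.ofReal q) →L[ℝ] lp (fun _ : Γ => ℝ) (ENNReal.ofReal p),
        ∀ y g, (D y : Γ → ℝ) g = d g * (y : Γ → ℝ) g)
    (ρ : Γ → ℝ) (hρ0 : ∀ g, 0 ≤ ρ g) (hρ : Summable ρ)
    (M : ℝ) (hM : 0 < M)
    (W : lp (fun _ : Γ => ℝ) (ENNReal.ofReal p) →L[ℝ] lp (fun _ : Γ => ℝ) (ENNReal.ofReal q))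
    (Y0 : Submodule ℝ (lp (fun _ : Γ => ℝ) (ENNReal.ofReal q)))
    (hY0 : IsClosed (Y0 : Set (lp (fun _ : Γ => ℝ) (ENNReal.ofReal q))))
    (N : Submodule ℝ (lp (fun _ : Γ => ℝ) (ENNReal.ofReal p)))
    [hN : IsClosed (N : Set (lp (fun _ : Γ => ℝ) (ENNReal.ofReal p)))]
    (u : (lp (fun _ : Γ => ℝ) (ENNReal.ofReal p) ⧸ N) →L[ℝ] Y0)
    (fh : Γ → ((lp (fun _ : Γ => ℝ) (ENNReal.ofReal p) ⧸ N) →L[ℝ] ℝ))
    (huW : ∀ a, (u (N.mkQ a) : lp (fun _ : Γ => ℝ) (ENNReal.ofReal q)) = W a)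
    (hinj : Function.Injective u) (hfh : ∀ h, ‖fh h‖ ≤ M)
    (hun : ∀ x, ‖u x‖ ^ q ≤ ∑' h, ρ h * |fh h x| ^ q)
    (χ : ℕ → Γ → ℝ) (hχ0 : ∀ K g, χ K g = 0 ∨ χ K g = 1)
    (hχpos : ∀ K, 0 < ∑' g, ρ g * χ K g)
    (hχlim : Filter.Tendsto (fun K => ∑' g, ρ g * χ K g) Filter.atTop (nhds 0))
    (key : ∀ K, ∃ (n : ℕ) (α : Fin n → (lp (fun _ : Γ => ℝ) (ENNReal.ofReal q) →L[ℝ] ℝ))
      (v : Fin n → lp (fun _ : Γ => ℝ) (ENNReal.ofReal q)),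
      (∀ j, v j ∈ Y0) ∧ ∑ j, α j (v j) = 1 ∧
      ∀ y ∈ Y0, ∀ a : lp (fun _ : Γ => ℝ) (ENNReal.ofReal p),
        (∀ g, (a : Γ → ℝ) g = (ρ g) ^ (1 / p) * χ K g * (-(y : Γ → ℝ) g)) →
        W a = ∑ j, α j y • v j)
    (lam : ℝ≥0) :
    ∃ (Y : Type) (_ : NormedAddCommGroup Y) (_ : NormedSpace ℝ Y) (_ : CompleteSpace Y)
      (T : Y →L[ℝ] (lp (fun _ : Γ => ℝ) (ENNReal.ofReal p) ⧸ N)),
      FiniteRank T ∧ (lam : ℝ≥0∞) * iNorm p T < gNorm p T := by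
  classical
  have hp0 : 0 < p := hpq.pos
  have hq0 : 0 < q := hpq.symm.pos
  -- summability
  have hsumK : ∀ K, Summable fun g => ρ g * χ K g := by
    intro K
    refine Summable.of_nonneg_of_le (fun g => ?_) (fun g => ?_) hρ
    · rcases hχ0 K g with h | h <;> rw [h]
      · rw [mul_zero]
      · rw [mul_one]; exact hρ0 g
    · rcases hχ0 K g with h | h <;> rw [h]
      · rw [mul_zero]; exact hρ0 g
      · rw [mul_one]
  have hS : 0 < ∑' g, ρ g := by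
    refine lt_of_lt_of_le (hχpos 0) ((hsumK 0).tsum_le_tsum (fun g => ?_) hρ)
    rcases hχ0 0 g with h | h <;> rw [h]
    · rw [mul_zero]; exact hρ0 g
    · rw [mul_one]
  obtain ⟨κ, hκ⟩ : ∃ κ, κ = 1 / ((∑' g, ρ g) ^ (1 / q) * M) := ⟨_, rfl⟩
  have hκ0 : 0 < κ := by rw [hκ]; positivity
  -- choose K
  have hlim : Filter.Tendsto (fun K => (lam : ℝ) * (∑' g, ρ g * χ K g) ^ (1 / p)) Filter.atTop
      (nhds 0) := by
    have h1 := (hχlim.rpow_const (p := 1 / p) (Or.inr (by positivity))).const_mul (lam : ℝ)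
    rw [Real.zero_rpow (by positivity), mul_zero] at h1
    exact h1
  obtain ⟨K, hK⟩ := (hlim.eventually (gt_mem_nhds hκ0)).exists
  obtain ⟨d, hd⟩ : ∃ d : Γ → ℝ, d = fun g => (ρ g) ^ (1 / p) * χ K g := ⟨_, rfl⟩
  have hd0 : ∀ g, 0 ≤ d g := by
    intro g
    rw [hd]
    have h1 : 0 ≤ (ρ g) ^ (1 / p) := Real.rpow_nonneg (hρ0 g) _
    rcases hχ0 K g with h | h
    · show 0 ≤ (ρ g) ^ (1 / p) * χ K g
      rw [h, mul_zero]
    · show 0 ≤ (ρ g) ^ (1 / p) * χ K g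
      rw [h, mul_one]; exact h1
  have hdp : ∀ g, d g ^ p = ρ g * χ K g := by
    intro g
    rw [hd]
    show ((ρ g) ^ (1 / p) * χ K g) ^ p = _
    rcases hχ0 K g with h | h
    · rw [h, mul_zero, mul_zero, Real.zero_rpow hp0.ne']
    · rw [h, mul_one, mul_one, ← Real.rpow_mul (hρ0 g), one_div_mul_cancel hp0.ne', Real.rpow_one]
  have hdp' : (fun g => d g ^ p) = fun g => ρ g * χ K g := funext hdp
  have hdabs : (fun g => |d g| ^ p) = fun g => ρ g * χ K g := by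
    funext g
    rw [abs_of_nonneg (hd0 g), hdp]
  obtain ⟨D, hD⟩ := diag d (by rw [hdabs]; exact hsumK K)
  -- the operator
  obtain ⟨T, hT⟩ : ∃ T : Y0 →L[ℝ] (lp (fun _ : Γ => ℝ) (ENNReal.ofReal p) ⧸ N),
      ∀ y : Y0, T y = N.mkQ (D (-(y : lp (fun _ : Γ => ℝ) (ENNReal.ofReal q)))) := by
    refine ⟨N.mkQL ∘L (D ∘L (-Y0.subtypeL)), ?_⟩
    intro y
    rfl
  obtain ⟨n, α, v, hv, hαv, hW⟩ := key K
  obtain ⟨v', hv'⟩ : ∃ v' : Fin n → Y0, v' = fun j => ⟨v j, hv j⟩ := ⟨_, rfl⟩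
  obtain ⟨al, hal⟩ : ∃ al : Fin n → (Y0 →L[ℝ] ℝ), al = fun j => (α j) ∘L Y0.subtypeL := ⟨_, rfl⟩
  have huT : ∀ y : Y0, u (T y) = ∑ j, al j y • v' j := by
    intro y
    apply Subtype.ext
    rw [hT, huW, hW (y : lp (fun _ : Γ => ℝ) (ENNReal.ofReal q)) y.2 _ ?_]
    · rw [hal, hv']
      simp
    · intro g
      rw [hD, hd]
      rfl
  have hbi : ∑ j, al j (v' j) = 1 := by
    rw [hal, hv', ← hαv]
    rfl
  have hg : ENNReal.ofReal κ ≤ gNorm p T := by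
    rw [hκ]
    exact gNorm_lower ρ hρ0 hρ hS M hM u fh hfh hun T al v' huT hbi
  -- the functionals
  have hq1 : ENNReal.ofReal q ≠ 0 := by
    rw [Ne, ENNReal.ofReal_eq_zero]
    push Not
    exact hq0
  obtain ⟨η, hη, hηn⟩ : ∃ η : Γ → (Y0 →L[ℝ] ℝ),
      (∀ g (y : Y0), η g y = -((y : lp (fun _ : Γ => ℝ) (ENNReal.ofReal q)) : Γ → ℝ) g) ∧
      ∀ g, ‖η g‖ ≤ 1 := by
    have hb : ∀ (g : Γ) (y : Y0),
        ‖-((y : lp (fun _ : Γ => ℝ) (ENNReal.ofReal q)) : Γ → ℝ) g‖ ≤ 1 * ‖y‖ := by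
      intro g y
      rw [norm_neg, one_mul]
      exact lp.norm_apply_le_norm hq1 (y : lp (fun _ : Γ => ℝ) (ENNReal.ofReal q)) g
    refine ⟨fun g => LinearMap.mkContinuous
      { toFun := fun y : Y0 => -((y : lp (fun _ : Γ => ℝ) (ENNReal.ofReal q)) : Γ → ℝ) g
        map_add' := by
          intro x y
          simp [lp.coeFn_add]
          ring
        map_smul' := by
          intro c x
          simp [lp.coeFn_smul] } 1 (hb g), ?_, ?_⟩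
    · intro g y
      rfl
    · intro g
      exact LinearMap.mkContinuous_norm_le _ zero_le_one _
  have hR : ‖N.mkQL‖ ≤ 1 := by
    refine ContinuousLinearMap.opNorm_le_bound _ zero_le_one fun a => ?_
    rw [one_mul]
    exact Submodule.Quotient.norm_mk_le N a
  have hi : iNorm p T ≤ ENNReal.ofReal ((∑' g, ρ g * χ K g) ^ (1 / p)) := by
    rw [← hdp']
    refine iNorm_le d hd0 (by rw [hdp']; exact hsumK K) (by rw [hdp']; exact hχpos K) η hηn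
      N.mkQL hR T ?_
    intro y a ha
    rw [hT]
    have h1 : D (-(y : lp (fun _ : Γ => ℝ) (ENNReal.ofReal q))) = a := by
      apply lp.ext
      funext g
      rw [hD, ha, hη]
      rfl
    rw [h1]
    rfl
  refine ⟨Y0, inferInstance, inferInstance, hY0.completeSpace_coe, T, ?_, ?_⟩
  · -- finite rank
    unfold FiniteRank
    have hspan : FiniteDimensional ℝ (Submodule.span ℝ (Set.range v')) :=
      FiniteDimensional.span_of_finite ℝ (Set.finite_range v')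
    have hmem : ∀ x : LinearMap.range (T : Y0 →ₗ[ℝ] (lp (fun _ : Γ => ℝ) (ENNReal.ofReal p) ⧸ N)),
        ((u : (lp (fun _ : Γ => ℝ) (ENNReal.ofReal p) ⧸ N) →ₗ[ℝ] Y0).comp
          (LinearMap.range (T : Y0 →ₗ[ℝ] (lp (fun _ : Γ => ℝ) (ENNReal.ofReal p) ⧸ N))).subtype) x ∈
          Submodule.span ℝ (Set.range v') := by
      rintro ⟨_, ⟨y, rfl⟩⟩
      show u (T y) ∈ _
      rw [huT]
      exact Submodule.sum_mem _ fun j _ => Submodule.smul_mem _ _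
        (Submodule.subset_span ⟨j, rfl⟩)
    refine FiniteDimensional.of_injective (LinearMap.codRestrict
      (Submodule.span ℝ (Set.range v')) _ hmem) ?_
    intro x y hxy
    have h1 := congrArg Subtype.val hxy
    exact Subtype.ext (hinj h1)
  · calc (lam : ℝ≥0∞) * iNorm p T ≤
          (lam : ℝ≥0∞) * ENNReal.ofReal ((∑' g, ρ g * χ K g) ^ (1 / p)) := by gcongr
      _ = ENNReal.ofReal ((lam : ℝ) * (∑' g, ρ g * χ K g) ^ (1 / p)) := by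
          rw [ENNReal.ofReal_mul lam.coe_nonneg, ENNReal.ofReal_coe_nnreal]
      _ < ENNReal.ofReal κ := (ENNReal.ofReal_lt_ofReal_iff hκ0).2 hK
      _ ≤ gNorm p T := hg

end Pool.Agent.BAPp.OuterA
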