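import Mathlib
import Pool.Agent.BAPp.SysDefs

open Finset

namespace Pool.Agent.BAPp.PhiB




theorem phi_same (sg tt : ℕ → ℕ → ℕ → ℝ) {k g h : ℕ} (hg : g < 2 ^ (k + 2)) (hh : h < 2 ^ (k + 2)) :
    phi sg tt (k, g) (k, h) = (1 / 2 ^ (k + 2) * (1 / 2 ^ (k + 1))) *
      (∑ j ∈ range (2 ^ (k + 1)), tt k j g * tt k j h
          - 2 * ∑ j ∈ range (2 ^ k), sg k j g * sg k j h) := by
  have h1 : ∀ j, ee sg tt (k + 1) j (k, h) = tt k j h := by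
    intro j
    simp [ee, hh]
  have h2 : ∀ j, ee sg tt k j (k, h) = sg k j h := by
    intro j
    simp [ee, hh]
  unfold phi
  rw [if_pos hg]
  simp only [h1, h2]
  have e : (1 : ℝ) / 2 ^ k = (1 / 2 ^ (k + 1)) * 2 := by
    rw [pow_succ]
    field_simp
  rw [e]
  ring

theorem phi_up (sg tt : ℕ → ℕ → ℕ → ℝ) {k g h : ℕ} (hg : g < 2 ^ (k + 2)) (hh : h < 2 ^ (k + 3)) :
    phi sg tt (k, g) (k + 1, h) = (1 / 2 ^ (k + 2) * (1 / 2 ^ (k + 1))) *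
      (∑ j ∈ range (2 ^ (k + 1)), tt k j g * sg (k + 1) j h) := by
  have h1 : ∀ j, ee sg tt (k + 1) j (k + 1, h) = sg (k + 1) j h := by
    intro j
    simp [ee]
    intro hcon
    have : h < 2 ^ (k + 1 + 2) := hh
    omega
  have h2 : ∀ j, ee sg tt k j (k + 1, h) = 0 := by
    intro j
    simp only [ee]
    rw [if_neg (show ¬ k + 1 = k by omega), if_neg (show ¬ k + 1 + 1 = k by omega), ite_self]
  unfold phi
  rw [if_pos hg]
  simp only [h1, h2]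
  simp
  ring

theorem phi_down (sg tt : ℕ → ℕ → ℕ → ℝ) {l g h : ℕ} (hg : g < 2 ^ (l + 3)) (hh : h < 2 ^ (l + 2)) :
    phi sg tt (l + 1, g) (l, h) = -((1 / 2 ^ (l + 3) * (1 / 2 ^ (l + 1))) *
      (∑ j ∈ range (2 ^ (l + 1)), tt l j h * sg (l + 1) j g)) := by
  have h1 : ∀ j, ee sg tt (l + 1 + 1) j (l, h) = 0 := by
    intro j
    simp only [ee]
    rw [if_neg (show ¬ l = l + 1 + 1 by omega), if_neg (show ¬ l + 1 = l + 1 + 1 by omega),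
      ite_self]
  have h2 : ∀ j, ee sg tt (l + 1) j (l, h) = tt l j h := by
    intro j
    simp [ee, hh]
  unfold phi
  rw [if_pos (show g < 2 ^ (l + 1 + 2) from hg)]
  simp only [h1, h2]
  have e : ∀ j, sg (l + 1) j g * tt l j h = tt l j h * sg (l + 1) j g := fun j => mul_comm _ _
  simp only [e, mul_zero, Finset.sum_const_zero]
  ring

theorem phi_far (sg tt : ℕ → ℕ → ℕ → ℝ) (g x : ℕ × ℕ)
    (hf : ¬ (x.1 = g.1 ∨ x.1 = g.1 + 1 ∨ x.1 + 1 = g.1)) : phi sg tt g x = 0 := by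
  push Not at hf
  obtain ⟨f1, f2, f3⟩ := hf
  have h1 : ∀ j, ee sg tt (g.1 + 1) j x = 0 := by
    intro j
    simp only [ee]
    rw [if_neg f2, if_neg (show ¬ x.1 + 1 = g.1 + 1 by omega), ite_self]
  have h2 : ∀ j, ee sg tt g.1 j x = 0 := by
    intro j
    simp only [ee]
    rw [if_neg f1, if_neg f3, ite_self]
  unfold phi
  simp only [h1, h2, mul_zero, Finset.sum_const_zero, sub_self, ite_self]

theorem phi_out1 (sg tt : ℕ → ℕ → ℕ → ℝ) (g x : ℕ × ℕ) (hg : ¬ g.2 < 2 ^ (g.1 + 2)) :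
    phi sg tt g x = 0 := by
  unfold phi
  rw [if_neg hg]

theorem phi_out2 (sg tt : ℕ → ℕ → ℕ → ℝ) (g x : ℕ × ℕ) (hx : ¬ x.2 < 2 ^ (x.1 + 2)) :
    phi sg tt g x = 0 := by
  have h1 : ∀ l j, ee sg tt l j x = 0 := by
    intro l j
    unfold ee
    rw [if_neg hx]
  unfold phi
  simp only [h1, mul_zero, Finset.sum_const_zero, sub_self, ite_self]

theorem bnd_aux {k : ℕ} {S : ℝ} (h : |S| ≤ 20 * (k + 1) * Real.sqrt (2 ^ k)) :
    |(1 / 2 ^ (k + 2) * (1 / 2 ^ (k + 1))) * S| ≤ 5 * (k + 1) * Real.sqrt (2 ^ k) / 4 ^ k := by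
  have h4 : (4 : ℝ) ^ k = 2 ^ k * 2 ^ k := by
    rw [← mul_pow]
    norm_num
  have e : (1 / 2 ^ (k + 2) * (1 / 2 ^ (k + 1)) : ℝ) = 1 / (8 * 4 ^ k) := by
    rw [h4, pow_add, pow_add]
    field_simp
    norm_num
  rw [e, abs_mul, abs_of_nonneg (by positivity : (0:ℝ) ≤ 1 / (8 * 4 ^ k))]
  calc 1 / (8 * 4 ^ k) * |S| ≤ 1 / (8 * 4 ^ k) * (20 * (k + 1) * Real.sqrt (2 ^ k)) := by gcongr
    _ = (5 / 2) * ((k + 1) * Real.sqrt (2 ^ k) / 4 ^ k) := by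
        field_simp
        norm_num
    _ ≤ 5 * ((k + 1) * Real.sqrt (2 ^ k) / 4 ^ k) := by
        gcongr
        norm_num
    _ = _ := by ring

theorem bnd_aux2 {l : ℕ} {S : ℝ} (h : |S| ≤ 20 * (l + 1) * Real.sqrt (2 ^ l)) :
    |-((1 / 2 ^ (l + 3) * (1 / 2 ^ (l + 1))) * S)| ≤
      5 * (((l + 1 : ℕ) : ℝ) + 1) * Real.sqrt (2 ^ (l + 1)) / 4 ^ (l + 1) := by
  have h4 : (4 : ℝ) ^ l = 2 ^ l * 2 ^ l := by
    rw [← mul_pow]
    norm_num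
  have e : (1 / 2 ^ (l + 3) * (1 / 2 ^ (l + 1)) : ℝ) = 1 / (16 * 4 ^ l) := by
    rw [h4, pow_add, pow_add]
    field_simp
    norm_num
  rw [e, abs_neg, abs_mul, abs_of_nonneg (by positivity : (0:ℝ) ≤ 1 / (16 * 4 ^ l))]
  have hs : Real.sqrt (2 ^ l) ≤ Real.sqrt (2 ^ (l + 1)) := by
    apply Real.sqrt_le_sqrt
    exact pow_le_pow_right₀ (by norm_num) (by omega)
  calc 1 / (16 * 4 ^ l) * |S| ≤ 1 / (16 * 4 ^ l) * (20 * (l + 1) * Real.sqrt (2 ^ l)) := by gcongr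
    _ ≤ 1 / (16 * 4 ^ l) * (20 * (((l + 1 : ℕ) : ℝ) + 1) * Real.sqrt (2 ^ (l + 1))) := by
        push_cast
        gcongr
        linarith
    _ = _ := by
        rw [pow_succ 4 l]
        field_simp
        norm_num

/-- the kernel is supported near the diagonal and flat -/
theorem phi_bound (sg tt : ℕ → ℕ → ℕ → ℝ)
    (flat1 : ∀ k, ∀ g < 2 ^ (k + 2), ∀ h < 2 ^ (k + 2),
        |∑ j ∈ range (2 ^ (k + 1)), tt k j g * tt k j h
          - 2 * ∑ j ∈ range (2 ^ k), sg k j g * sg k j h| ≤ 20 * (k + 1) * Real.sqrt (2 ^ k))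
    (flat2 : ∀ k, ∀ g < 2 ^ (k + 2), ∀ h < 2 ^ (k + 3),
        |∑ j ∈ range (2 ^ (k + 1)), tt k j g * sg (k + 1) j h|
          ≤ 20 * (k + 1) * Real.sqrt (2 ^ k)) (g x : ℕ × ℕ) :
    |phi sg tt g x| ≤ 5 * (g.1 + 1) * Real.sqrt (2 ^ g.1) / 4 ^ g.1 ∧
      (¬ (x.1 = g.1 ∨ x.1 = g.1 + 1 ∨ x.1 + 1 = g.1) → phi sg tt g x = 0) := by
  refine ⟨?_, phi_far sg tt g x⟩
  have hnn : 0 ≤ 5 * ((g.1 : ℝ) + 1) * Real.sqrt (2 ^ g.1) / 4 ^ g.1 := by positivity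
  by_cases hg : g.2 < 2 ^ (g.1 + 2)
  swap
  · rw [phi_out1 sg tt g x hg, abs_zero]
    exact hnn
  by_cases hx : x.2 < 2 ^ (x.1 + 2)
  swap
  · rw [phi_out2 sg tt g x hx, abs_zero]
    exact hnn
  obtain ⟨k, g2⟩ := g
  obtain ⟨l, h⟩ := x
  simp only at hg hx hnn ⊢
  rcases eq_or_ne l k with e | e
  · subst e
    rw [phi_same sg tt hg hx]
    exact bnd_aux (flat1 l g2 hg h hx)
  rcases eq_or_ne l (k + 1) with e2 | e2
  · subst e2
    rw [phi_up sg tt hg hx]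
    exact bnd_aux (flat2 k g2 hg h hx)
  rcases eq_or_ne (l + 1) k with e3 | e3
  · subst e3
    rw [phi_down sg tt hg hx]
    exact bnd_aux2 (flat2 l h hx g2 hg)
  · rw [phi_far sg tt (k, g2) (l, h) (by
      simp only
      omega), abs_zero]
    exact hnn

end Pool.Agent.BAPp.PhiB
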