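import Mathlib


open scoped ENNReal NNReal

set_option maxSynthPendingDepth 3

namespace Pool.Agent.BAPp.Quot

/-- upper `p`-estimate for the images of the unit vectors in a quotient of `ℓ_p` -/
theorem quot_upper {Γ : Type} [DecidableEq Γ] (p : ℝ) (hp : 1 < p)
    [Fact (1 ≤ ENNReal.ofReal p)]
    (N : Submodule ℝ (lp (fun _ : Γ => ℝ) (ENNReal.ofReal p)))
    [hN : IsClosed (N : Set (lp (fun _ : Γ => ℝ) (ENNReal.ofReal p)))]
    (F : Finset Γ) (a : Γ → ℝ) :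
    ‖∑ g ∈ F, a g • (N.mkQ (lp.single (ENNReal.ofReal p) g (1:ℝ)))‖
      ≤ (∑ g ∈ F, |a g| ^ p) ^ (1 / p) := by
  have hp0 : 0 < p := by linarith
  have hpr : (ENNReal.ofReal p).toReal = p := ENNReal.toReal_ofReal hp0.le
  have e1 : ∑ g ∈ F, a g • (N.mkQ (lp.single (ENNReal.ofReal p) g (1:ℝ))) =
      N.mkQ (∑ g ∈ F, lp.single (ENNReal.ofReal p) g (a g)) := by
    rw [map_sum]
    refine Finset.sum_congr rfl fun g _ => ?_
    rw [← map_smul, ← lp.single_smul, smul_eq_mul, mul_one]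
  rw [e1]
  refine (Submodule.Quotient.norm_mk_le N _).trans ?_
  have h2 := lp.norm_sum_single (E := fun _ : Γ => ℝ) (p := ENNReal.ofReal p)
    (by rw [hpr]; exact hp0) a F
  rw [hpr] at h2
  simp only [Real.norm_eq_abs (a _)] at h2
  rw [← h2, ← Real.rpow_mul (norm_nonneg _), mul_one_div_cancel hp0.ne', Real.rpow_one]

/-- the dual norm in a quotient of `ℓ_p` is at most the `ℓ_q` norm of the coordinates -/
theorem quot_dual {Γ : Type} [DecidableEq Γ] (p q : ℝ) (hpq : p.HolderConjugate q)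
    [Fact (1 ≤ ENNReal.ofReal p)]
    (N : Submodule ℝ (lp (fun _ : Γ => ℝ) (ENNReal.ofReal p)))
    [hN : IsClosed (N : Set (lp (fun _ : Γ => ℝ) (ENNReal.ofReal p)))]
    (f : (lp (fun _ : Γ => ℝ) (ENNReal.ofReal p) ⧸ N) →L[ℝ] ℝ) (C : ℝ) (hC : 0 ≤ C)
    (hF : ∀ F : Finset Γ,
      ∑ g ∈ F, |f (N.mkQ (lp.single (ENNReal.ofReal p) g (1:ℝ)))| ^ q ≤ C ^ q) :
    ‖f‖ ≤ C := by
  have hp0 : 0 < p := hpq.pos
  have hq0 : 0 < q := hpq.symm.pos
  have hpr : (ENNReal.ofReal p).toReal = p := ENNReal.toReal_ofReal hp0.le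
  obtain ⟨φ, hφ⟩ : ∃ φ : lp (fun _ : Γ => ℝ) (ENNReal.ofReal p) →L[ℝ] ℝ,
      ∀ v, φ v = f (N.mkQ v) := by
    refine ⟨LinearMap.mkContinuous (f.toLinearMap ∘ₗ N.mkQ) ‖f‖ fun v => ?_, fun v => rfl⟩
    exact (f.le_opNorm _).trans (mul_le_mul_of_nonneg_left (Submodule.Quotient.norm_mk_le N v)
      (norm_nonneg f))
  have key : ∀ v : lp (fun _ : Γ => ℝ) (ENNReal.ofReal p), |φ v| ≤ C * ‖v‖ := by
    intro v
    have hs := (lp.hasSum_single (E := fun _ : Γ => ℝ) ENNReal.ofReal_ne_top v).mapL φ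
    refine le_of_tendsto ((continuous_abs.tendsto _).comp hs) (Filter.Eventually.of_forall fun F => ?_)
    show |∑ g ∈ F, φ (lp.single (ENNReal.ofReal p) g (v g))| ≤ C * ‖v‖
    have e1 : ∀ g, φ (lp.single (ENNReal.ofReal p) g (v g)) =
        v g * φ (lp.single (ENNReal.ofReal p) g (1 : ℝ)) := by
      intro g
      have : lp.single (ENNReal.ofReal p) g (v g) = v g • lp.single (E := fun _ : Γ => ℝ)
          (ENNReal.ofReal p) g (1 : ℝ) := by
        rw [← lp.single_smul, smul_eq_mul, mul_one]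
      rw [this, map_smul, smul_eq_mul]
    simp only [e1]
    have h1 : (∑ g ∈ F, |v g| ^ p) ^ (1 / p) ≤ ‖v‖ := by
      have h2 := lp.sum_rpow_le_norm_rpow (by rw [hpr]; exact hp0) v F
      rw [hpr] at h2
      simp only [Real.norm_eq_abs (v _)] at h2
      calc (∑ g ∈ F, |v g| ^ p) ^ (1 / p) ≤ (‖v‖ ^ p) ^ (1 / p) :=
            Real.rpow_le_rpow (by positivity) h2 (by positivity)
        _ = ‖v‖ := by
            rw [← Real.rpow_mul (norm_nonneg _), mul_one_div_cancel hp0.ne', Real.rpow_one]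
    have h3 : (∑ g ∈ F, |φ (lp.single (ENNReal.ofReal p) g (1 : ℝ))| ^ q) ^ (1 / q) ≤ C := by
      have h4 := hF F
      simp only [← hφ] at h4
      calc (∑ g ∈ F, |φ (lp.single (ENNReal.ofReal p) g (1 : ℝ))| ^ q) ^ (1 / q) ≤
          (C ^ q) ^ (1 / q) := Real.rpow_le_rpow (by positivity) h4 (by positivity)
        _ = C := by rw [← Real.rpow_mul hC, mul_one_div_cancel hq0.ne', Real.rpow_one]
    calc |∑ g ∈ F, v g * φ (lp.single (ENNReal.ofReal p) g (1 : ℝ))| ≤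
        ∑ g ∈ F, |v g| * |φ (lp.single (ENNReal.ofReal p) g (1 : ℝ))| := by
          refine (Finset.abs_sum_le_sum_abs _ _).trans (le_of_eq ?_)
          exact Finset.sum_congr rfl fun g _ => abs_mul _ _
      _ ≤ (∑ g ∈ F, |(|v g|)| ^ p) ^ (1 / p) *
          (∑ g ∈ F, |(|φ (lp.single (ENNReal.ofReal p) g (1 : ℝ))|)| ^ q) ^ (1 / q) :=
          Real.inner_le_Lp_mul_Lq F _ _ hpq
      _ ≤ ‖v‖ * C := by
          simp only [abs_abs]
          exact mul_le_mul h1 h3 (by positivity) (norm_nonneg _)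
      _ = C * ‖v‖ := mul_comm _ _
  refine ContinuousLinearMap.opNorm_le_bound _ hC fun x => ?_
  refine le_of_forall_pos_le_add fun ε hε => ?_
  obtain ⟨v, hv, hv2⟩ := Submodule.Quotient.norm_mk_lt x (show 0 < ε / (C + 1) by positivity)
  have h1 := key v
  rw [hφ] at h1
  have h2 : N.mkQ v = x := hv
  rw [h2] at h1
  rw [Real.norm_eq_abs]
  refine h1.trans ?_
  have h3 : C * ‖v‖ ≤ C * (‖x‖ + ε / (C + 1)) := mul_le_mul_of_nonneg_left hv2.le hC
  have h4 : C * (ε / (C + 1)) ≤ ε := by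
    rw [mul_div_assoc', div_le_iff₀ (by positivity)]
    nlinarith
  linarith

end Pool.Agent.BAPp.Quot
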