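import Mathlib
import Pool.Agent.BAPp.SysDefs

open Finset
open scoped ENNReal NNReal

set_option maxSynthPendingDepth 3

namespace Pool.Agent.BAPp.RangeW




/-- the range of `W` is contained in the closed span of the hat vectors -/
theorem range_W (p q : ℝ) (hpq : p.HolderConjugate q)
    [Fact (1 ≤ ENNReal.ofReal p)] [Fact (1 ≤ ENNReal.ofReal q)] (r : ℝ) (hr0 : 0 < r)
    (sg tt : ℕ → ℕ → ℕ → ℝ)
    (hat : ∀ (l i : ℕ), ∃ v : lp (fun _ : ℕ × ℕ => ℝ) (ENNReal.ofReal q),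
      ∀ x, (v : ℕ × ℕ → ℝ) x = (rho r x) ^ (1 / q) * ee sg tt l i x)
    (W : lp (fun _ : ℕ × ℕ => ℝ) (ENNReal.ofReal p) →L[ℝ]
      lp (fun _ : ℕ × ℕ => ℝ) (ENNReal.ofReal q))
    (hW : ∀ g h, (W (lp.single (ENNReal.ofReal p) g (1:ℝ)) : ℕ × ℕ → ℝ) h
      = (rho r h) ^ (1 / q) * (phi sg tt g h / rho r g))
    (Y0 : Submodule ℝ (lp (fun _ : ℕ × ℕ => ℝ) (ENNReal.ofReal q)))
    (hY0 : IsClosed (Y0 : Set (lp (fun _ : ℕ × ℕ => ℝ) (ENNReal.ofReal q))))
    (hmem : ∀ (l i : ℕ), i < 2 ^ l → ∀ v : lp (fun _ : ℕ × ℕ => ℝ) (ENNReal.ofReal q),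
      (∀ x, (v : ℕ × ℕ → ℝ) x = (rho r x) ^ (1 / q) * ee sg tt l i x) → v ∈ Y0) :
    ∀ a, W a ∈ Y0 := by
  choose hv hvs using hat
  have hvm : ∀ l i, i < 2 ^ l → hv l i ∈ Y0 := fun l i hi => hmem l i hi _ (hvs l i)
  have h1 : ∀ g, W (lp.single (ENNReal.ofReal p) g (1:ℝ)) ∈ Y0 := by
    intro g
    by_cases hg : g.2 < 2 ^ (g.1 + 2)
    · have heq : W (lp.single (ENNReal.ofReal p) g (1:ℝ)) =
          (rho r g)⁻¹ • ((1 / 2 ^ (g.1 + 2) : ℝ) • ((1 / 2 ^ (g.1 + 1) : ℝ) •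
            (∑ j ∈ range (2 ^ (g.1 + 1)), tt g.1 j g.2 • hv (g.1 + 1) j) -
            (1 / 2 ^ g.1 : ℝ) • ∑ j ∈ range (2 ^ g.1), sg g.1 j g.2 • hv g.1 j)) := by
        apply lp.ext
        funext h
        rw [hW]
        simp only [lp.coeFn_smul, lp.coeFn_sub, lp.coeFn_sum, Pi.smul_apply, Pi.sub_apply,
          Finset.sum_apply, smul_eq_mul, hvs]
        unfold phi
        rw [if_pos hg]
        have e1 : ∑ j ∈ range (2 ^ (g.1 + 1)),
            tt g.1 j g.2 * (rho r h ^ (1 / q) * ee sg tt (g.1 + 1) j h) =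
            rho r h ^ (1 / q) * ∑ j ∈ range (2 ^ (g.1 + 1)),
              tt g.1 j g.2 * ee sg tt (g.1 + 1) j h := by
          rw [Finset.mul_sum]
          exact Finset.sum_congr rfl fun j _ => by ring
        have e2 : ∑ j ∈ range (2 ^ g.1),
            sg g.1 j g.2 * (rho r h ^ (1 / q) * ee sg tt g.1 j h) =
            rho r h ^ (1 / q) * ∑ j ∈ range (2 ^ g.1),
              sg g.1 j g.2 * ee sg tt g.1 j h := by
          rw [Finset.mul_sum]
          exact Finset.sum_congr rfl fun j _ => by ring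
        rw [e1, e2]
        ring
      rw [heq]
      refine Y0.smul_mem _ (Y0.smul_mem _ (Y0.sub_mem (Y0.smul_mem _ (Y0.sum_mem ?_))
        (Y0.smul_mem _ (Y0.sum_mem ?_))))
      · intro j hj
        exact Y0.smul_mem _ (hvm _ _ (Finset.mem_range.1 hj))
      · intro j hj
        exact Y0.smul_mem _ (hvm _ _ (Finset.mem_range.1 hj))
    · have heq : W (lp.single (ENNReal.ofReal p) g (1:ℝ)) = 0 := by
        apply lp.ext
        funext h
        rw [hW]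
        unfold phi
        rw [if_neg hg]
        simp
      rw [heq]
      exact Y0.zero_mem
  intro a
  have h2 := (lp.hasSum_single (p := ENNReal.ofReal p) ENNReal.ofReal_ne_top a).mapL W
  refine hY0.mem_of_tendsto h2 (Filter.Eventually.of_forall fun s => Y0.sum_mem fun g _ => ?_)
  have h3 : lp.single (ENNReal.ofReal p) g ((a : ℕ × ℕ → ℝ) g) =
      ((a : ℕ × ℕ → ℝ) g) • lp.single (E := fun _ : ℕ × ℕ => ℝ) (ENNReal.ofReal p) g (1:ℝ) := by
    rw [← lp.single_smul, smul_eq_mul, mul_one]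
  rw [h3, map_smul]
  exact Y0.smul_mem _ (h1 g)

end Pool.Agent.BAPp.RangeW
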