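import Mathlib
import Pool.Agent.BAPp.SysDefs

open Finset
open scoped ENNReal NNReal

set_option maxSynthPendingDepth 3

namespace Pool.Agent.BAPp.RhoFacts




/-- elementary facts on the weights -/
theorem rho_facts (r : ℝ) (hr0 : 0 < r) (hr1 : r < 1) :
    (∀ g, 0 ≤ rho r g) ∧ Summable (rho r) ∧
    (∀ K : ℕ, 0 < ∑' g : ℕ × ℕ, rho r g * (if K ≤ g.1 then 1 else 0)) ∧
    Filter.Tendsto (fun K : ℕ => ∑' g : ℕ × ℕ, rho r g * (if K ≤ g.1 then 1 else 0))
      Filter.atTop (nhds 0) := by
  have hnn : ∀ g, 0 ≤ rho r g := by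
    intro g
    unfold rho
    split_ifs <;> positivity
  have hout : ∀ k : ℕ, ∀ y ∉ range (2 ^ (k + 2)), rho r (k, y) = 0 := by
    intro k y hy
    rw [Finset.mem_range] at hy
    unfold rho
    simp only
    rw [if_neg hy]
  have hsum : Summable (rho r) := by
    rw [summable_prod_of_nonneg hnn]
    constructor
    · intro k
      exact summable_of_ne_finset_zero (s := range (2 ^ (k + 2))) (hout k)
    · have e : ∀ k : ℕ, ∑' y, rho r (k, y) = 4 * r ^ k := by
        intro k
        rw [tsum_eq_sum (s := range (2 ^ (k + 2))) (hout k)]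
        have e2 : ∀ y ∈ range (2 ^ (k + 2)), rho r (k, y) = (r / 2) ^ k := by
          intro y hy
          rw [Finset.mem_range] at hy
          unfold rho
          simp only
          rw [if_pos hy]
        rw [Finset.sum_congr rfl e2, Finset.sum_const, Finset.card_range, nsmul_eq_mul, div_pow]
        push_cast
        rw [pow_add]
        field_simp
        norm_num
      simp only [e]
      exact (summable_geometric_of_lt_one hr0.le hr1).mul_left 4
  have hb : ∀ (K : ℕ) (g : ℕ × ℕ), 0 ≤ rho r g * (if K ≤ g.1 then 1 else 0) ∧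
      rho r g * (if K ≤ g.1 then 1 else 0) ≤ rho r g := by
    intro K g
    have := hnn g
    split_ifs
    · rw [mul_one]; exact ⟨this, le_rfl⟩
    · rw [mul_zero]; exact ⟨le_rfl, this⟩
  refine ⟨hnn, hsum, ?_, ?_⟩
  · intro K
    have hs : Summable (fun g : ℕ × ℕ => rho r g * (if K ≤ g.1 then 1 else 0)) :=
      Summable.of_nonneg_of_le (fun g => (hb K g).1) (fun g => (hb K g).2) hsum
    apply hs.tsum_pos (fun g => (hb K g).1) (K, 0)
    simp only
    rw [if_pos le_rfl, mul_one]
    unfold rho
    simp only
    rw [if_pos (by positivity)]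
    positivity
  · have h := tendsto_tsum_of_dominated_convergence (𝓕 := Filter.atTop)
      (f := fun (K : ℕ) (g : ℕ × ℕ) => rho r g * (if K ≤ g.1 then (1 : ℝ) else 0)) (g := fun _ => (0 : ℝ))
      (bound := rho r) hsum (by
        intro g
        apply tendsto_const_nhds.congr'
        filter_upwards [Filter.eventually_gt_atTop g.1] with K hK
        rw [if_neg (by omega), mul_zero]) (by
        filter_upwards with K
        intro g
        rw [Real.norm_eq_abs, abs_of_nonneg (hb K g).1]
        exact (hb K g).2)
    rw [tsum_zero] at h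
    exact h

end Pool.Agent.BAPp.RhoFacts
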