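import Mathlib
import Pool.Agent.BAPp.Sgn

open Finset

namespace Pool.Agent.BAPp.Rows

/-- choice of two disjoint flat sets of rows of a Hadamard matrix -/
theorem exists_rows (k : ℕ) (H : ℕ → ℕ → ℝ) (hH1 : ∀ i j, |H i j| = 1)
    (hcol : ∀ g < 2 ^ (k + 2), ∀ h < 2 ^ (k + 2),
      ∑ j ∈ range (2 ^ (k + 2)), H j g * H j h = if g = h then (2:ℝ) ^ (k + 2) else 0)
    (signs : ∀ (m : ℕ), 0 < m → ∀ (c : Fin (2 ^ (k + 2)) × Fin (2 ^ (k + 2)) → Fin m → ℝ) (M : ℝ),
      (∀ h i, |c h i| ≤ M) → ∃ e : Fin m → Bool, ∀ h, |∑ i, sgn (e i) * c h i|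
        ≤ Real.sqrt m * (Real.log (2 * (2 ^ (k + 2) * 2 ^ (k + 2))) + M ^ 2 / 2)) :
    ∃ a b : ℕ → ℕ, (∀ i < 2 ^ k, a i < 2 ^ (k + 2)) ∧ (∀ i < 2 ^ (k + 1), b i < 2 ^ (k + 2)) ∧
      (∀ i < 2 ^ k, ∀ j < 2 ^ k, a i = a j → i = j) ∧
      (∀ i < 2 ^ (k + 1), ∀ j < 2 ^ (k + 1), b i = b j → i = j) ∧
      (∀ i < 2 ^ k, ∀ j < 2 ^ (k + 1), a i ≠ b j) ∧
      ∀ g < 2 ^ (k + 2), ∀ h < 2 ^ (k + 2),
        |∑ j ∈ range (2 ^ (k + 1)), H (b j) g * H (b j) h
          - 2 * ∑ j ∈ range (2 ^ k), H (a j) g * H (a j) h| ≤ 20 * (k + 1) * Real.sqrt (2 ^ k) := by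
  classical
  have hp1 : 2 ^ (k + 1) = 2 * 2 ^ k := by ring
  have hp2 : 2 ^ (k + 2) = 2 * 2 ^ (k + 1) := by ring
  have hv : ∀ i g h, |H i g * H i h| = 1 := by
    intro i g h; rw [abs_mul, hH1, hH1, one_mul]
  -- first signs
  obtain ⟨e1, he1⟩ := signs (2 ^ (k + 1)) (by positivity)
    (fun gh i => H (2 * i.1) gh.1.1 * H (2 * i.1) gh.2.1
      - H (2 * i.1 + 1) gh.1.1 * H (2 * i.1 + 1) gh.2.1) 2 (by
      intro gh i
      have h1 := hv (2 * i.1) gh.1.1 gh.2.1
      have h2 := hv (2 * i.1 + 1) gh.1.1 gh.2.1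
      calc _ ≤ |H (2 * i.1) gh.1.1 * H (2 * i.1) gh.2.1| +
            |H (2 * i.1 + 1) gh.1.1 * H (2 * i.1 + 1) gh.2.1| := abs_sub _ _
        _ = 2 := by rw [h1, h2]; norm_num)
  let s : ℕ → Bool := fun i => if h : i < 2 ^ (k + 1) then e1 ⟨i, h⟩ else false
  let b : ℕ → ℕ := fun i => if s i then 2 * i else 2 * i + 1
  let r : ℕ → ℕ := fun i => if s i then 2 * i + 1 else 2 * i
  obtain ⟨e2, he2⟩ := signs (2 ^ k) (by positivity)
    (fun gh i => H (r (2 * i.1)) gh.1.1 * H (r (2 * i.1)) gh.2.1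
      - H (r (2 * i.1 + 1)) gh.1.1 * H (r (2 * i.1 + 1)) gh.2.1) 2 (by
      intro gh i
      have h1 := hv (r (2 * i.1)) gh.1.1 gh.2.1
      have h2 := hv (r (2 * i.1 + 1)) gh.1.1 gh.2.1
      calc _ ≤ |H (r (2 * i.1)) gh.1.1 * H (r (2 * i.1)) gh.2.1| +
            |H (r (2 * i.1 + 1)) gh.1.1 * H (r (2 * i.1 + 1)) gh.2.1| := abs_sub _ _
        _ = 2 := by rw [h1, h2]; norm_num)
  let s2 : ℕ → Bool := fun i => if h : i < 2 ^ k then e2 ⟨i, h⟩ else false
  let a : ℕ → ℕ := fun i => if s2 i then r (2 * i) else r (2 * i + 1)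
  have hb2 : ∀ i, b i = 2 * i ∨ b i = 2 * i + 1 := by
    intro i; by_cases hs : s i = true
    · left; simp only [b, hs, if_true]
    · right; simp only [b, hs]; simp
  have hr2 : ∀ i, r i = 2 * i ∨ r i = 2 * i + 1 := by
    intro i; by_cases hs : s i = true
    · right; simp only [r, hs, if_true]
    · left; simp only [r, hs]; simp
  have hbr : ∀ i, b i ≠ r i := by
    intro i; by_cases hs : s i = true
    · simp only [b, r, hs, if_true]; omega
    · simp only [b, r, hs]; simp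
  have ha2 : ∀ i, a i = r (2 * i) ∨ a i = r (2 * i + 1) := by
    intro i; by_cases hs : s2 i = true
    · left; simp only [a, hs, if_true]
    · right; simp only [a, hs]; simp
  refine ⟨a, b, ?_, ?_, ?_, ?_, ?_, ?_⟩
  · intro i hi
    rcases ha2 i with h | h <;> rw [h]
    · rcases hr2 (2 * i) with h' | h' <;> rw [h'] <;> omega
    · rcases hr2 (2 * i + 1) with h' | h' <;> rw [h'] <;> omega
  · intro i hi
    rcases hb2 i with h | h <;> rw [h] <;> omega
  · intro i _ j _ hij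
    have h1 : ∀ i, a i / 4 = i := by
      intro i
      rcases ha2 i with h | h <;> rw [h]
      · rcases hr2 (2 * i) with h' | h' <;> rw [h'] <;> omega
      · rcases hr2 (2 * i + 1) with h' | h' <;> rw [h'] <;> omega
    rw [← h1 i, ← h1 j, hij]
  · intro i _ j _ hij
    have h1 := hb2 i
    have h2 := hb2 j
    omega
  · intro i _ j _ hij
    rcases ha2 i with h | h
    · have h1 := hr2 (2 * i)
      have h2 := hb2 j
      have : 2 * i = j := by omega
      apply hbr j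
      rw [← hij, h, this]
    · have h1 := hr2 (2 * i + 1)
      have h2 := hb2 j
      have : 2 * i + 1 = j := by omega
      apply hbr j
      rw [← hij, h, this]
  · intro g hg h hh
    have key1 := he1 (⟨g, hg⟩, ⟨h, hh⟩)
    have key2 := he2 (⟨g, hg⟩, ⟨h, hh⟩)
    simp only at key1 key2
    set v : ℕ → ℝ := fun j => H j g * H j h with hvdef
    -- rewrite sums
    have hsum1 : ∑ i : Fin (2 ^ (k + 1)), sgn (e1 i) * (H (2 * i.1) g * H (2 * i.1) h
        - H (2 * i.1 + 1) g * H (2 * i.1 + 1) h)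
        = ∑ j ∈ range (2 ^ (k + 1)), (v (b j) - v (r j)) := by
      rw [Finset.sum_range]
      apply Finset.sum_congr rfl
      intro i _
      have hs : s i.1 = e1 i := by simp [s]
      by_cases hh : e1 i = true
      · simp only [b, r, hs, hh, sgn, if_true, v]; ring
      · have hh' : e1 i = false := by simpa using hh
        simp only [b, r, hs, hh', sgn, v]; simp
    have hsum2 : ∑ i : Fin (2 ^ k), sgn (e2 i) * (H (r (2 * i.1)) g * H (r (2 * i.1)) h
        - H (r (2 * i.1 + 1)) g * H (r (2 * i.1 + 1)) h)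
        = ∑ j ∈ range (2 ^ k), (2 * v (a j) - (v (r (2 * j)) + v (r (2 * j + 1)))) := by
      rw [Finset.sum_range]
      apply Finset.sum_congr rfl
      intro i _
      have hs : s2 i.1 = e2 i := by simp [s2]
      by_cases hh : e2 i = true
      · simp only [a, hs, hh, sgn, if_true, v]; ring
      · have hh' : e2 i = false := by simpa using hh
        simp only [a, hs, hh', sgn, v]; simp; ring
    have hpair : ∀ n : ℕ, ∑ j ∈ range (2 * n), v (r j) = ∑ j ∈ range n, (v (r (2 * j)) + v (r (2 * j + 1))) := by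
      intro n
      induction n with
      | zero => simp
      | succ n ih =>
        rw [show 2 * (n + 1) = 2 * n + 1 + 1 by ring, Finset.sum_range_succ, Finset.sum_range_succ, ih,
          Finset.sum_range_succ]
        ring
    have hT : ∑ j ∈ range (2 ^ (k + 1)), H (b j) g * H (b j) h
          - 2 * ∑ j ∈ range (2 ^ k), H (a j) g * H (a j) h
        = (∑ i : Fin (2 ^ (k + 1)), sgn (e1 i) * (H (2 * i.1) g * H (2 * i.1) h
        - H (2 * i.1 + 1) g * H (2 * i.1 + 1) h)) - ∑ i : Fin (2 ^ k), sgn (e2 i) *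
          (H (r (2 * i.1)) g * H (r (2 * i.1)) h
        - H (r (2 * i.1 + 1)) g * H (r (2 * i.1 + 1)) h) := by
      rw [hsum1, hsum2]
      have h3 := hpair (2 ^ k)
      rw [← hp1] at h3
      rw [Finset.sum_sub_distrib, Finset.sum_sub_distrib, ← Finset.mul_sum, h3]
      simp only [v]
      ring
    rw [hT]
    refine (abs_sub _ _).trans ?_
    refine (add_le_add key1 key2).trans ?_
    -- numeric bound
    have hlog : Real.log (2 * (2 ^ (k + 2) * 2 ^ (k + 2))) = (2 * k + 5) * Real.log 2 := by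
      have : (2:ℝ) * (2 ^ (k + 2) * 2 ^ (k + 2)) = 2 ^ (2 * k + 5) := by ring
      rw [this, Real.log_pow]; push_cast; ring
    have hl2 : Real.log 2 < 0.7 := by have := Real.log_two_lt_d9; linarith
    have hl0 : 0 < Real.log 2 := Real.log_pos (by norm_num)
    have hs2 : Real.sqrt ((2 ^ (k + 1) : ℕ) : ℝ) ≤ 1.5 * Real.sqrt (2 ^ k) := by
      push_cast
      rw [show (2:ℝ) ^ (k + 1) = 2 * 2 ^ k by ring, Real.sqrt_mul (by norm_num)]
      have : Real.sqrt 2 ≤ 1.5 := by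
        rw [Real.sqrt_le_left (by norm_num)]; norm_num
      exact mul_le_mul_of_nonneg_right this (Real.sqrt_nonneg _)
    have hs3 : Real.sqrt ((2 ^ k : ℕ) : ℝ) = Real.sqrt (2 ^ k) := by push_cast; rfl
    rw [hs3, hlog]
    have hk : (0:ℝ) ≤ k := Nat.cast_nonneg k
    have hA : (2 * (k:ℝ) + 5) * Real.log 2 + 2 ^ 2 / 2 ≤ 8 * (k + 1) := by nlinarith
    have hA0 : 0 ≤ (2 * (k:ℝ) + 5) * Real.log 2 + 2 ^ 2 / 2 := by positivity
    have hsq : 0 ≤ Real.sqrt (2 ^ k) := Real.sqrt_nonneg _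
    calc _ ≤ 1.5 * Real.sqrt (2 ^ k) * ((2 * (k:ℝ) + 5) * Real.log 2 + 2 ^ 2 / 2)
          + Real.sqrt (2 ^ k) * ((2 * (k:ℝ) + 5) * Real.log 2 + 2 ^ 2 / 2) := by
            gcongr
      _ = 2.5 * Real.sqrt (2 ^ k) * ((2 * (k:ℝ) + 5) * Real.log 2 + 2 ^ 2 / 2) := by ring
      _ ≤ 2.5 * Real.sqrt (2 ^ k) * (8 * (k + 1)) := by gcongr
      _ = 20 * (k + 1) * Real.sqrt (2 ^ k) := by ring

end Pool.Agent.BAPp.Rows
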