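import Mathlib
import Pool.Agent.BAPp.Sgn

open Finset

namespace Pool.Agent.BAPp.System

/-- The Davie type system of functions on the levels: level `k` has `2^(k+2)` points. -/
theorem exists_system
    (had : ∀ n : ℕ, ∃ H : ℕ → ℕ → ℝ, (∀ i j, |H i j| = 1) ∧
      (∀ i < 2 ^ n, ∀ j < 2 ^ n, ∑ g ∈ range (2 ^ n), H i g * H j g = if i = j then (2:ℝ) ^ n else 0) ∧
      (∀ g < 2 ^ n, ∀ h < 2 ^ n, ∑ j ∈ range (2 ^ n), H j g * H j h = if g = h then (2:ℝ) ^ n else 0))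
    (rows : ∀ (k : ℕ) (H : ℕ → ℕ → ℝ), (∀ i j, |H i j| = 1) →
      (∀ g < 2 ^ (k + 2), ∀ h < 2 ^ (k + 2),
        ∑ j ∈ range (2 ^ (k + 2)), H j g * H j h = if g = h then (2:ℝ) ^ (k + 2) else 0) →
      ∃ a b : ℕ → ℕ, (∀ i < 2 ^ k, a i < 2 ^ (k + 2)) ∧ (∀ i < 2 ^ (k + 1), b i < 2 ^ (k + 2)) ∧
        (∀ i < 2 ^ k, ∀ j < 2 ^ k, a i = a j → i = j) ∧
        (∀ i < 2 ^ (k + 1), ∀ j < 2 ^ (k + 1), b i = b j → i = j) ∧
        (∀ i < 2 ^ k, ∀ j < 2 ^ (k + 1), a i ≠ b j) ∧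
        ∀ g < 2 ^ (k + 2), ∀ h < 2 ^ (k + 2),
          |∑ j ∈ range (2 ^ (k + 1)), H (b j) g * H (b j) h
            - 2 * ∑ j ∈ range (2 ^ k), H (a j) g * H (a j) h| ≤ 20 * (k + 1) * Real.sqrt (2 ^ k))
    (signs : ∀ (m : ℕ), 0 < m → ∀ (Q : Type) (_ : Fintype Q) (c : Q → Fin m → ℝ) (M : ℝ),
      (∀ h i, |c h i| ≤ M) → ∃ e : Fin m → Bool, ∀ h, |∑ i, sgn (e i) * c h i|
        ≤ Real.sqrt m * (Real.log (2 * Fintype.card Q) + M ^ 2 / 2)) :
    ∃ sg tt : ℕ → ℕ → ℕ → ℝ,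
      (∀ k j g, |sg k j g| ≤ 1) ∧ (∀ k j g, |tt k j g| ≤ 1) ∧
      (∀ k, ∀ i < 2 ^ k, ∀ j < 2 ^ k,
        ∑ g ∈ range (2 ^ (k + 2)), sg k i g * sg k j g = if i = j then (2:ℝ) ^ (k + 2) else 0) ∧
      (∀ k, ∀ i < 2 ^ (k + 1), ∀ j < 2 ^ (k + 1),
        ∑ g ∈ range (2 ^ (k + 2)), tt k i g * tt k j g = if i = j then (2:ℝ) ^ (k + 2) else 0) ∧
      (∀ k, ∀ i < 2 ^ k, ∀ j < 2 ^ (k + 1),
        ∑ g ∈ range (2 ^ (k + 2)), sg k i g * tt k j g = 0) ∧
      (∀ k, ∀ g < 2 ^ (k + 2), ∀ h < 2 ^ (k + 2),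
        |∑ j ∈ range (2 ^ (k + 1)), tt k j g * tt k j h
          - 2 * ∑ j ∈ range (2 ^ k), sg k j g * sg k j h| ≤ 20 * (k + 1) * Real.sqrt (2 ^ k)) ∧
      (∀ k, ∀ g < 2 ^ (k + 2), ∀ h < 2 ^ (k + 3),
        |∑ j ∈ range (2 ^ (k + 1)), tt k j g * sg (k + 1) j h|
          ≤ 20 * (k + 1) * Real.sqrt (2 ^ k)) := by
  choose H hH1 hH2 hH3 using fun k => had (k + 2)
  choose a b ha hb hainj hbinj hab hflat using fun k => rows k (H k) (hH1 k) (hH3 k)
  have hsg : ∀ bb : Bool, |sgn bb| = 1 := by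
    intro bb; cases bb <;> simp [sgn]
  have hsg2 : ∀ bb : Bool, sgn bb * sgn bb = 1 := by
    intro bb; cases bb <;> simp [sgn]
  have key : ∀ k : ℕ, ∃ E : ℕ → ℝ, (∀ j, |E j| = 1) ∧ (∀ j, E j * E j = 1) ∧
      ∀ g < 2 ^ (k + 2), ∀ h < 2 ^ (k + 3),
        |∑ j ∈ range (2 ^ (k + 1)), H k (b k j) g * (E j * H (k + 1) (a (k + 1) j) h)|
          ≤ 20 * (k + 1) * Real.sqrt (2 ^ k) := by
    intro k
    obtain ⟨e, he⟩ := signs (2 ^ (k + 1)) (by positivity)
      (Fin (2 ^ (k + 2)) × Fin (2 ^ (k + 3))) inferInstance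
      (fun q j => H k (b k j) q.1 * H (k + 1) (a (k + 1) j) q.2) 1
      (by intro q j; rw [abs_mul, hH1, hH1]; norm_num)
    refine ⟨fun j => if h : j < 2 ^ (k + 1) then sgn (e ⟨j, h⟩) else 1, ?_, ?_, ?_⟩
    · intro j
      by_cases h : j < 2 ^ (k + 1)
      · simp only [h, dif_pos, hsg]
      · simp only [h, dif_neg, not_false_iff, abs_one]
    · intro j
      by_cases h : j < 2 ^ (k + 1)
      · simp only [h, dif_pos, hsg2]
      · simp only [h, dif_neg, not_false_iff, mul_one]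
    · intro g hg h hh
      have h1 := he (⟨g, hg⟩, ⟨h, hh⟩)
      have h2 : ∑ j ∈ range (2 ^ (k + 1)), H k (b k j) g *
          ((if h : j < 2 ^ (k + 1) then sgn (e ⟨j, h⟩) else 1) * H (k + 1) (a (k + 1) j) h)
          = ∑ i : Fin (2 ^ (k + 1)), sgn (e i) *
            (H k (b k i) g * H (k + 1) (a (k + 1) i) h) := by
        rw [← Fin.sum_univ_eq_sum_range (fun j => H k (b k j) g *
          ((if h : j < 2 ^ (k + 1) then sgn (e ⟨j, h⟩) else 1) * H (k + 1) (a (k + 1) j) h))]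
        refine Finset.sum_congr rfl ?_
        intro i _
        simp only [i.isLt, dif_pos]
        ring
      rw [h2]
      refine h1.trans ?_
      have hc : (Fintype.card (Fin (2 ^ (k + 2)) × Fin (2 ^ (k + 3))) : ℝ)
          = 2 ^ (2 * k + 5) := by
        simp only [Fintype.card_prod, Fintype.card_fin]
        push_cast
        rw [← pow_add]; congr 1; ring
      rw [hc]
      have h3 : (2 : ℝ) * 2 ^ (2 * k + 5) = 2 ^ (2 * k + 6) := by ring
      rw [h3, Real.log_pow]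
      have hlog : Real.log 2 ≤ 1 := by
        have := Real.log_two_lt_d9; linarith
      have hlog0 : 0 ≤ Real.log 2 := Real.log_nonneg (by norm_num)
      have h4 : (((2 ^ (k + 1) : ℕ)) : ℝ) = 2 * 2 ^ k := by push_cast; ring
      rw [h4, Real.sqrt_mul (by norm_num : (0:ℝ) ≤ 2)]
      have hs2 : Real.sqrt 2 ≤ 2 := by
        rw [Real.sqrt_le_left (by norm_num)]; norm_num
      have hs0 : 0 ≤ Real.sqrt 2 := Real.sqrt_nonneg _
      have hk : (0:ℝ) ≤ k := Nat.cast_nonneg k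
      have h5 : (((2 * k + 6 : ℕ)) : ℝ) * Real.log 2 + 1 ^ 2 / 2 ≤ 2 * k + 13 / 2 := by
        push_cast
        nlinarith
      have h6 : Real.sqrt 2 * ((((2 * k + 6 : ℕ)) : ℝ) * Real.log 2 + 1 ^ 2 / 2)
          ≤ 20 * (k + 1) := by
        calc Real.sqrt 2 * ((((2 * k + 6 : ℕ)) : ℝ) * Real.log 2 + 1 ^ 2 / 2)
            ≤ 2 * (2 * k + 13 / 2) := by
              apply mul_le_mul hs2 h5 _ (by norm_num)
              positivity
          _ ≤ 20 * (k + 1) := by nlinarith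
      calc Real.sqrt 2 * Real.sqrt (2 ^ k) * ((((2 * k + 6 : ℕ)) : ℝ) * Real.log 2 + 1 ^ 2 / 2)
          = (Real.sqrt 2 * ((((2 * k + 6 : ℕ)) : ℝ) * Real.log 2 + 1 ^ 2 / 2))
            * Real.sqrt (2 ^ k) := by ring
        _ ≤ 20 * (k + 1) * Real.sqrt (2 ^ k) :=
            mul_le_mul_of_nonneg_right h6 (Real.sqrt_nonneg _)
  choose E hE1 hE2 hE3 using key
  let e : ℕ → ℕ → ℝ := fun k => Nat.rec (fun _ => 1) (fun k _ => E k) k
  have he1 : ∀ k j, |e k j| = 1 := by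
    intro k j
    cases k with
    | zero => show |(1:ℝ)| = 1; simp
    | succ k => exact hE1 k j
  have he2 : ∀ k j, e k j * e k j = 1 := by
    intro k j
    cases k with
    | zero => show (1:ℝ) * 1 = 1; simp
    | succ k => exact hE2 k j
  refine ⟨fun k j g => e k j * H k (a k j) g, fun k j g => H k (b k j) g,
    ?_, ?_, ?_, ?_, ?_, ?_, ?_⟩
  · intro k j g
    show |e k j * H k (a k j) g| ≤ 1
    rw [abs_mul, he1, hH1]; norm_num
  · intro k j g
    exact (hH1 k _ _).le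
  · intro k i hi j hj
    show ∑ g ∈ range (2 ^ (k + 2)), (e k i * H k (a k i) g) * (e k j * H k (a k j) g) = _
    have h1 : ∑ g ∈ range (2 ^ (k + 2)), (e k i * H k (a k i) g) * (e k j * H k (a k j) g)
        = (e k i * e k j) * ∑ g ∈ range (2 ^ (k + 2)), H k (a k i) g * H k (a k j) g := by
      rw [Finset.mul_sum]
      exact Finset.sum_congr rfl (fun g _ => by ring)
    rw [h1, hH2 k _ (ha k i hi) _ (ha k j hj)]
    by_cases hij : i = j
    · subst hij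
      rw [if_pos rfl, if_pos rfl, he2, one_mul]
    · rw [if_neg hij, if_neg (fun h => hij (hainj k i hi j hj h)), mul_zero]
  · intro k i hi j hj
    show ∑ g ∈ range (2 ^ (k + 2)), H k (b k i) g * H k (b k j) g = _
    rw [hH2 k _ (hb k i hi) _ (hb k j hj)]
    by_cases hij : i = j
    · subst hij
      rw [if_pos rfl, if_pos rfl]
    · rw [if_neg hij, if_neg (fun h => hij (hbinj k i hi j hj h))]
  · intro k i hi j hj
    show ∑ g ∈ range (2 ^ (k + 2)), (e k i * H k (a k i) g) * H k (b k j) g = 0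
    have h1 : ∑ g ∈ range (2 ^ (k + 2)), (e k i * H k (a k i) g) * H k (b k j) g
        = e k i * ∑ g ∈ range (2 ^ (k + 2)), H k (a k i) g * H k (b k j) g := by
      rw [Finset.mul_sum]
      exact Finset.sum_congr rfl (fun g _ => by ring)
    rw [h1, hH2 k _ (ha k i hi) _ (hb k j hj), if_neg (hab k i hi j hj), mul_zero]
  · intro k g hg h hh
    show |∑ j ∈ range (2 ^ (k + 1)), H k (b k j) g * H k (b k j) h
      - 2 * ∑ j ∈ range (2 ^ k), (e k j * H k (a k j) g) * (e k j * H k (a k j) h)| ≤ _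
    have h1 : ∑ j ∈ range (2 ^ k), (e k j * H k (a k j) g) * (e k j * H k (a k j) h)
        = ∑ j ∈ range (2 ^ k), H k (a k j) g * H k (a k j) h := by
      refine Finset.sum_congr rfl (fun j _ => ?_)
      calc (e k j * H k (a k j) g) * (e k j * H k (a k j) h)
          = (e k j * e k j) * (H k (a k j) g * H k (a k j) h) := by ring
        _ = _ := by rw [he2, one_mul]
    rw [h1]
    exact hflat k g hg h hh
  · intro k g hg h hh
    show |∑ j ∈ range (2 ^ (k + 1)), H k (b k j) g * (E k j * H (k + 1) (a (k + 1) j) h)| ≤ _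
    exact hE3 k g hg h hh


end Pool.Agent.BAPp.System
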