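import Mathlib

namespace Pool.Agent.BAPp.TraceI

/-- The trace of a finite rank operator does not depend on the representation. -/
theorem trace_indep {Y : Type} [AddCommGroup Y] [Module ℝ Y] {n m : ℕ}
    (ys : Fin n → (Y →ₗ[ℝ] ℝ)) (z : Fin n → Y) (al : Fin m → (Y →ₗ[ℝ] ℝ)) (v : Fin m → Y)
    (h : ∀ y, ∑ i, ys i y • z i = ∑ j, al j y • v j) :
    ∑ i, ys i (z i) = ∑ j, al j (v j) := by
  classical
  set S : Submodule ℝ Y := Submodule.span ℝ (Set.range z ∪ Set.range v) with hS
  have hfin : FiniteDimensional ℝ S := by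
    apply FiniteDimensional.span_of_finite
    exact (Set.finite_range z).union (Set.finite_range v)
  have hz : ∀ i, z i ∈ S := fun i => Submodule.subset_span (Or.inl ⟨i, rfl⟩)
  have hv : ∀ j, v j ∈ S := fun j => Submodule.subset_span (Or.inr ⟨j, rfl⟩)
  have h1 : (∑ i, ((ys i).comp S.subtype).smulRight (⟨z i, hz i⟩ : S))
      = (∑ j, ((al j).comp S.subtype).smulRight (⟨v j, hv j⟩ : S)) := by
    apply LinearMap.ext
    intro y
    apply Subtype.ext
    have := h (y : Y)
    simp only [LinearMap.sum_apply, LinearMap.smulRight_apply, LinearMap.comp_apply,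
      Submodule.subtype_apply, Submodule.coe_sum, Submodule.coe_smul]
    exact this
  have h2 := congrArg (LinearMap.trace ℝ S) h1
  rw [map_sum, map_sum] at h2
  simpa [LinearMap.trace_smulRight] using h2

end Pool.Agent.BAPp.TraceI
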