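import Mathlib
import Pool.Agent.BAPp.SysDefs

open Finset

namespace Pool.Agent.BAPp.WBound



/-- polynomial times geometric is bounded -/
theorem w_bdd (q s : ℝ) (hq : 0 < q) (hs0 : 0 < s) (hs1 : s < 1) :
    ∃ B : ℝ, 0 ≤ B ∧ ∀ k : ℕ, 4 * (5 * ((k:ℝ) + 1)) ^ q * s ^ k ≤ B := by
  obtain ⟨n, hn⟩ := exists_nat_ge q
  have ht := tendsto_pow_const_mul_const_pow_of_lt_one n hs0.le hs1
  obtain ⟨B0, hB0⟩ := ht.bddAbove_range
  have hB : ∀ k : ℕ, (k:ℝ) ^ n * s ^ k ≤ B0 := fun k => hB0 ⟨k, rfl⟩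
  have hB0' : 0 ≤ B0 := le_trans (by positivity) (hB 1)
  refine ⟨4 * 5 ^ q * (B0 / s), by positivity, fun k => ?_⟩
  have h1 := hB (k + 1)
  have h2 : ((k:ℝ) + 1) ^ n * s ^ k ≤ B0 / s := by
    rw [le_div_iff₀ hs0]
    push_cast at h1
    rw [pow_succ s k] at h1
    linarith
  have h3 : ((k:ℝ) + 1) ^ q ≤ ((k:ℝ) + 1) ^ n := by
    rw [← Real.rpow_natCast ((k:ℝ) + 1) n]
    exact Real.rpow_le_rpow_of_exponent_le (by linarith [Nat.cast_nonneg (α := ℝ) k]) hn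
  rw [Real.mul_rpow (by norm_num) (by positivity)]
  calc 4 * (5 ^ q * ((k:ℝ) + 1) ^ q) * s ^ k = 4 * 5 ^ q * (((k:ℝ) + 1) ^ q * s ^ k) := by ring
    _ ≤ 4 * 5 ^ q * (((k:ℝ) + 1) ^ n * s ^ k) := by gcongr
    _ ≤ 4 * 5 ^ q * (B0 / s) := by gcongr

/-- the level value -/
theorem w_level (q r : ℝ) (hr0 : 0 < r) (k : ℕ) :
    (5 * ((k:ℝ) + 1) * Real.sqrt (2 ^ k) / 4 ^ k / (r / 2) ^ k) ^ q * 2 ^ (k + 2) =
      4 * (5 * ((k:ℝ) + 1)) ^ q * ((2:ℝ) ^ (1 - q / 2) * r ^ (-q)) ^ k := by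
  have e0 : 5 * ((k:ℝ) + 1) * Real.sqrt (2 ^ k) / 4 ^ k / (r / 2) ^ k =
      (5 * ((k:ℝ) + 1)) * ((2:ℝ) ^ (-(k:ℝ) / 2) * r ^ (-(k:ℝ))) := by
    have a1 : Real.sqrt (2 ^ k) = (2:ℝ) ^ ((k:ℝ) / 2) := by
      rw [Real.sqrt_eq_rpow, ← Real.rpow_natCast, ← Real.rpow_mul (by norm_num)]
      congr 1
      ring
    have a2 : (4:ℝ) ^ k = (2:ℝ) ^ (2 * (k:ℝ)) := by
      rw [Real.rpow_mul (by norm_num), Real.rpow_natCast]
      norm_num
    have a3 : (r / 2) ^ k = r ^ (k:ℝ) * (2:ℝ) ^ (-(k:ℝ)) := by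
      rw [div_pow, Real.rpow_natCast, Real.rpow_neg (by norm_num), Real.rpow_natCast]
      rfl
    have a4 : (2:ℝ) ^ (-(k:ℝ) / 2) = (2:ℝ) ^ ((k:ℝ) / 2) / (2:ℝ) ^ (2 * (k:ℝ)) / (2:ℝ) ^ (-(k:ℝ)) := by
      rw [← Real.rpow_sub (by norm_num), ← Real.rpow_sub (by norm_num)]
      congr 1
      ring
    rw [a1, a2, a3, a4, Real.rpow_neg hr0.le]
    have b1 : (2:ℝ) ^ (2 * (k:ℝ)) ≠ 0 := (Real.rpow_pos_of_pos (by norm_num) _).ne'
    have b2 : (2:ℝ) ^ (-(k:ℝ)) ≠ 0 := (Real.rpow_pos_of_pos (by norm_num) _).ne'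
    have b3 : r ^ (k:ℝ) ≠ 0 := (Real.rpow_pos_of_pos hr0 _).ne'
    field_simp
  have hp1 : (0:ℝ) < (2:ℝ) ^ (-(k:ℝ) / 2) := Real.rpow_pos_of_pos (by norm_num) _
  have hp2 : (0:ℝ) < r ^ (-(k:ℝ)) := Real.rpow_pos_of_pos hr0 _
  rw [e0, Real.mul_rpow (by positivity) (by positivity), Real.mul_rpow hp1.le hp2.le,
    ← Real.rpow_mul (by norm_num), ← Real.rpow_mul hr0.le]
  have c1 : ((2:ℝ) ^ (1 - q / 2) * r ^ (-q)) ^ k =
      (2:ℝ) ^ (k:ℝ) * ((2:ℝ) ^ (-(k:ℝ) / 2 * q) * r ^ (-(k:ℝ) * q)) := by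
    rw [mul_pow, ← Real.rpow_natCast ((2:ℝ) ^ (1 - q / 2)) k,
      ← Real.rpow_natCast (r ^ (-q)) k, ← Real.rpow_mul (by norm_num),
      ← Real.rpow_mul hr0.le, ← mul_assoc, ← Real.rpow_add (by norm_num)]
    congr 2 <;> ring
  rw [c1, Real.rpow_natCast (2:ℝ) k]
  ring

/-- the scaled kernel is bounded from `ℓ_p` to `ℓ_∞` -/
theorem w_bound (sg tt : ℕ → ℕ → ℕ → ℝ)
    (pb : ∀ g x : ℕ × ℕ, |phi sg tt g x| ≤ 5 * (g.1 + 1) * Real.sqrt (2 ^ g.1) / 4 ^ g.1 ∧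
      (¬ (x.1 = g.1 ∨ x.1 = g.1 + 1 ∨ x.1 + 1 = g.1) → phi sg tt g x = 0))
    (q r : ℝ) (hq : 2 < q) (hr0 : 0 < r) (hr1 : r < 1)
    (hr : (2:ℝ) ^ (1 - q / 2) * r ^ (-q) < 1) :
    ∃ M : ℝ, 0 < M ∧ ∀ (x : ℕ × ℕ) (F : Finset (ℕ × ℕ)),
      ∑ g ∈ F, |phi sg tt g x / rho r g| ^ q ≤ M ^ q := by
  have hq0 : 0 < q := by linarith
  have hs0 : 0 < (2:ℝ) ^ (1 - q / 2) * r ^ (-q) :=
    mul_pos (Real.rpow_pos_of_pos (by norm_num) _) (Real.rpow_pos_of_pos hr0 _)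
  obtain ⟨B, hB0, hB⟩ := w_bdd q _ hq0 hs0 hr
  refine ⟨(3 * B + 1) ^ (1 / q), by positivity, fun x F => ?_⟩
  rw [← Real.rpow_mul (by positivity), one_div, inv_mul_cancel₀ hq0.ne', Real.rpow_one]
  classical
  set C : ℕ → ℝ := fun k => (5 * ((k:ℝ) + 1) * Real.sqrt (2 ^ k) / 4 ^ k / (r / 2) ^ k) ^ q with hC
  have hC0 : ∀ k, 0 ≤ C k := fun k => by rw [hC]; positivity
  have hCB : ∀ k, C k * 2 ^ (k + 2) ≤ B := by
    intro k
    rw [hC]
    simp only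
    rw [w_level q r hr0 k]
    exact hB k
  set L : Finset ℕ := {x.1, x.1 - 1, x.1 + 1} with hL
  set S : Finset (ℕ × ℕ) := L.sigma (fun k => range (2 ^ (k + 2))) |>.image (fun a => (a.1, a.2)) with hS
  have hzero : ∀ g : ℕ × ℕ, g ∉ S → |phi sg tt g x / rho r g| ^ q = 0 := by
    intro g hg
    have hphi : phi sg tt g x = 0 := by
      by_cases h1 : g.2 < 2 ^ (g.1 + 2)
      · apply (pb g x).2
        intro h2
        apply hg
        rw [hS, mem_image]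
        refine ⟨⟨g.1, g.2⟩, ?_, rfl⟩
        rw [mem_sigma]
        refine ⟨?_, by simpa using h1⟩
        rw [hL]
        simp only [mem_insert, mem_singleton]
        omega
      · unfold phi
        rw [if_neg h1]
    rw [hphi, zero_div, abs_zero, Real.zero_rpow hq0.ne']
  have hle : ∀ g : ℕ × ℕ, g ∈ S → |phi sg tt g x / rho r g| ^ q ≤ C g.1 := by
    intro g hg
    rw [hS, mem_image] at hg
    obtain ⟨a, ha, rfl⟩ := hg
    rw [mem_sigma] at ha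
    have h1 : a.2 < 2 ^ (a.1 + 2) := by simpa using ha.2
    have hrho : rho r (a.1, a.2) = (r / 2) ^ a.1 := by
      unfold rho
      rw [if_pos h1]
    rw [hrho, abs_div, abs_of_pos (show 0 < (r / 2) ^ a.1 by positivity)]
    apply Real.rpow_le_rpow (by positivity) _ hq0.le
    have := (pb (a.1, a.2) x).1
    exact div_le_div_of_nonneg_right this (by positivity)
  calc ∑ g ∈ F, |phi sg tt g x / rho r g| ^ q
      ≤ ∑ g ∈ F ∪ S, |phi sg tt g x / rho r g| ^ q :=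
        sum_le_sum_of_subset_of_nonneg subset_union_left
          (fun g _ _ => Real.rpow_nonneg (abs_nonneg _) _)
    _ = ∑ g ∈ S, |phi sg tt g x / rho r g| ^ q := by
        symm
        apply sum_subset subset_union_right
        intro g _ hg
        exact hzero g hg
    _ ≤ ∑ g ∈ S, C g.1 := sum_le_sum hle
    _ ≤ ∑ a ∈ L.sigma (fun k => range (2 ^ (k + 2))), C a.1 := by
        rw [hS]
        refine le_trans (sum_le_sum_of_subset_of_nonneg (Subset.refl _) (fun _ _ _ => hC0 _)) ?_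
        rw [sum_image]
        intro a _ b _ hab
        simp only [Prod.mk.injEq] at hab
        obtain ⟨a1, a2⟩ := a
        obtain ⟨b1, b2⟩ := b
        simp only at hab
        obtain ⟨rfl, rfl⟩ := hab
        rfl
    _ = ∑ k ∈ L, C k * 2 ^ (k + 2) := by
        rw [sum_sigma]
        refine sum_congr rfl (fun k _ => ?_)
        have hc : ∑ s ∈ range (2 ^ (k + 2)), C k = C k * 2 ^ (k + 2) := by
          rw [sum_const, card_range, nsmul_eq_mul]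
          push_cast
          ring
        exact hc
    _ ≤ ∑ _k ∈ L, B := sum_le_sum (fun k _ => hCB k)
    _ = L.card * B := by rw [sum_const, nsmul_eq_mul]
    _ ≤ 3 * B := by
        apply mul_le_mul_of_nonneg_right _ hB0
        have : L.card ≤ 3 := by
          rw [hL]
          exact card_le_three
        exact_mod_cast this
    _ ≤ 3 * B + 1 := by linarith

end Pool.Agent.BAPp.WBound
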