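import Mathlib
import Pool.Agent.BAPp.Defs
import Pool.Agent.BAPp.Sgn
import Pool.Agent.BAPp.SysDefs
import Pool.Agent.BAPp.Inner
import Pool.Agent.BAPp.ExSigns
import Pool.Agent.BAPp.Had
import Pool.Agent.BAPp.Rows
import Pool.Agent.BAPp.System
import Pool.Agent.BAPp.ExW
import Pool.Agent.BAPp.GLow
import Pool.Agent.BAPp.Quot
import Pool.Agent.BAPp.Diag
import Pool.Agent.BAPp.ExU
import Pool.Agent.BAPp.Ident
import Pool.Agent.BAPp.RhoFacts
import Pool.Agent.BAPp.Hat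
import Pool.Agent.BAPp.Alpha
import Pool.Agent.BAPp.OuterA
import Pool.Agent.BAPp.PhiB
import Pool.Agent.BAPp.WBound
import Pool.Agent.BAPp.OnHat
import Pool.Agent.BAPp.TraceI
import Pool.Agent.BAPp.RangeW
import Pool.Agent.BAPp.KeyC

open MeasureTheory Finset
open scoped ENNReal NNReal

set_option maxSynthPendingDepth 3

namespace Pool.Agent.BAPp

theorem the_system :
    ∃ sg tt : ℕ → ℕ → ℕ → ℝ,
      (∀ k j g, |sg k j g| ≤ 1) ∧ (∀ k j g, |tt k j g| ≤ 1) ∧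
      (∀ k, ∀ i < 2 ^ k, ∀ j < 2 ^ k,
        ∑ g ∈ range (2 ^ (k + 2)), sg k i g * sg k j g = if i = j then (2:ℝ) ^ (k + 2) else 0) ∧
      (∀ k, ∀ i < 2 ^ (k + 1), ∀ j < 2 ^ (k + 1),
        ∑ g ∈ range (2 ^ (k + 2)), tt k i g * tt k j g = if i = j then (2:ℝ) ^ (k + 2) else 0) ∧
      (∀ k, ∀ i < 2 ^ k, ∀ j < 2 ^ (k + 1),
        ∑ g ∈ range (2 ^ (k + 2)), sg k i g * tt k j g = 0) ∧
      (∀ k, ∀ g < 2 ^ (k + 2), ∀ h < 2 ^ (k + 2),
        |∑ j ∈ range (2 ^ (k + 1)), tt k j g * tt k j h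
          - 2 * ∑ j ∈ range (2 ^ k), sg k j g * sg k j h| ≤ 20 * (k + 1) * Real.sqrt (2 ^ k)) ∧
      (∀ k, ∀ g < 2 ^ (k + 2), ∀ h < 2 ^ (k + 3),
        |∑ j ∈ range (2 ^ (k + 1)), tt k j g * sg (k + 1) j h|
          ≤ 20 * (k + 1) * Real.sqrt (2 ^ k)) := by
  have signs : ∀ (m : ℕ), 0 < m → ∀ (Q : Type) (_ : Fintype Q) (c : Q → Fin m → ℝ) (M : ℝ),
      (∀ h i, |c h i| ≤ M) → ∃ e : Fin m → Bool, ∀ h, |∑ i, sgn (e i) * c h i|
        ≤ Real.sqrt m * (Real.log (2 * Fintype.card Q) + M ^ 2 / 2) := by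
    intro m hm Q _ c M hM
    have : Nonempty (Fin m) := ⟨⟨0, hm⟩⟩
    have := ExSigns.exists_signs c M hM
    simpa using this
  refine System.exists_system Had.exists_hadamard ?_ signs
  intro k H hH1 hcol
  refine Rows.exists_rows k H hH1 hcol ?_
  intro m hm c M hM
  obtain ⟨e, he⟩ := signs m hm _ inferInstance c M hM
  refine ⟨e, fun h => (he h).trans (le_of_eq ?_)⟩
  simp


/-- the main existence statement -/
theorem main (iNorm_le : ∀ (p : ℝ), 1 < p → ∀ [Fact (1 ≤ ENNReal.ofReal p)] {Y X : Type}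
      [NormedAddCommGroup Y] [NormedSpace ℝ Y]
      [NormedAddCommGroup X] [NormedSpace ℝ X]
      (d : ℕ × ℕ → ℝ), (∀ g, 0 ≤ d g) → Summable (fun g => d g ^ p) → 0 < ∑' g, d g ^ p →
      ∀ (η : ℕ × ℕ → (Y →L[ℝ] ℝ)), (∀ g, ‖η g‖ ≤ 1) →
      ∀ (R : lp (fun _ : ℕ × ℕ => ℝ) (ENNReal.ofReal p) →L[ℝ] X), ‖R‖ ≤ 1 →
      ∀ (T : Y →L[ℝ] X),
      (∀ (y : Y) (a : lp (fun _ : ℕ × ℕ => ℝ) (ENNReal.ofReal p)),
        (∀ g, (a : ℕ × ℕ → ℝ) g = d g * η g y) → T y = R a) →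
      iNorm p T ≤ ENNReal.ofReal ((∑' g, d g ^ p) ^ (1 / p)))
    (p : ℝ) (hp1 : 1 < p) (hp2 : p < 2) [Fact (1 ≤ ENNReal.ofReal p)] :
    ∃ (X : Type) (_ : NormedAddCommGroup X) (_ : NormedSpace ℝ X) (_ : CompleteSpace X),
      (∃ lam : ℝ≥0, 1 ≤ lam ∧
        ∀ S : X →L[ℝ] X, FiniteRank S → gNorm p S ≤ lam * iNorm p S) ∧
      ∀ lam : ℝ≥0, ∃ (Y : Type) (_ : NormedAddCommGroup Y) (_ : NormedSpace ℝ Y)
        (_ : CompleteSpace Y) (T : Y →L[ℝ] X), FiniteRank T ∧ lam * iNorm p T < gNorm p T := by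
  classical
  obtain ⟨sg, tt, hs1, ht1, o1, o2, o3, flat1, flat2⟩ := the_system
  set q : ℝ := p / (p - 1) with hqdef
  have hpq : p.HolderConjugate q := Real.HolderConjugate.conjExponent hp1
  have hq2 : 2 < q := by
    rw [hqdef, lt_div_iff₀ (by linarith)]
    linarith
  haveI hQ : Fact (1 ≤ ENNReal.ofReal q) := ⟨by
    rw [← ENNReal.ofReal_one]
    exact ENNReal.ofReal_le_ofReal (by linarith)⟩
  -- the parameter r
  set r : ℝ := (2:ℝ) ^ ((1 / q - 1 / 2) / 2) with hrdef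
  have hr0 : 0 < r := by positivity
  have hexp : (1 / q - 1 / 2) / 2 < 0 := by
    have : 1 / q < 1 / 2 := one_div_lt_one_div_of_lt (by norm_num) hq2
    linarith
  have hr1 : r < 1 := Real.rpow_lt_one_of_one_lt_of_neg (by norm_num) hexp
  have hr : (2:ℝ) ^ (1 - q / 2) * r ^ (-q) < 1 := by
    rw [hrdef, ← Real.rpow_mul (by norm_num), ← Real.rpow_add (by norm_num)]
    apply Real.rpow_lt_one_of_one_lt_of_neg (by norm_num)
    have : (1 / q - 1 / 2) / 2 * -q = (q / 2 - 1) / 2 := by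
      field_simp
      ring
    rw [this]
    linarith
  obtain ⟨hnn, hsum, hpos, hlim⟩ := RhoFacts.rho_facts r hr0 hr1
  obtain ⟨M, hM, hw⟩ := WBound.w_bound sg tt (PhiB.phi_bound sg tt flat1 flat2) q r hq2 hr0 hr1 hr
  obtain ⟨W, hWs, hWb⟩ := ExW.exists_W p q hpq (rho r) hnn hsum
    (fun g x => phi sg tt g x / rho r g) M hM.le hw
  have hat := fun l i => Hat.exists_hat q (by linarith) r sg tt l i
  have alpha := fun K j => Alpha.exists_alpha q (by linarith) r hr0 sg K j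
  have hid := fun l i hi => Ident.level_ident sg tt o1 o2 o3 l i hi
  have diag := fun d hd => Diag.exists_diag (Γ := ℕ × ℕ) p q hpq d hd
  -- the space Y0
  set E0 : Set (lp (fun _ : ℕ × ℕ => ℝ) (ENNReal.ofReal q)) :=
    {v : lp (fun _ : ℕ × ℕ => ℝ) (ENNReal.ofReal q) |
      ∃ l i : ℕ, i < 2 ^ l ∧ ∀ x, (v : ℕ × ℕ → ℝ) x
        = (rho r x) ^ (1 / q) * ee sg tt l i x} with hE0
  set Y0 : Submodule ℝ (lp (fun _ : ℕ × ℕ => ℝ) (ENNReal.ofReal q)) :=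
    (Submodule.span ℝ E0).topologicalClosure with hY0
  have hY0c : IsClosed (Y0 : Set (lp (fun _ : ℕ × ℕ => ℝ) (ENNReal.ofReal q))) :=
    Submodule.isClosed_topologicalClosure _
  have hmem : ∀ (l i : ℕ), i < 2 ^ l → ∀ v : lp (fun _ : ℕ × ℕ => ℝ) (ENNReal.ofReal q),
      (∀ x, (v : ℕ × ℕ → ℝ) x = (rho r x) ^ (1 / q) * ee sg tt l i x) → v ∈ Y0 := by
    intro l i hi v hv
    exact Submodule.le_topologicalClosure _ (Submodule.subset_span ⟨l, i, hi, hv⟩)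
  have hWY : ∀ a, W a ∈ Y0 :=
    RangeW.range_W p q hpq r hr0 sg tt hat W hWs Y0 hY0c hmem
  set N : Submodule ℝ (lp (fun _ : ℕ × ℕ => ℝ) (ENNReal.ofReal p)) :=
    LinearMap.ker (W : lp (fun _ : ℕ × ℕ => ℝ) (ENNReal.ofReal p) →ₗ[ℝ]
      lp (fun _ : ℕ × ℕ => ℝ) (ENNReal.ofReal q)) with hN
  haveI hNc : IsClosed (N : Set (lp (fun _ : ℕ × ℕ => ℝ) (ENNReal.ofReal p))) := by
    have : (N : Set (lp (fun _ : ℕ × ℕ => ℝ) (ENNReal.ofReal p))) = W ⁻¹' {0} := by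
      ext a
      simp [hN]
    rw [this]
    exact isClosed_singleton.preimage W.continuous
  obtain ⟨u, fh, huW, hinj, hfh, hun⟩ :=
    ExU.exists_u p q hpq (rho r) hnn M hM W hWb Y0 hWY N hN
  refine ⟨lp (fun _ : ℕ × ℕ => ℝ) (ENNReal.ofReal p) ⧸ N, inferInstance, inferInstance,
    inferInstance, ?_, ?_⟩
  · -- inner inequality
    set Kq : ℝ := ((4 * q ^ q) ^ (1 / q)) ^ 2 with hK
    refine ⟨max 1 (Real.toNNReal Kq), le_max_left _ _, fun S hS => ?_⟩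
    have h := inner_ineq p q hpq hp2
      (fun g : ℕ × ℕ => N.mkQ (lp.single (ENNReal.ofReal p) g (1:ℝ)))
      (fun F a => Quot.quot_upper p hp1 N F a)
      (fun f C hC hF => Quot.quot_dual p q hpq N f C hC hF) S hS
    refine h.trans ?_
    refine mul_le_mul' ?_ le_rfl
    exact ENNReal.coe_le_coe.2 (le_max_right _ _)
  · intro lam
    refine OuterA.outer_fails p q hpq ?_ ?_ diag (rho r) hnn hsum M hM W Y0 hY0c N u fh huW hinj hfh
      hun (fun K g => if K ≤ g.1 then 1 else 0) ?_ hpos hlim ?_ lam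
    · intro Y X _ _ _ _ ρ h1 h2 h3 M hM u fh hf hu T m al v hT htr
      exact GLow.gNorm_lower p q hpq (fun {n m} ys z al v h => TraceI.trace_indep ys z al v h)
        ρ h1 h2 h3 M hM u fh hf hu T al v hT htr
    · intro Y X _ _ _ _ d h1 h2 h3 η hη R hR T hT
      exact iNorm_le p hp1 d h1 h2 h3 η hη R hR T hT
    · intro K g
      by_cases h : K ≤ g.1 <;> simp [h]
    · intro K
      exact KeyC.key_closure p q hpq r hr0 sg tt hsum hnn diag hat alpha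
        (fun l i hi => (hid l i hi).2) W
        (fun l i hi K a ha x => OnHat.key_on_hat p q hpq r hr0 hr1 sg tt W hWs l i hi
          (hid l i hi).1 K a ha x) Y0 hY0 K

end Pool.Agent.BAPp
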