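import Mathlib
import Pool.Agent.BAPp.SysDefs

open Finset
open scoped ENNReal NNReal

set_option maxSynthPendingDepth 3

namespace Pool.Agent.BAPp.Hat




/-- the vectors `ê^l_i` in `ℓ_q` -/
theorem exists_hat (q : ℝ) (hq : 1 ≤ q) [Fact (1 ≤ ENNReal.ofReal q)] (r : ℝ)
    (sg tt : ℕ → ℕ → ℕ → ℝ) (l i : ℕ) :
    ∃ v : lp (fun _ : ℕ × ℕ => ℝ) (ENNReal.ofReal q),
      ∀ x, (v : ℕ × ℕ → ℝ) x = (rho r x) ^ (1 / q) * ee sg tt l i x := by
  have hmem : Memℓp (fun x : ℕ × ℕ => (rho r x) ^ (1 / q) * ee sg tt l i x)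
      (ENNReal.ofReal q) := by
    refine memℓp_gen ?_
    refine summable_of_hasFiniteSupport ?_
    refine Set.Finite.subset (Finset.finite_toSet ((range (l + 1)) ×ˢ (range (2 ^ (l + 2))))) ?_
    intro x hx
    rw [Function.mem_support] at hx
    have hee : ee sg tt l i x ≠ 0 := by
      intro h
      apply hx
      rw [h, mul_zero, norm_zero, Real.zero_rpow]
      rw [ENNReal.toReal_ofReal (by linarith)]
      linarith
    rw [Finset.mem_coe, Finset.mem_product, Finset.mem_range, Finset.mem_range]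
    unfold ee at hee
    by_cases h1 : x.2 < 2 ^ (x.1 + 2)
    · rw [if_pos h1] at hee
      have hx1 : x.1 ≤ l := by
        by_contra hlt
        push Not at hlt
        rw [if_neg (by omega), if_neg (by omega)] at hee
        exact hee rfl
      refine ⟨by omega, lt_of_lt_of_le h1 (Nat.pow_le_pow_right (by norm_num) (by omega))⟩
    · rw [if_neg h1] at hee
      exact absurd rfl hee
  exact ⟨⟨_, hmem⟩, fun x => rfl⟩

end Pool.Agent.BAPp.Hat
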