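import Mathlib
import Pool.Agent.BAPp.Defs

open MeasureTheory
open scoped ENNReal NNReal

set_option maxSynthPendingDepth 3

namespace Pool.Agent.BAPp.ILe




section dm

variable {Γ : Type} [MeasurableSpace Γ] [DiscreteMeasurableSpace Γ] [Countable Γ]

/-- the discrete measure with weights `w` -/
noncomputable def dm (w : Γ → ℝ) : Measure Γ :=
  Measure.sum (fun g => ENNReal.ofReal (w g) • Measure.dirac g)

theorem lintegral_dm (w : Γ → ℝ) (f : Γ → ℝ≥0∞) :
    ∫⁻ g, f g ∂(dm w) = ∑' g, ENNReal.ofReal (w g) * f g := by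
  rw [dm, lintegral_sum_measure]
  refine tsum_congr fun g => ?_
  rw [lintegral_smul_measure, lintegral_dirac, smul_eq_mul]

theorem dm_prob {w : Γ → ℝ} (h0 : ∀ g, 0 ≤ w g) (h1 : HasSum w 1) :
    IsProbabilityMeasure (dm w) := by
  refine ⟨?_⟩
  rw [← lintegral_one, lintegral_dm]
  simp only [mul_one]
  rw [← ENNReal.ofReal_tsum_of_nonneg h0 h1.summable, h1.tsum_eq, ENNReal.ofReal_one]

theorem dm_ae {w : Γ → ℝ} {P : Γ → Prop} (h : ∀ᵐ g ∂(dm w), P g) {g : Γ} (hg : 0 < w g) :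
    P g := by
  by_contra hP
  have h1 : dm w {g' | ¬ P g'} = 0 := h
  have h2 : dm w {g} ≤ dm w {g' | ¬ P g'} := measure_mono (by
    intro g' hg'
    rw [Set.mem_singleton_iff] at hg'
    rw [hg']
    exact hP)
  have h3 : (ENNReal.ofReal (w g) • Measure.dirac g) {g} ≤ dm w {g} :=
    Measure.le_sum (fun g => ENNReal.ofReal (w g) • Measure.dirac g) g {g}
  rw [h1] at h2
  have h4 := h3.trans h2
  simp only [Measure.smul_apply, smul_eq_mul, Measure.dirac_apply, Set.indicator_of_mem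
    (Set.mem_singleton g), Pi.one_apply, mul_one] at h4
  have h5 := ENNReal.ofReal_pos.2 hg
  exact absurd h4 (not_le.2 h5)

theorem dm_Lp {p : ℝ} (hp : 1 < p) [Fact (1 ≤ ENNReal.ofReal p)] {w : Γ → ℝ}
    (h0 : ∀ g, 0 ≤ w g) (f : Lp ℝ (ENNReal.ofReal p) (dm w)) :
    Summable (fun g => w g * |f g| ^ p) ∧ ∑' g, w g * |f g| ^ p = ‖f‖ ^ p := by
  have hp0 : 0 < p := by linarith
  have hpp : (ENNReal.ofReal p).toReal = p := ENNReal.toReal_ofReal hp0.le
  have h1 : ∫⁻ g, ‖f g‖ₑ ^ p ∂(dm w) = ENNReal.ofReal (‖f‖ ^ p) := by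
    rw [← ENNReal.ofReal_rpow_of_nonneg (norm_nonneg _) hp0.le, ofReal_norm, Lp.enorm_def,
      eLpNorm_eq_lintegral_rpow_enorm_toReal (by simpa using hp0) ENNReal.ofReal_ne_top, hpp,
      ← ENNReal.rpow_mul, one_div, inv_mul_cancel₀ hp0.ne', ENNReal.rpow_one]
  have h2 : ∑' g, ENNReal.ofReal (w g * |f g| ^ p) = ENNReal.ofReal (‖f‖ ^ p) := by
    rw [← h1, lintegral_dm]
    refine tsum_congr fun g => ?_
    rw [ENNReal.ofReal_mul (h0 g), ← ENNReal.ofReal_rpow_of_nonneg (abs_nonneg _) hp0.le,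
      ← Real.norm_eq_abs, ofReal_norm]
  have h3 : ∀ g, (ENNReal.ofReal (w g * |f g| ^ p)).toReal = w g * |f g| ^ p := fun g =>
    ENNReal.toReal_ofReal (mul_nonneg (h0 g) (by positivity))
  have h4 : ∑' g, ENNReal.ofReal (w g * |f g| ^ p) ≠ ⊤ := by
    rw [h2]
    exact ENNReal.ofReal_ne_top
  refine ⟨?_, ?_⟩
  · have := ENNReal.summable_toReal h4
    simpa only [h3] using this
  · have h5 := ENNReal.tsum_toReal_eq (f := fun g => ENNReal.ofReal (w g * |f g| ^ p))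
      (fun g => ENNReal.ofReal_ne_top)
    rw [h2, ENNReal.toReal_ofReal (by positivity)] at h5
    simp only [h3] at h5
    exact h5.symm

end dm

/-- Upper bound for the `p`-integral norm of an operator factoring through a diagonal operator
into `ℓ_p`. -/
theorem iNorm_le_diag (p : ℝ) (hp : 1 < p) [Fact (1 ≤ ENNReal.ofReal p)] {Y X Γ : Type}
    [Countable Γ] [NormedAddCommGroup Y] [NormedSpace ℝ Y] [NormedAddCommGroup X] [NormedSpace ℝ X]
    (d : Γ → ℝ) (hd0 : ∀ g, 0 ≤ d g) (hd : Summable (fun g => d g ^ p))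
    (hpos : 0 < ∑' g, d g ^ p)
    (η : Γ → (Y →L[ℝ] ℝ)) (hη : ∀ g, ‖η g‖ ≤ 1)
    (R : lp (fun _ : Γ => ℝ) (ENNReal.ofReal p) →L[ℝ] X) (hR : ‖R‖ ≤ 1)
    (T : Y →L[ℝ] X)
    (hT : ∀ (y : Y) (a : lp (fun _ : Γ => ℝ) (ENNReal.ofReal p)),
      (∀ g, (a : Γ → ℝ) g = d g * η g y) → T y = R a) :
    iNorm p T ≤ ENNReal.ofReal ((∑' g, d g ^ p) ^ (1 / p)) := by
  letI : MeasurableSpace Γ := ⊤
  haveI : DiscreteMeasurableSpace Γ := ⟨fun _ => trivial⟩
  have hp0 : 0 < p := by linarith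
  have hpp : (ENNReal.ofReal p).toReal = p := ENNReal.toReal_ofReal hp0.le
  set Z : ℝ := ∑' g, d g ^ p with hZ
  set w : Γ → ℝ := fun g => d g ^ p / Z with hw
  have hw0 : ∀ g, 0 ≤ w g := fun g => div_nonneg (Real.rpow_nonneg (hd0 g) p) hpos.le
  have hw1 : HasSum w 1 := by
    have := hd.hasSum.div_const Z
    rwa [← hZ, div_self hpos.ne'] at this
  have hwd : ∀ g, ¬ 0 < w g → d g = 0 := by
    intro g hg
    have h1 : w g = 0 := le_antisymm (not_lt.1 hg) (hw0 g)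
    have h2 : d g ^ p = 0 := by
      rw [hw] at h1
      simpa [hpos.ne'] using h1
    exact (Real.rpow_eq_zero (hd0 g) hp0.ne').1 h2
  haveI hprob : IsProbabilityMeasure (dm w) := dm_prob hw0 hw1
  -- the operator `A`
  have hbd : ∀ (y : Y) (g : Γ), ‖η g y‖ ≤ ‖y‖ := fun y g => by
    calc ‖η g y‖ ≤ ‖η g‖ * ‖y‖ := (η g).le_opNorm y
      _ ≤ 1 * ‖y‖ := by gcongr; exact hη g
      _ = ‖y‖ := one_mul _
  have hAm : ∀ y : Y, MemLp (fun g => η g y) ∞ (dm w) := fun y =>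
    memLp_top_of_bound (Measurable.of_discrete.aestronglyMeasurable) ‖y‖
      (Filter.Eventually.of_forall (hbd y))
  let A0 : Y →ₗ[ℝ] Lp ℝ ∞ (dm w) :=
    { toFun := fun y => (hAm y).toLp
      map_add' := fun y y' => by
        rw [← MemLp.toLp_add]
        congr 1
        funext g
        exact map_add _ _ _
      map_smul' := fun c y => by
        rw [RingHom.id_apply, ← MemLp.toLp_const_smul]
        congr 1
        funext g
        exact map_smul _ _ _ }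
  have hA0 : ∀ y, ‖A0 y‖ ≤ 1 * ‖y‖ := by
    intro y
    have h1 : ∀ᵐ g ∂(dm w), ‖(A0 y) g‖ ≤ ‖y‖ := by
      filter_upwards [(hAm y).coeFn_toLp] with g hg
      show ‖((hAm y).toLp : Γ → ℝ) g‖ ≤ ‖y‖
      rw [hg]
      exact hbd y g
    have h2 := Lp.norm_le_of_ae_bound (norm_nonneg y) h1
    simpa using h2
  let A : Y →L[ℝ] Lp ℝ ∞ (dm w) := A0.mkContinuous 1 hA0
  have hAn : ‖A‖ ≤ 1 := A0.mkContinuous_norm_le zero_le_one hA0
  have hAy : ∀ y, ∀ g, 0 < w g → (incl (dm w) (ENNReal.ofReal p) (A y)) g = η g y := by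
    intro y g hg
    have h1 : ∀ᵐ g ∂(dm w), (incl (dm w) (ENNReal.ofReal p) (A y)) g = η g y := by
      have h2 : incl (dm w) (ENNReal.ofReal p) (A y) =ᵐ[dm w] A y := MemLp.coeFn_toLp _
      have h3 : A y =ᵐ[dm w] fun g => η g y := (hAm y).coeFn_toLp
      exact h2.trans h3
    exact dm_ae h1 hg
  -- the multiplication operator
  have hkey : ∀ (f : Lp ℝ (ENNReal.ofReal p) (dm w)) (g : Γ),
      ‖d g * f g‖ ^ p = Z * (w g * |f g| ^ p) := by
    intro f g
    have hwg : Z * w g = d g ^ p := by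
      show Z * (d g ^ p / Z) = d g ^ p
      field_simp
    rw [Real.norm_eq_abs, abs_mul, abs_of_nonneg (hd0 g), Real.mul_rpow (hd0 g) (abs_nonneg _),
      ← mul_assoc, hwg]
  have hMm : ∀ f : Lp ℝ (ENNReal.ofReal p) (dm w),
      Memℓp (fun g => d g * f g) (ENNReal.ofReal p) := by
    intro f
    apply memℓp_gen
    rw [hpp]
    simp only [hkey]
    exact (dm_Lp hp hw0 f).1.mul_left Z
  let M0 : Lp ℝ (ENNReal.ofReal p) (dm w) →ₗ[ℝ] lp (fun _ : Γ => ℝ) (ENNReal.ofReal p) :=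
    { toFun := fun f => ⟨fun g => d g * f g, hMm f⟩
      map_add' := fun f f' => by
        apply lp.ext
        funext g
        show d g * (f + f') g = d g * f g + d g * f' g
        by_cases hg : 0 < w g
        · rw [dm_ae (Lp.coeFn_add f f') hg, Pi.add_apply, mul_add]
        · rw [hwd g hg]
          simp
      map_smul' := fun c f => by
        apply lp.ext
        funext g
        show d g * (c • f) g = c * (d g * f g)
        by_cases hg : 0 < w g
        · rw [dm_ae (Lp.coeFn_smul c f) hg, Pi.smul_apply, smul_eq_mul]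
          ring
        · rw [hwd g hg]
          simp }
  have hM0 : ∀ f, ‖M0 f‖ ≤ Z ^ (1 / p) * ‖f‖ := by
    intro f
    refine lp.norm_le_of_tsum_le (by rw [hpp]; exact hp0) (by positivity) ?_
    rw [hpp]
    have h1 : ∀ g, ‖(M0 f : Γ → ℝ) g‖ ^ p = Z * (w g * |f g| ^ p) := fun g => hkey f g
    simp only [h1]
    rw [tsum_mul_left, (dm_Lp hp hw0 f).2, Real.mul_rpow (by positivity) (norm_nonneg _),
      ← Real.rpow_mul hpos.le, one_div, inv_mul_cancel₀ hp0.ne', Real.rpow_one]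
  let M1 : Lp ℝ (ENNReal.ofReal p) (dm w) →L[ℝ] lp (fun _ : Γ => ℝ) (ENNReal.ofReal p) :=
    M0.mkContinuous (Z ^ (1 / p)) hM0
  have hM1n : ‖M1‖ ≤ Z ^ (1 / p) := M0.mkContinuous_norm_le (by positivity) hM0
  let B : Lp ℝ (ENNReal.ofReal p) (dm w) →L[ℝ] ((X →L[ℝ] ℝ) →L[ℝ] ℝ) :=
    (NormedSpace.inclusionInDoubleDual ℝ X).comp (R.comp M1)
  have hBn : ‖B‖ ≤ Z ^ (1 / p) := by
    calc ‖B‖ ≤ ‖NormedSpace.inclusionInDoubleDual ℝ X‖ * ‖R.comp M1‖ :=
          ContinuousLinearMap.opNorm_comp_le _ _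
      _ ≤ 1 * (‖R‖ * ‖M1‖) := by
          gcongr
          · exact NormedSpace.inclusionInDoubleDual_norm_le ℝ X
          · exact ContinuousLinearMap.opNorm_comp_le _ _
      _ ≤ 1 * (1 * Z ^ (1 / p)) := by gcongr
      _ = Z ^ (1 / p) := by ring
  have hfac : ∀ (y : Y) (f : X →L[ℝ] ℝ),
      f (T y) = B (incl (dm w) (ENNReal.ofReal p) (A y)) f := by
    intro y f
    show f (T y) = f (R (M0 (incl (dm w) (ENNReal.ofReal p) (A y))))
    rw [hT y]
    intro g
    show d g * (incl (dm w) (ENNReal.ofReal p) (A y)) g = d g * η g y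
    by_cases hg : 0 < w g
    · rw [hAy y g hg]
    · rw [hwd g hg]
      simp
  refine iInf_le_of_le Γ (iInf_le_of_le ⊤ (iInf_le_of_le (dm w) (iInf_le_of_le hprob
    (iInf_le_of_le A (iInf_le_of_le B (iInf_le_of_le hfac ?_))))))
  refine ENNReal.ofReal_le_ofReal ?_
  calc ‖A‖ * ‖B‖ ≤ 1 * Z ^ (1 / p) := by gcongr
    _ = Z ^ (1 / p) := one_mul _

end Pool.Agent.BAPp.ILe
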